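import Pool.Agent.Lib.DN.Defs

/-!
# The sum of `1/lcm(d, e)`
-/

set_option autoImplicit false

open Finset

namespace Pool.Agent.Lib.DN

theorem lcm_harm (n : ℕ) : ∑ k ∈ Icc 1 n, (1 : ℝ) / k ≤ 1 + Real.log n := by
  have h := harmonic_le_one_add_log n
  rw [harmonic_eq_sum_Icc] at h
  push_cast at h
  simpa [one_div] using h

theorem lcm_inner (Z g : ℕ) (hZ : 1 ≤ Z) (hg : 1 ≤ g) :
    ∑ d ∈ (Icc 1 Z).filter (fun d => g ∣ d), (1 : ℝ) / d ≤ (1 / g) * (1 + Real.log Z) := by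
  have hg0 : (0 : ℝ) < g := by exact_mod_cast hg
  have h1 : ∑ d ∈ (Icc 1 Z).filter (fun d => g ∣ d), (1 : ℝ) / d
      ≤ ∑ k ∈ Icc 1 Z, (1 : ℝ) / ((g * k : ℕ) : ℝ) := by
    have hsub : (Icc 1 Z).filter (fun d => g ∣ d) ⊆ (Icc 1 Z).image (fun k => g * k) := by
      intro d hd
      have hd' := mem_filter.mp hd
      obtain ⟨k, hk⟩ := hd'.2
      have hdI := mem_Icc.mp hd'.1
      refine mem_image.mpr ⟨k, ?_, hk.symm⟩
      have hk1 : 1 ≤ k := by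
        rcases Nat.eq_zero_or_pos k with h | h
        · rw [h] at hk
          simp at hk
          omega
        · exact h
      have hk2 : k ≤ g * k := Nat.le_mul_of_pos_left k hg
      rw [mem_Icc]
      exact ⟨hk1, by rw [hk] at hdI; omega⟩
    calc ∑ d ∈ (Icc 1 Z).filter (fun d => g ∣ d), (1 : ℝ) / d
        ≤ ∑ d ∈ (Icc 1 Z).image (fun k => g * k), (1 : ℝ) / d :=
          sum_le_sum_of_subset_of_nonneg hsub (fun _ _ _ => by positivity)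
      _ = ∑ k ∈ Icc 1 Z, (1 : ℝ) / ((g * k : ℕ) : ℝ) := by
          rw [sum_image]
          intro x _ y _ hxy
          exact Nat.eq_of_mul_eq_mul_left hg hxy
  refine h1.trans ?_
  have h2 : ∑ k ∈ Icc 1 Z, (1 : ℝ) / ((g * k : ℕ) : ℝ) = (1 / g) * ∑ k ∈ Icc 1 Z, (1 : ℝ) / k := by
    rw [mul_sum]
    refine sum_congr rfl fun k _ => ?_
    push_cast
    rw [one_div_mul_one_div]
  rw [h2]
  exact mul_le_mul_of_nonneg_left (lcm_harm Z) (by positivity)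

theorem lcm_term (Z d e : ℕ) (hd : d ∈ Icc 1 Z) (he : e ∈ Icc 1 Z) :
    (1 : ℝ) / (Nat.lcm d e : ℝ) ≤
      ∑ g ∈ Icc 1 Z, if g ∣ d ∧ g ∣ e then (g : ℝ) * ((1 / d) * (1 / e)) else 0 := by
  have hd' := mem_Icc.mp hd
  have he' := mem_Icc.mp he
  have hd0 : (0 : ℝ) < d := by exact_mod_cast hd'.1
  have he0 : (0 : ℝ) < e := by exact_mod_cast he'.1
  have hl : 0 < Nat.lcm d e := Nat.lcm_pos hd'.1 he'.1
  have hl0 : (0 : ℝ) < (Nat.lcm d e : ℝ) := by exact_mod_cast hl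
  have hg : 0 < Nat.gcd d e := Nat.gcd_pos_of_pos_left e hd'.1
  have h1 : (1 : ℝ) / (Nat.lcm d e : ℝ) = (Nat.gcd d e : ℝ) * ((1 / d) * (1 / e)) := by
    have h2 : (Nat.gcd d e : ℝ) * (Nat.lcm d e : ℝ) = d * e := by
      exact_mod_cast Nat.gcd_mul_lcm d e
    rw [one_div_mul_one_div, ← h2]
    have hg0 : (Nat.gcd d e : ℝ) ≠ 0 := by exact_mod_cast hg.ne'
    field_simp
  rw [h1]
  have hmem : Nat.gcd d e ∈ Icc 1 Z := by
    rw [mem_Icc]
    exact ⟨hg, (Nat.gcd_le_left e hd'.1).trans hd'.2⟩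
  refine le_trans ?_ (single_le_sum (f := fun g : ℕ => if g ∣ d ∧ g ∣ e then (g : ℝ) * ((1 / d) * (1 / e)) else 0)
    (fun g _ => ?_) hmem)
  · show _ ≤ if Nat.gcd d e ∣ d ∧ Nat.gcd d e ∣ e then ((Nat.gcd d e : ℕ) : ℝ) * ((1 / d) * (1 / e)) else 0
    rw [if_pos ⟨Nat.gcd_dvd_left d e, Nat.gcd_dvd_right d e⟩]
  · show (0 : ℝ) ≤ if g ∣ d ∧ g ∣ e then (g : ℝ) * ((1 / d) * (1 / e)) else 0
    split_ifs
    · positivity
    · exact le_rfl

/-- module P8 (Lcm.lean) -/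
theorem sum_lcm (Z : ℕ) (hZ : 1 ≤ Z) :
    ∑ d ∈ Icc 1 Z, ∑ e ∈ Icc 1 Z, (1 : ℝ) / (Nat.lcm d e : ℝ) ≤ (1 + Real.log Z) ^ 3 := by
  have hL : (0 : ℝ) ≤ 1 + Real.log Z := by
    have : (0 : ℝ) ≤ Real.log Z := Real.log_natCast_nonneg Z
    linarith
  calc ∑ d ∈ Icc 1 Z, ∑ e ∈ Icc 1 Z, (1 : ℝ) / (Nat.lcm d e : ℝ)
      ≤ ∑ d ∈ Icc 1 Z, ∑ e ∈ Icc 1 Z,
          ∑ g ∈ Icc 1 Z, (if g ∣ d ∧ g ∣ e then (g : ℝ) * ((1 / d) * (1 / e)) else 0) :=
        sum_le_sum fun d hd => sum_le_sum fun e he => lcm_term Z d e hd he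
    _ = ∑ g ∈ Icc 1 Z, (g : ℝ) * ((∑ d ∈ (Icc 1 Z).filter (fun d => g ∣ d), (1 : ℝ) / d) *
          ∑ e ∈ (Icc 1 Z).filter (fun d => g ∣ d), (1 : ℝ) / e) := by
        rw [sum_congr rfl fun d _ => sum_comm, sum_comm]
        refine sum_congr rfl fun g _ => ?_
        rw [sum_mul_sum, sum_filter, mul_sum]
        refine sum_congr rfl fun d _ => ?_
        by_cases hgd : g ∣ d
        · rw [if_pos hgd, sum_filter, mul_sum]
          refine sum_congr rfl fun e _ => ?_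
          by_cases hge : g ∣ e
          · rw [if_pos ⟨hgd, hge⟩, if_pos hge]
          · rw [if_neg fun h => hge h.2, if_neg hge, mul_zero]
        · rw [if_neg hgd, mul_zero]
          exact sum_eq_zero fun e _ => if_neg fun h => hgd h.1
    _ ≤ ∑ g ∈ Icc 1 Z, (1 / g : ℝ) * (1 + Real.log Z) ^ 2 := by
        refine sum_le_sum fun g hg => ?_
        have hg1 := (mem_Icc.mp hg).1
        have hg0 : (0 : ℝ) < g := by exact_mod_cast hg1
        have h1 := lcm_inner Z g hZ hg1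
        have h2 : 0 ≤ ∑ d ∈ (Icc 1 Z).filter (fun d => g ∣ d), (1 : ℝ) / d :=
          sum_nonneg fun _ _ => by positivity
        calc (g : ℝ) * ((∑ d ∈ (Icc 1 Z).filter (fun d => g ∣ d), (1 : ℝ) / d) *
              ∑ e ∈ (Icc 1 Z).filter (fun d => g ∣ d), (1 : ℝ) / e)
            ≤ (g : ℝ) * (((1 / g) * (1 + Real.log Z)) * ((1 / g) * (1 + Real.log Z))) := by
              refine mul_le_mul_of_nonneg_left ?_ hg0.le
              exact mul_le_mul h1 h1 h2 (h2.trans h1)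
          _ = (1 / g : ℝ) * (1 + Real.log Z) ^ 2 := by
              field_simp
    _ = (∑ g ∈ Icc 1 Z, (1 / g : ℝ)) * (1 + Real.log Z) ^ 2 := by rw [sum_mul]
    _ ≤ (1 + Real.log Z) * (1 + Real.log Z) ^ 2 :=
        mul_le_mul_of_nonneg_right (lcm_harm Z) (by positivity)
    _ = (1 + Real.log Z) ^ 3 := by ring

end Pool.Agent.Lib.DN
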