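import Pool.Agent.Lib.DN.Defs
import Pool.Agent.Lib.MP_092512_nt.VC.V3

/-!
# Sums of `n^(it)` over progressions, large `t`
-/

set_option autoImplicit false

open Finset

namespace Pool.Agent.Lib.DN

theorem nt_prog (t : ℝ) (r s k : ℕ) (hr : 1 ≤ r) (hk : 1 ≤ k) :
    nt t (s + r * k) = Complex.exp (Complex.I * (t * Real.log r)) *
      Complex.exp (Complex.I * (t * Real.log (k + (s : ℝ) / r))) := by
  unfold nt
  rw [← Complex.exp_add]
  congr 1
  have hr' : (0 : ℝ) < r := by exact_mod_cast hr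
  have hk' : (0 : ℝ) < k := by exact_mod_cast hk
  have h : Real.log ((s + r * k : ℕ) : ℝ) = Real.log r + Real.log (k + (s : ℝ) / r) := by
    rw [← Real.log_mul hr'.ne' (by positivity)]
    congr 1
    push_cast
    field_simp
    ring
  rw [h]
  push_cast
  ring

theorem prog_eq (t : ℝ) (a b r s : ℕ) (hr : 1 ≤ r) (hs : s < r) (has : s ≤ a) (hab : a ≤ b) :
    ∑ n ∈ (Ioc a b).filter (fun n => n % r = s), nt t n =
      ∑ k ∈ Ioc ((a - s) / r) ((b - s) / r), nt t (s + r * k) := by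
  symm
  refine Finset.sum_bij (fun k _ => s + r * k) ?_ ?_ ?_ (fun _ _ => rfl)
  · intro k hk
    rw [mem_Ioc] at hk
    have h1 : a - s < k * r := (Nat.div_lt_iff_lt_mul hr).1 hk.1
    have h2 : k * r ≤ b - s := (Nat.le_div_iff_mul_le hr).1 hk.2
    have h3 : r * k = k * r := mul_comm _ _
    rw [mem_filter, mem_Ioc]
    refine ⟨⟨by omega, by omega⟩, ?_⟩
    rw [Nat.add_mul_mod_self_left, Nat.mod_eq_of_lt hs]
  · intro k _ k' _ h
    have h' : r * k = r * k' := by
      omega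
    exact Nat.eq_of_mul_eq_mul_left hr h'
  · intro n hn
    rw [mem_filter, mem_Ioc] at hn
    refine ⟨n / r, ?_, ?_⟩
    · have h1 := Nat.div_add_mod n r
      rw [hn.2] at h1
      have h3 : r * (n / r) = (n / r) * r := mul_comm _ _
      rw [mem_Ioc, Nat.div_lt_iff_lt_mul hr, Nat.le_div_iff_mul_le hr]
      omega
    · have h1 := Nat.div_add_mod n r
      rw [hn.2] at h1
      show s + r * (n / r) = n
      omega

/-- module P4 (ProgL.lean): progressions, large `t`, from `VDC.vc` -/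
theorem prog_large (A : ℕ) (β : ℝ) (hβ : 0 < β) : ∃ x0 : ℝ, 3 ≤ x0 ∧ ∀ x : ℝ, x0 ≤ x → ∀ t : ℝ,
    (Real.log x) ^ (A + 3) ≤ |t| → |t| ≤ 2 * x → ∀ a b r s : ℕ, 1 ≤ r → s < r → (r : ℝ) * x ^ β ≤ a → b ≤ 2 * a →
    ‖∑ n ∈ (Ioc a b).filter (fun n => n % r = s), nt t n‖ ≤ a / (r * (Real.log x) ^ A) := by
  obtain ⟨x0, hx01, hx0⟩ := Pool.Agent.Lib.VDC.vc A (β / 2) (by positivity)
  refine ⟨max 3 (max x0 (2 ^ (2 / β))), le_max_left _ _, ?_⟩
  intro x hx t ht1 ht2 a b r s hr hs ha hb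
  have hx3 : 3 ≤ x := (le_max_left _ _).trans hx
  have hxx : x0 ≤ x := (le_max_left _ _).trans ((le_max_right _ _).trans hx)
  have hx2 : (2 : ℝ) ^ (2 / β) ≤ x := (le_max_right _ _).trans ((le_max_right _ _).trans hx)
  have hr' : (0 : ℝ) < r := by exact_mod_cast hr
  have hlog : 0 < Real.log x := Real.log_pos (by linarith)
  have hxb : (2 : ℝ) ≤ x ^ (β / 2) := by
    calc (2 : ℝ) = ((2 : ℝ) ^ (2 / β)) ^ (β / 2) := by
          rw [← Real.rpow_mul (by norm_num)]
          have : 2 / β * (β / 2) = 1 := by field_simp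
          rw [this, Real.rpow_one]
      _ ≤ x ^ (β / 2) := Real.rpow_le_rpow (by positivity) hx2 (by positivity)
  have hxsq : x ^ β = x ^ (β / 2) * x ^ (β / 2) := by
    rw [← Real.rpow_add (by linarith)]
    congr 1
    ring
  have hx1 : x ^ (β / 2) + 2 ≤ x ^ β := by
    rw [hxsq]
    nlinarith
  by_cases hab : a ≤ b
  swap
  · rw [Ioc_eq_empty (by omega)]
    simp only [filter_empty, sum_empty, norm_zero]
    positivity
  have hra : r ≤ a := by
    have h1 : (r : ℝ) * 1 ≤ r * x ^ β := by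
      apply mul_le_mul_of_nonneg_left _ hr'.le
      linarith
    have h2 : (r : ℝ) ≤ a := by linarith
    exact_mod_cast h2
  have hsa : s ≤ a := by omega
  rw [prog_eq t a b r s hr hs hsa hab]
  set k0 := (a - s) / r with hk0
  set k1 := (b - s) / r with hk1
  have hm0 : r * k0 ≤ a - s := Nat.mul_div_le _ _
  have hm1 : a - s < r * (k0 + 1) := by
    have := Nat.lt_mul_div_succ (a - s) hr
    exact this
  have hm2 : r * k1 ≤ b - s := Nat.mul_div_le _ _
  have hk01 : k1 ≤ 2 * k0 + 2 := by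
    by_contra hcon
    push Not at hcon
    have h1 : r * (2 * k0 + 3) ≤ r * k1 := Nat.mul_le_mul_left _ (by omega)
    have h2 : r * (2 * k0 + 3) = 2 * (r * (k0 + 1)) + r := by ring
    omega
  have hk0x : x ^ (β / 2) ≤ k0 := by
    have h1 : (a : ℝ) - s < r * (k0 + 1) := by
      have h2 : a < s + r * (k0 + 1) := by omega
      have h3 : (a : ℝ) < s + r * (k0 + 1) := by exact_mod_cast h2
      linarith
    have h2 : (s : ℝ) ≤ r := by exact_mod_cast hs.le
    have h3 : (r : ℝ) * (x ^ (β / 2) + 2) ≤ r * x ^ β := mul_le_mul_of_nonneg_left hx1 hr'.le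
    have h4 : (r : ℝ) * (x ^ (β / 2)) ≤ r * k0 := by
      nlinarith
    exact le_of_mul_le_mul_left h4 hr'
  have hmain := hx0 x hxx t ht1 ht2 k0 k1 hk0x hk01 ((s : ℝ) / r) (by positivity)
    (by rw [div_le_one hr']; exact_mod_cast hs.le)
  have heq : ∑ k ∈ Ioc k0 k1, nt t (s + r * k) = Complex.exp (Complex.I * (t * Real.log r)) *
      ∑ k ∈ Ioc k0 k1, Complex.exp (Complex.I * (t * Real.log (k + (s : ℝ) / r))) := by
    rw [Finset.mul_sum]
    apply Finset.sum_congr rfl
    intro k hk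
    rw [mem_Ioc] at hk
    exact nt_prog t r s k hr (by omega)
  rw [heq, norm_mul]
  have hn1 : ‖Complex.exp (Complex.I * (t * Real.log r))‖ = 1 := by
    rw [mul_comm, ← Complex.ofReal_mul, Complex.norm_exp_ofReal_mul_I]
  rw [hn1, one_mul]
  refine hmain.trans ?_
  rw [div_le_div_iff₀ (by positivity) (by positivity)]
  have h5 : (r : ℝ) * k0 ≤ a := by
    have h6 : r * k0 ≤ a := by omega
    exact_mod_cast h6
  have hl : 0 < (Real.log x) ^ A := by positivity
  nlinarith

end Pool.Agent.Lib.DN
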