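import Pool.Agent.Lib.DN.Maj
import Pool.Agent.Lib.DN.Lcm
import Pool.Agent.Lib.DN.ProgL

/-!
# Off-diagonal terms, large `t`
-/

set_option autoImplicit false

open Finset

namespace Pool.Agent.Lib.DN

theorem off_large (q : ℕ) (hq : 1 ≤ q) (A : ℕ) (β : ℝ) (hβ : 0 < β) : ∃ x0 : ℝ, 3 ≤ x0 ∧ ∀ x : ℝ, x0 ≤ x → ∀ t : ℝ,
    (Real.log x) ^ (A + 7) ≤ |t| → |t| ≤ 2 * x → ∀ a b Z : ℕ, x ^ β ≤ a → (a : ℝ) ≤ x → b ≤ 2 * a → 1 ≤ Z → (Z : ℝ) ^ 4 ≤ a →
    ∀ l : ℕ → ℝ, (∀ d, |l d| ≤ 1) → (∀ d, l d ≠ 0 → d.Coprime q) → ∀ ψ : ℕ → ℂ, (∀ n, ψ n = ψ (n % q)) → (∀ n, ‖ψ n‖ ≤ 1) →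
    ‖∑ n ∈ Ioc a b, (maj Z l n : ℂ) * (ψ n * nt t n)‖ ≤ a / (Real.log x) ^ A := by
  obtain ⟨x1, hx1, key⟩ := prog_large (A + 4) (β / 4) (by positivity)
  obtain ⟨x2, hx2⟩ : ∃ x2 : ℝ, ∀ x : ℝ, x2 ≤ x → (q : ℝ) ≤ x ^ (β / 4) := by
    have h := tendsto_rpow_atTop (show 0 < β / 4 by positivity)
    obtain ⟨x2, hx2⟩ := Filter.eventually_atTop.mp (h.eventually_ge_atTop (q : ℝ))
    exact ⟨x2, hx2⟩
  refine ⟨max (max x1 x2) (Real.exp 2), ?_, ?_⟩
  · exact le_max_of_le_left (le_max_of_le_left hx1)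
  intro x hx t ht1 ht2 a b Z ha hax hb hZ hZ4 l hl1 hl ψ hψ hψ1
  have hxx1 : x1 ≤ x := (le_max_left _ _).trans ((le_max_left _ _).trans hx)
  have hxx2 : x2 ≤ x := (le_max_right _ _).trans ((le_max_left _ _).trans hx)
  have hxe : Real.exp 2 ≤ x := (le_max_right _ _).trans hx
  have hx0 : 0 < x := lt_of_lt_of_le (Real.exp_pos 2) hxe
  have hlog : 2 ≤ Real.log x := by
    rw [← Real.log_exp 2]
    exact Real.log_le_log (Real.exp_pos 2) hxe
  have hlog0 : 0 < Real.log x := by linarith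
  have ha0 : (0 : ℝ) < a := lt_of_lt_of_le (Real.rpow_pos_of_pos hx0 β) ha
  have hqx := hx2 x hxx2
  have hq0 : (0 : ℝ) < q := by exact_mod_cast hq
  have hZ0 : (1 : ℝ) ≤ Z := by exact_mod_cast hZ
  -- the moduli
  have hsqrt : (Z : ℝ) ^ 2 ≤ √a := by
    apply Real.le_sqrt_of_sq_le
    calc ((Z : ℝ) ^ 2) ^ 2 = (Z : ℝ) ^ 4 := by ring
      _ ≤ (a : ℝ) := hZ4
  have hsqrt2 : (q : ℝ) * x ^ (β / 4) ≤ √a := by
    calc (q : ℝ) * x ^ (β / 4) ≤ x ^ (β / 4) * x ^ (β / 4) :=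
          mul_le_mul_of_nonneg_right hqx (Real.rpow_nonneg hx0.le _)
      _ = x ^ (β / 2) := by
          rw [← Real.rpow_add hx0]
          congr 1
          ring
      _ = √(x ^ β) := by
          rw [Real.sqrt_eq_rpow, ← Real.rpow_mul hx0.le]
          congr 1
          ring
      _ ≤ √a := Real.sqrt_le_sqrt ha
  obtain ⟨cls, hcls, hexp⟩ := maj_expand q hq Z l hl
  rw [hexp ψ (nt t) hψ a b]
  have hlc : ∀ d ∈ Icc 1 Z, ∀ e ∈ Icc 1 Z, (1 : ℝ) ≤ (Nat.lcm d e : ℝ) ∧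
      (Nat.lcm d e : ℝ) ≤ (Z : ℝ) ^ 2 := by
    intro d hd e he
    rw [mem_Icc] at hd he
    have h1 : 0 < Nat.lcm d e := Nat.lcm_pos (by omega) (by omega)
    have h2 : Nat.lcm d e ≤ d * e := Nat.le_of_dvd (Nat.mul_pos (by omega) (by omega)) (Nat.lcm_dvd_mul d e)
    have h3 : d * e ≤ Z * Z := Nat.mul_le_mul hd.2 he.2
    constructor
    · exact_mod_cast h1
    · have h4 : Nat.lcm d e ≤ Z ^ 2 := by rw [sq]; omega
      exact_mod_cast h4
  have hin : ∀ d ∈ Icc 1 Z, ∀ e ∈ Icc 1 Z,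
      ‖((l d * l e : ℝ) : ℂ) * ∑ s ∈ range q, ψ s *
        ∑ n ∈ (Ioc a b).filter (fun n => n % (q * Nat.lcm d e) = cls d e s), nt t n‖ ≤
      a / (Real.log x) ^ (A + 4) * (1 / (Nat.lcm d e : ℝ)) := by
    intro d hd e he
    obtain ⟨h1, h2⟩ := hlc d hd e he
    have hd' := mem_Icc.mp hd
    have he' := mem_Icc.mp he
    have hr1 : 1 ≤ q * Nat.lcm d e := by
      have : 0 < Nat.lcm d e := Nat.lcm_pos (by omega) (by omega)
      exact Nat.mul_pos (by omega) this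
    have hrx : ((q * Nat.lcm d e : ℕ) : ℝ) * x ^ (β / 4) ≤ a := by
      push_cast
      calc (q : ℝ) * (Nat.lcm d e : ℝ) * x ^ (β / 4)
          = (q * x ^ (β / 4)) * (Nat.lcm d e : ℝ) := by ring
        _ ≤ √a * √a := by
            apply mul_le_mul hsqrt2 (h2.trans hsqrt) (by positivity) (Real.sqrt_nonneg _)
        _ = (a : ℝ) := Real.mul_self_sqrt ha0.le
    rw [norm_mul, Complex.norm_real, Real.norm_eq_abs]
    have h3 : |l d * l e| ≤ 1 := by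
      rw [abs_mul]
      exact mul_le_one₀ (hl1 d) (abs_nonneg _) (hl1 e)
    have h4 : ‖∑ s ∈ range q, ψ s *
        ∑ n ∈ (Ioc a b).filter (fun n => n % (q * Nat.lcm d e) = cls d e s), nt t n‖ ≤
        a / (Real.log x) ^ (A + 4) * (1 / (Nat.lcm d e : ℝ)) := by
      refine (norm_sum_le _ _).trans ?_
      have h5 : ∀ s ∈ range q, ‖ψ s *
          ∑ n ∈ (Ioc a b).filter (fun n => n % (q * Nat.lcm d e) = cls d e s), nt t n‖ ≤
          a / (((q * Nat.lcm d e : ℕ) : ℝ) * (Real.log x) ^ (A + 4)) := by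
        intro s hs
        rw [norm_mul]
        have h6 := key x hxx1 t (by
          rw [show A + 4 + 3 = A + 7 by ring]; exact ht1) ht2 a b (q * Nat.lcm d e) (cls d e s)
          hr1 (hcls d e s (by omega) (by omega)) hrx hb
        calc _ ≤ 1 * ‖∑ n ∈ (Ioc a b).filter
              (fun n => n % (q * Nat.lcm d e) = cls d e s), nt t n‖ :=
              mul_le_mul_of_nonneg_right (hψ1 s) (norm_nonneg _)
          _ ≤ _ := by rw [one_mul]; exact h6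
      refine (Finset.sum_le_sum h5).trans (le_of_eq ?_)
      rw [Finset.sum_const, card_range, nsmul_eq_mul]
      push_cast
      field_simp
    calc _ ≤ 1 * ‖∑ s ∈ range q, ψ s *
        ∑ n ∈ (Ioc a b).filter (fun n => n % (q * Nat.lcm d e) = cls d e s), nt t n‖ :=
          mul_le_mul_of_nonneg_right h3 (norm_nonneg _)
      _ ≤ _ := by rw [one_mul]; exact h4
  have hsum : ‖∑ d ∈ Icc 1 Z, ∑ e ∈ Icc 1 Z, ((l d * l e : ℝ) : ℂ) * ∑ s ∈ range q, ψ s *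
        ∑ n ∈ (Ioc a b).filter (fun n => n % (q * Nat.lcm d e) = cls d e s), nt t n‖ ≤
      a / (Real.log x) ^ (A + 4) * (1 + Real.log Z) ^ 3 := by
    calc _ ≤ ∑ d ∈ Icc 1 Z, ∑ e ∈ Icc 1 Z, a / (Real.log x) ^ (A + 4) *
          (1 / (Nat.lcm d e : ℝ)) := by
          refine (norm_sum_le _ _).trans (Finset.sum_le_sum fun d hd => ?_)
          exact (norm_sum_le _ _).trans (Finset.sum_le_sum fun e he => hin d hd e he)
      _ = a / (Real.log x) ^ (A + 4) * ∑ d ∈ Icc 1 Z, ∑ e ∈ Icc 1 Z,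
          (1 : ℝ) / (Nat.lcm d e : ℝ) := by
          simp only [Finset.mul_sum]
      _ ≤ _ := mul_le_mul_of_nonneg_left (sum_lcm Z hZ) (by positivity)
  refine hsum.trans ?_
  have hlogZ : 1 + Real.log Z ≤ Real.log x := by
    have h1 : Real.log ((Z : ℝ) ^ 4) ≤ Real.log x :=
      Real.log_le_log (by positivity) (hZ4.trans hax)
    rw [Real.log_pow] at h1
    push_cast at h1
    linarith
  have hlogZ0 : 0 ≤ 1 + Real.log Z := by
    have := Real.log_nonneg hZ0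
    linarith
  have h7 : (1 + Real.log Z) ^ 3 ≤ (Real.log x) ^ 4 := by
    calc (1 + Real.log Z) ^ 3 ≤ (Real.log x) ^ 3 := pow_le_pow_left₀ hlogZ0 hlogZ 3
      _ ≤ (Real.log x) ^ 4 := pow_le_pow_right₀ (by linarith) (by norm_num)
  calc a / (Real.log x) ^ (A + 4) * (1 + Real.log Z) ^ 3
      ≤ a / (Real.log x) ^ (A + 4) * (Real.log x) ^ 4 :=
        mul_le_mul_of_nonneg_left h7 (by positivity)
    _ = a / (Real.log x) ^ A := by
        rw [pow_add]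
        field_simp

end Pool.Agent.Lib.DN
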