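import Pool.Agent.Lib.DN.Defs

/-!
# DN, module P5: `n^(it)` over an arithmetic progression, first order Euler-Maclaurin
-/

set_option autoImplicit false

open Finset

namespace Pool.Agent.Lib.DN

private noncomputable def hh (t x : ℝ) : ℂ := Complex.exp (Complex.I * (t * Real.log x))

private theorem norm_hh (t x : ℝ) : ‖hh t x‖ = 1 := by
  unfold hh
  rw [mul_comm, ← Complex.ofReal_mul, Complex.norm_exp_ofReal_mul_I]

private theorem one_add_ne (t : ℝ) : (1 + Complex.I * t : ℂ) ≠ 0 := by
  intro h
  have := congrArg Complex.re h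
  simp at this

private theorem GG_deriv (t : ℝ) {x : ℝ} (hx : 0 < x) : HasDerivAt (GG t) (hh t x) x := by
  have h1 : HasDerivAt (fun y : ℝ => ((Real.log y : ℝ) : ℂ)) ((x⁻¹ : ℝ) : ℂ) x :=
    (Real.hasDerivAt_log hx.ne').ofReal_comp
  have h2 : HasDerivAt (fun y : ℝ => Complex.I * (t * Real.log y)) (Complex.I * (t * ((x⁻¹ : ℝ) : ℂ))) x :=
    (h1.const_mul (t : ℂ)).const_mul Complex.I
  have h3 := h2.cexp
  have h4 : HasDerivAt (fun y : ℝ => (y : ℂ)) ((1 : ℝ) : ℂ) x := (hasDerivAt_id x).ofReal_comp
  have h5 := (h4.mul h3).div_const (1 + Complex.I * (t : ℂ))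
  have h6 : ((((1 : ℝ) : ℂ) * Complex.exp (Complex.I * (t * Real.log x)) +
      (x : ℂ) * (Complex.exp (Complex.I * (t * Real.log x)) * (Complex.I * (t * ((x⁻¹ : ℝ) : ℂ))))) /
      (1 + Complex.I * (t : ℂ))) = hh t x := by
    have hx' : (x : ℂ) ≠ 0 := by exact_mod_cast hx.ne'
    have h7 := one_add_ne t
    unfold hh
    rw [div_eq_iff h7]
    push_cast
    field_simp
  rw [h6] at h5
  exact h5

private theorem hh_sub (t x y : ℝ) : ‖hh t x - hh t y‖ ≤ |t| * |Real.log x - Real.log y| := by
  have h1 : hh t x - hh t y = hh t y * (Complex.exp (Complex.I * ((t * (Real.log x - Real.log y) : ℝ) : ℂ)) - 1) := by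
    unfold hh
    rw [mul_sub, ← Complex.exp_add, mul_one]
    congr 2
    push_cast
    ring
  rw [h1, norm_mul, norm_hh, one_mul]
  refine (Real.norm_exp_I_mul_ofReal_sub_one_le).trans ?_
  rw [Real.norm_eq_abs, abs_mul]

private theorem GG_sub (t : ℝ) {x y : ℝ} (hx : 0 < x) (hxy : x ≤ y) : ‖GG t y - GG t x‖ ≤ y - x := by
  have h := norm_image_sub_le_of_norm_deriv_le_segment' (f := GG t) (f' := hh t) (C := 1) (a := x) (b := y)
    (fun z hz => (GG_deriv t (hx.trans_le hz.1)).hasDerivWithinAt) (fun z _ => (norm_hh t z).le) y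
    (Set.right_mem_Icc.2 hxy)
  rwa [one_mul] at h

private theorem step (t : ℝ) {x y : ℝ} (hx : 0 < x) (hxy : x ≤ y) :
    ‖((y - x : ℝ) : ℂ) * hh t y - (GG t y - GG t x)‖ ≤ (y - x) * (|t| * (Real.log y - Real.log x)) := by
  have h := norm_image_sub_le_of_norm_deriv_le_segment' (f := fun z : ℝ => GG t z - (z : ℂ) * hh t y)
    (f' := fun z => hh t z - ((1 : ℝ) : ℂ) * hh t y) (C := |t| * (Real.log y - Real.log x)) (a := x) (b := y)
    (fun z hz => ((GG_deriv t (hx.trans_le hz.1)).sub
      (((hasDerivAt_id z).ofReal_comp).mul_const (hh t y))).hasDerivWithinAt)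
    (fun z hz => by
      have h1 := hh_sub t z y
      have h2 : |Real.log z - Real.log y| ≤ Real.log y - Real.log x := by
        have h3 : Real.log x ≤ Real.log z := Real.log_le_log hx hz.1
        have h4 : Real.log z ≤ Real.log y := Real.log_le_log (hx.trans_le hz.1) hz.2.le
        rw [abs_le]
        constructor <;> linarith
      rw [Complex.ofReal_one, one_mul]
      exact h1.trans (mul_le_mul_of_nonneg_left h2 (abs_nonneg t))) y
    (Set.right_mem_Icc.2 hxy)
  have h5 : ((y - x : ℝ) : ℂ) * hh t y - (GG t y - GG t x) =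
      -((fun z : ℝ => GG t z - (z : ℂ) * hh t y) y - (fun z : ℝ => GG t z - (z : ℂ) * hh t y) x) := by
    push_cast
    ring
  rw [h5, norm_neg, mul_comm (y - x)]
  exact h

/-- the largest number of the class which is at most `y` -/
private def lst (r s y : ℕ) : ℕ := y - (y + (r - s)) % r

private theorem tele (t : ℝ) (a r s : ℕ) (hr : 1 ≤ r) (hs : s < r) (ha : 2 * r ≤ a) : ∀ b : ℕ, a ≤ b →
    ‖(r : ℂ) * ∑ n ∈ (Ioc a b).filter (fun n => n % r = s), nt t n - (GG t (lst r s b) - GG t (lst r s a))‖ ≤
      r * (|t| * (Real.log (lst r s b) - Real.log (lst r s a))) := by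
  intro b hab
  induction b, hab using Nat.le_induction with
  | base => simp
  | succ b hab ih =>
    have hm : (b + 1 + (r - s)) % r < r := Nat.mod_lt _ (by omega)
    have hm0 : (b + (r - s)) % r < r := Nat.mod_lt _ (by omega)
    by_cases hc : (b + 1) % r = s
    · have e1 : lst r s (b + 1) = b + 1 := by
        unfold lst
        have : (b + 1 + (r - s)) % r = 0 := by
          rw [Nat.add_mod, hc]
          by_cases h0 : s = 0
          · subst h0
            simp
          · rw [Nat.mod_eq_of_lt (show r - s < r by omega), show s + (r - s) = r by omega, Nat.mod_self]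
        rw [this]
        rfl
      have e2 : lst r s b = b + 1 - r := by
        unfold lst
        have : (b + (r - s)) % r = r - 1 := by
          have h1 : (b + 1 + (r - s)) % r = 0 := by
            rw [Nat.add_mod, hc]
            by_cases h0 : s = 0
            · subst h0
              simp
            · rw [Nat.mod_eq_of_lt (show r - s < r by omega), show s + (r - s) = r by omega, Nat.mod_self]
          obtain ⟨k, hk⟩ := Nat.dvd_of_mod_eq_zero h1
          have hk1 : 1 ≤ k := by
            rcases Nat.eq_zero_or_pos k with h | h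
            · rw [h] at hk
              omega
            · exact h
          obtain ⟨k', rfl⟩ : ∃ k', k = k' + 1 := ⟨k - 1, by omega⟩
          rw [Nat.mul_add, mul_one] at hk
          have h2 : b + (r - s) = r - 1 + r * k' := by omega
          rw [h2, Nat.add_mul_mod_self_left, Nat.mod_eq_of_lt (by omega)]
        rw [this]
        omega
      have hins : (Ioc a (b + 1)).filter (fun n => n % r = s) =
          insert (b + 1) ((Ioc a b).filter (fun n => n % r = s)) := by
        ext n
        simp only [mem_filter, mem_Ioc, mem_insert]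
        constructor
        · rintro ⟨⟨h1, h2⟩, h3⟩
          rcases Nat.lt_or_ge n (b + 1) with h | h
          · exact Or.inr ⟨⟨h1, by omega⟩, h3⟩
          · exact Or.inl (by omega)
        · rintro (rfl | ⟨⟨h1, h2⟩, h3⟩)
          · exact ⟨⟨by omega, le_refl _⟩, hc⟩
          · exact ⟨⟨h1, by omega⟩, h3⟩
      rw [hins, sum_insert (by simp), e1]
      rw [e2] at ih
      have hpos : (0 : ℝ) < ((b + 1 - r : ℕ) : ℝ) := by
        exact_mod_cast (show 0 < b + 1 - r by omega)
      have hle : ((b + 1 - r : ℕ) : ℝ) ≤ ((b + 1 : ℕ) : ℝ) := by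
        exact_mod_cast (show b + 1 - r ≤ b + 1 by omega)
      have hst := step t hpos hle
      have hr1 : ((b + 1 : ℕ) : ℝ) - ((b + 1 - r : ℕ) : ℝ) = r := by
        rw [Nat.cast_sub (by omega)]
        ring
      rw [hr1] at hst
      have hhn : hh t ((b + 1 : ℕ) : ℝ) = nt t (b + 1) := rfl
      rw [hhn, Complex.ofReal_natCast] at hst
      refine le_trans (le_of_eq ?_) ((norm_add_le _ _).trans ((add_le_add hst ih).trans (le_of_eq ?_)))
      · congr 1
        ring
      · ring
    · have e1 : lst r s (b + 1) = lst r s b := by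
        unfold lst
        have h1 : (b + 1 + (r - s)) % r ≠ 0 := by
          intro h
          apply hc
          obtain ⟨k, hk⟩ := Nat.dvd_of_mod_eq_zero h
          have hk1 : 1 ≤ k := by
            rcases Nat.eq_zero_or_pos k with h | h
            · rw [h] at hk
              omega
            · exact h
          obtain ⟨k', rfl⟩ : ∃ k', k = k' + 1 := ⟨k - 1, by omega⟩
          rw [Nat.mul_add, mul_one] at hk
          have h2 : b + 1 = s + r * k' := by omega
          rw [h2, Nat.add_mul_mod_self_left, Nat.mod_eq_of_lt hs]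
        have h2 : (b + 1 + (r - s)) % r = (b + (r - s)) % r + 1 := by
          have h3 : b + 1 + (r - s) = (b + (r - s)) + 1 := by omega
          rw [h3] at h1 ⊢
          have h4 : (b + (r - s)) + 1 = ((b + (r - s)) % r + 1) + r * ((b + (r - s)) / r) := by
            have h5 := Nat.div_add_mod (b + (r - s)) r
            omega
          rw [h4, Nat.add_mul_mod_self_left] at h1
          rcases Nat.lt_or_ge ((b + (r - s)) % r + 1) r with h6 | h6
          · rw [h4, Nat.add_mul_mod_self_left, Nat.mod_eq_of_lt h6]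
          · exfalso
            apply h1
            rw [show (b + (r - s)) % r + 1 = r by omega, Nat.mod_self]
        rw [h2]
        omega
      have hsame : (Ioc a (b + 1)).filter (fun n => n % r = s) = (Ioc a b).filter (fun n => n % r = s) := by
        ext n
        simp only [mem_filter, mem_Ioc]
        constructor
        · rintro ⟨⟨h1, h2⟩, h3⟩
          refine ⟨⟨h1, ?_⟩, h3⟩
          rcases Nat.lt_or_ge n (b + 1) with h | h
          · omega
          · exact absurd (show (b + 1) % r = s by rw [← h3]; congr 1; omega) hc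
        · rintro ⟨⟨h1, h2⟩, h3⟩
          exact ⟨⟨h1, by omega⟩, h3⟩
      rw [hsame, e1]
      exact ih

/-- module P5: progressions, small `t` -/
theorem prog_small (t : ℝ) (a b r s : ℕ) (hr : 1 ≤ r) (hs : s < r) (ha : 2 * r ≤ a) (hab : a ≤ b) (hb : b ≤ 3 * a) :
    ‖∑ n ∈ (Ioc a b).filter (fun n => n % r = s), nt t n - (GG t b - GG t a) / r‖ ≤ 4 * (1 + |t|) := by
  have h := tele t a r s hr hs ha b hab
  have hrR : (0 : ℝ) < (r : ℝ) := by exact_mod_cast hr
  have hma : (a + (r - s)) % r < r := Nat.mod_lt _ (by omega)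
  have hmb : (b + (r - s)) % r < r := Nat.mod_lt _ (by omega)
  have la1 : lst r s a ≤ a := Nat.sub_le _ _
  have lb1 : lst r s b ≤ b := Nat.sub_le _ _
  have la2 : a ≤ lst r s a + r := by
    unfold lst
    omega
  have lb2 : b ≤ lst r s b + r := by
    unfold lst
    omega
  have la3 : 0 < lst r s a := by omega
  have lb3 : 0 < lst r s b := by omega
  have la1' : ((lst r s a : ℕ) : ℝ) ≤ a := by exact_mod_cast la1
  have lb1' : ((lst r s b : ℕ) : ℝ) ≤ b := by exact_mod_cast lb1
  have la2' : (a : ℝ) ≤ (lst r s a : ℕ) + r := by exact_mod_cast la2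
  have lb2' : (b : ℝ) ≤ (lst r s b : ℕ) + r := by exact_mod_cast lb2
  have la3' : (0 : ℝ) < ((lst r s a : ℕ) : ℝ) := by exact_mod_cast la3
  have lb3' : (0 : ℝ) < ((lst r s b : ℕ) : ℝ) := by exact_mod_cast lb3
  have hGa := GG_sub t la3' la1'
  have hGb := GG_sub t lb3' lb1'
  have haR : (2 : ℝ) * r ≤ a := by exact_mod_cast ha
  have hbR : (b : ℝ) ≤ 3 * a := by exact_mod_cast hb
  have hlog : Real.log (lst r s b) - Real.log (lst r s a) ≤ 2 := by
    have h1 : (lst r s b : ℝ) ≤ Real.exp 2 * (lst r s a : ℝ) := by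
      have h2 : (6 : ℝ) ≤ Real.exp 2 := by
        have h3 : (1 + 1 + 1 / 2 : ℝ) ≤ Real.exp 1 := by
          have := Real.exp_one_gt_d9
          linarith
        have h4 : Real.exp 2 = Real.exp 1 * Real.exp 1 := by
          rw [← Real.exp_add]
          norm_num
        rw [h4]
        nlinarith
      have h5 : (a : ℝ) ≤ 2 * (lst r s a : ℕ) := by linarith
      have h6 : (6 : ℝ) * (lst r s a : ℕ) ≤ Real.exp 2 * (lst r s a : ℕ) := mul_le_mul_of_nonneg_right h2 la3'.le
      linarith
    have h2 := Real.log_le_log lb3' h1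
    rw [Real.log_mul (Real.exp_pos 2).ne' la3'.ne', Real.log_exp] at h2
    linarith
  have h7 : ‖(r : ℂ) * ∑ n ∈ (Ioc a b).filter (fun n => n % r = s), nt t n - (GG t b - GG t a)‖ ≤
      r * (|t| * 2) + r + r := by
    have h8 : (r : ℂ) * ∑ n ∈ (Ioc a b).filter (fun n => n % r = s), nt t n - (GG t b - GG t a) =
        ((r : ℂ) * ∑ n ∈ (Ioc a b).filter (fun n => n % r = s), nt t n - (GG t (lst r s b) - GG t (lst r s a))) +
        -(GG t b - GG t (lst r s b)) + (GG t a - GG t (lst r s a)) := by ring
    rw [h8]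
    refine (norm_add_le _ _).trans (add_le_add ((norm_add_le _ _).trans (add_le_add (h.trans ?_) ?_)) ?_)
    · exact mul_le_mul_of_nonneg_left (mul_le_mul_of_nonneg_left hlog (abs_nonneg t)) hrR.le
    · rw [norm_neg]
      linarith
    · linarith
  have h9 : ∑ n ∈ (Ioc a b).filter (fun n => n % r = s), nt t n - (GG t b - GG t a) / r =
      ((r : ℂ) * ∑ n ∈ (Ioc a b).filter (fun n => n % r = s), nt t n - (GG t b - GG t a)) / r := by
    have hrC : (r : ℂ) ≠ 0 := by exact_mod_cast hrR.ne'
    field_simp
  rw [h9, norm_div, Complex.norm_natCast, div_le_iff₀ hrR]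
  refine h7.trans ?_
  have h10 : 0 ≤ |t| := abs_nonneg t
  nlinarith [mul_nonneg h10 hrR.le]

end Pool.Agent.Lib.DN
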