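import Pool.Agent.Lib.DN.Maj
import Pool.Agent.Lib.DN.ProgS

/-!
# Off-diagonal terms, small `t`
-/

set_option autoImplicit false

open Finset

namespace Pool.Agent.Lib.DN

private theorem offs_GG (t : ℝ) (ht : 1 ≤ |t|) (b : ℕ) : ‖GG t b‖ ≤ b / |t| := by
  unfold GG
  have h1 : ‖Complex.exp (Complex.I * (t * Real.log (b : ℝ)))‖ = 1 := by
    rw [mul_comm, ← Complex.ofReal_mul, Complex.norm_exp_ofReal_mul_I]
  have h2 : |t| ≤ ‖(1 : ℂ) + Complex.I * t‖ := by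
    have h3 := Complex.abs_im_le_norm ((1 : ℂ) + Complex.I * t)
    simpa using h3
  have h0 : 0 < |t| := by linarith
  rw [norm_div, norm_mul, h1, mul_one]
  have h4 : ‖(((b : ℕ) : ℝ) : ℂ)‖ = (b : ℝ) := by
    rw [Complex.norm_real, Real.norm_of_nonneg (Nat.cast_nonneg b)]
  rw [h4]
  exact div_le_div_of_nonneg_left (Nat.cast_nonneg b) h0 h2

theorem off_small (q : ℕ) (hq : 1 ≤ q) (Z : ℕ) (hZ : 1 ≤ Z) (l : ℕ → ℝ) (hl1 : ∀ d, |l d| ≤ 1)
    (hl : ∀ d, l d ≠ 0 → d.Coprime q) (M : ℝ)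
    (h0 : 0 ≤ ∑ d ∈ Icc 1 Z, ∑ e ∈ Icc 1 Z, l d * l e / (Nat.lcm d e : ℝ))
    (hM : ∑ d ∈ Icc 1 Z, ∑ e ∈ Icc 1 Z, l d * l e / (Nat.lcm d e : ℝ) ≤ M)
    (t : ℝ) (ht : 1 ≤ |t|) (a b : ℕ) (ha : 2 * q * Z ^ 2 ≤ a) (hab : a ≤ b) (hb : b ≤ 2 * a) (ψ : ℕ → ℂ)
    (hψ : ∀ n, ψ n = ψ (n % q)) (hψ1 : ∀ n, ‖ψ n‖ ≤ 1) :
    ‖∑ n ∈ Ioc a b, (maj Z l n : ℂ) * (ψ n * nt t n)‖ ≤ 3 * a * M / |t| + 8 * q * (Z : ℝ) ^ 2 * |t| := by
  have ht0 : 0 < |t| := by linarith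
  have hq0 : (0 : ℝ) < q := by exact_mod_cast hq
  obtain ⟨cls, hcls, hexp⟩ := maj_expand q hq Z l hl
  rw [hexp ψ (nt t) hψ a b]
  have hlc : ∀ d ∈ Icc 1 Z, ∀ e ∈ Icc 1 Z, 0 < Nat.lcm d e ∧ Nat.lcm d e ≤ Z ^ 2 := by
    intro d hd e he
    rw [mem_Icc] at hd he
    have h1 : 0 < Nat.lcm d e := Nat.lcm_pos (by omega) (by omega)
    have h2 : Nat.lcm d e ≤ d * e :=
      Nat.le_of_dvd (Nat.mul_pos (by omega) (by omega)) (Nat.lcm_dvd_mul d e)
    have h3 : d * e ≤ Z * Z := Nat.mul_le_mul hd.2 he.2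
    refine ⟨h1, ?_⟩
    rw [sq]
    omega
  -- the error of one progression
  set D : ℂ := GG t b - GG t a with hD
  have hDn : ‖D‖ ≤ 3 * a / |t| := by
    have h1 := norm_sub_le (GG t b) (GG t a)
    have h2 := offs_GG t ht b
    have h3 := offs_GG t ht a
    have h4 : (b : ℝ) ≤ 2 * a := by exact_mod_cast hb
    calc ‖D‖ ≤ b / |t| + a / |t| := by rw [hD]; linarith
      _ = (b + a) / |t| := by rw [add_div]
      _ ≤ 3 * a / |t| := by
          apply div_le_div_of_nonneg_right _ ht0.le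
          linarith
  have herr : ∀ d ∈ Icc 1 Z, ∀ e ∈ Icc 1 Z, ∀ s ∈ range q,
      ‖∑ n ∈ (Ioc a b).filter (fun n => n % (q * Nat.lcm d e) = cls d e s), nt t n -
        D / ((q * Nat.lcm d e : ℕ) : ℂ)‖ ≤ 8 * |t| := by
    intro d hd e he s hs
    obtain ⟨h1, h2⟩ := hlc d hd e he
    have hd' := mem_Icc.mp hd
    have he' := mem_Icc.mp he
    have hr1 : 1 ≤ q * Nat.lcm d e := Nat.mul_pos (by omega) h1
    have h3 : q * Nat.lcm d e ≤ q * Z ^ 2 := Nat.mul_le_mul_left q h2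
    have h4 := prog_small t a b (q * Nat.lcm d e) (cls d e s) hr1
      (hcls d e s (by omega) (by omega)) (by
        have : 2 * q * Z ^ 2 = 2 * (q * Z ^ 2) := by ring
        omega) hab (by omega)
    refine h4.trans ?_
    linarith
  -- the sum over the classes
  have hcl : ∀ d ∈ Icc 1 Z, ∀ e ∈ Icc 1 Z,
      ‖((l d * l e : ℝ) : ℂ) * ∑ s ∈ range q, ψ s *
        ∑ n ∈ (Ioc a b).filter (fun n => n % (q * Nat.lcm d e) = cls d e s), nt t n -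
        ((l d * l e / (Nat.lcm d e : ℝ) : ℝ) : ℂ) * ((∑ s ∈ range q, ψ s) / q * D)‖ ≤
      8 * q * |t| := by
    intro d hd e he
    obtain ⟨h1, h2⟩ := hlc d hd e he
    have hlc0 : ((Nat.lcm d e : ℕ) : ℂ) ≠ 0 := by exact_mod_cast h1.ne'
    have hqc : (q : ℂ) ≠ 0 := by exact_mod_cast (show q ≠ 0 by omega)
    have h3 : ((l d * l e : ℝ) : ℂ) * ∑ s ∈ range q, ψ s *
        ∑ n ∈ (Ioc a b).filter (fun n => n % (q * Nat.lcm d e) = cls d e s), nt t n -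
        ((l d * l e / (Nat.lcm d e : ℝ) : ℝ) : ℂ) * ((∑ s ∈ range q, ψ s) / q * D) =
        ((l d * l e : ℝ) : ℂ) * ∑ s ∈ range q, ψ s *
        (∑ n ∈ (Ioc a b).filter (fun n => n % (q * Nat.lcm d e) = cls d e s), nt t n -
          D / ((q * Nat.lcm d e : ℕ) : ℂ)) := by
      simp only [mul_sub, Finset.sum_sub_distrib, ← Finset.sum_mul]
      push_cast
      field_simp
    rw [h3, norm_mul, Complex.norm_real, Real.norm_eq_abs]
    have h4 : |l d * l e| ≤ 1 := by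
      rw [abs_mul]
      exact mul_le_one₀ (hl1 d) (abs_nonneg _) (hl1 e)
    have h5 : ‖∑ s ∈ range q, ψ s *
        (∑ n ∈ (Ioc a b).filter (fun n => n % (q * Nat.lcm d e) = cls d e s), nt t n -
          D / ((q * Nat.lcm d e : ℕ) : ℂ))‖ ≤ 8 * q * |t| := by
      refine (norm_sum_le _ _).trans ?_
      calc _ ≤ ∑ s ∈ range q, 8 * |t| := by
            refine Finset.sum_le_sum fun s hs => ?_
            rw [norm_mul]
            calc _ ≤ 1 * (8 * |t|) :=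
                  mul_le_mul (hψ1 s) (herr d hd e he s hs) (norm_nonneg _) zero_le_one
              _ = _ := one_mul _
        _ = _ := by
            rw [Finset.sum_const, card_range, nsmul_eq_mul]
            ring
    calc _ ≤ 1 * (8 * q * |t|) := mul_le_mul h4 h5 (norm_nonneg _) zero_le_one
      _ = _ := one_mul _
  -- the main term
  set Q : ℝ := ∑ d ∈ Icc 1 Z, ∑ e ∈ Icc 1 Z, l d * l e / (Nat.lcm d e : ℝ) with hQ
  have hmain : ∑ d ∈ Icc 1 Z, ∑ e ∈ Icc 1 Z,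
      ((l d * l e / (Nat.lcm d e : ℝ) : ℝ) : ℂ) * ((∑ s ∈ range q, ψ s) / q * D) =
      (Q : ℂ) * ((∑ s ∈ range q, ψ s) / q * D) := by
    rw [hQ]
    push_cast
    simp only [Finset.sum_mul]
  have hmn : ‖(Q : ℂ) * ((∑ s ∈ range q, ψ s) / q * D)‖ ≤ 3 * a * M / |t| := by
    rw [norm_mul, Complex.norm_real, Real.norm_of_nonneg h0, norm_mul, norm_div,
      Complex.norm_natCast]
    have h1 : ‖∑ s ∈ range q, ψ s‖ ≤ q := by
      refine (norm_sum_le _ _).trans ?_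
      calc _ ≤ ∑ s ∈ range q, (1 : ℝ) := Finset.sum_le_sum fun s _ => hψ1 s
        _ = q := by simp
    have h2 : ‖∑ s ∈ range q, ψ s‖ / q ≤ 1 := by
      rw [div_le_one hq0]; exact h1
    have hM0 : 0 ≤ M := h0.trans hM
    calc Q * (‖∑ s ∈ range q, ψ s‖ / q * ‖D‖) ≤ M * (1 * (3 * a / |t|)) := by
          apply mul_le_mul hM _ (by positivity) hM0
          exact mul_le_mul h2 hDn (norm_nonneg _) zero_le_one
      _ = _ := by ring
  have hdiff : ‖∑ d ∈ Icc 1 Z, ∑ e ∈ Icc 1 Z, ((l d * l e : ℝ) : ℂ) * ∑ s ∈ range q, ψ s *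
        ∑ n ∈ (Ioc a b).filter (fun n => n % (q * Nat.lcm d e) = cls d e s), nt t n -
      ∑ d ∈ Icc 1 Z, ∑ e ∈ Icc 1 Z,
      ((l d * l e / (Nat.lcm d e : ℝ) : ℝ) : ℂ) * ((∑ s ∈ range q, ψ s) / q * D)‖ ≤
      8 * q * (Z : ℝ) ^ 2 * |t| := by
    rw [← Finset.sum_sub_distrib]
    refine (norm_sum_le _ _).trans ?_
    calc _ ≤ ∑ d ∈ Icc 1 Z, ∑ e ∈ Icc 1 Z, 8 * q * |t| := by
          refine Finset.sum_le_sum fun d hd => ?_
          rw [← Finset.sum_sub_distrib]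
          exact (norm_sum_le _ _).trans (Finset.sum_le_sum fun e he => hcl d hd e he)
      _ = _ := by
          simp only [Finset.sum_const, Nat.card_Icc, nsmul_eq_mul]
          rw [Nat.add_sub_cancel]
          ring
  rw [hmain] at hdiff
  calc _ = ‖(∑ d ∈ Icc 1 Z, ∑ e ∈ Icc 1 Z, ((l d * l e : ℝ) : ℂ) * ∑ s ∈ range q, ψ s *
        ∑ n ∈ (Ioc a b).filter (fun n => n % (q * Nat.lcm d e) = cls d e s), nt t n -
        (Q : ℂ) * ((∑ s ∈ range q, ψ s) / q * D)) +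
        (Q : ℂ) * ((∑ s ∈ range q, ψ s) / q * D)‖ := by rw [sub_add_cancel]
    _ ≤ _ := norm_add_le _ _
    _ ≤ _ := by linarith

end Pool.Agent.Lib.DN
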