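import Pool.Agent.Lib.DN.Defs
import Pool.Agent.Lib.SW.SWFinal

/-!
# Primes in short windows
-/

set_option autoImplicit false

open Finset

namespace Pool.Agent.Lib.DN

open Pool.Agent.Lib.SW

/-- Chebyshev's `θ` with the error of the prime number theorem -/
theorem pnt_theta : ∃ C : ℝ, 0 < C ∧ ∀ x : ℝ, 2 ≤ x →
    |∑ n ∈ (Icc 1 ⌊x⌋₊).filter Nat.Prime, Real.log n - x| ≤ C * x / (Real.log x) ^ 2 := by
  obtain ⟨C, hC, h⟩ := theta_ap 2 1 one_pos
  refine ⟨C, hC, fun x hx => ?_⟩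
  have h1 := h 1 0 le_rfl (Nat.coprime_one_right 0) x hx
  have e1 : (Icc 1 ⌊x⌋₊).filter (fun n => n.Prime ∧ n ≡ 0 [MOD 1]) = (Icc 1 ⌊x⌋₊).filter Nat.Prime := by
    refine filter_congr fun n _ => ?_
    constructor
    · intro h; exact h.1
    · intro h; exact ⟨h, Nat.modEq_one⟩
  rw [e1] at h1
  simpa using h1

/-- module P12 (Pnt.lean): primes in short windows (from `SW.pnt`) -/
theorem win_card (H : ℕ) (hH : 1 ≤ H) : ∃ P0 : ℝ, 3 ≤ P0 ∧ ∀ P : ℝ, P0 ≤ P →
    P / (2 * H * Real.log P) ≤ ((win P H).card : ℝ) := by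
  obtain ⟨C, hC, hθ⟩ := pnt_theta
  have hHr : (1 : ℝ) ≤ H := by exact_mod_cast hH
  have hH0 : (0 : ℝ) < H := by linarith
  -- the threshold
  set L0 : ℝ := 2 + 16 * C * H with hL0
  have hL0pos : 2 ≤ L0 := by
    have : 0 ≤ 16 * C * H := by positivity
    linarith
  refine ⟨max 3 (Real.exp L0), le_max_left _ _, fun P hP => ?_⟩
  have hP3 : 3 ≤ P := (le_max_left _ _).trans hP
  have hP0 : 0 < P := by linarith
  have hPL : L0 ≤ Real.log P := by
    rw [Real.le_log_iff_exp_le hP0]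
    exact (le_max_right _ _).trans hP
  set L := Real.log P with hL
  have hL2 : 2 ≤ L := hL0pos.trans hPL
  set y := P * Real.exp (1 / H) with hy
  have hinv : (0 : ℝ) < 1 / H := by positivity
  have hinv1 : (1 : ℝ) / H ≤ 1 := by
    rw [div_le_one hH0]
    exact hHr
  have hexp1 : 1 + 1 / H ≤ Real.exp (1 / (H : ℝ)) := by
    have := Real.add_one_le_exp (1 / (H : ℝ))
    linarith
  have hexp3 : Real.exp (1 / (H : ℝ)) ≤ 3 := by
    have h1 : Real.exp (1 / (H : ℝ)) ≤ Real.exp 1 := Real.exp_le_exp.mpr hinv1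
    have h2 := Real.exp_one_lt_d9
    linarith
  have hPy : P ≤ y := by
    rw [hy]
    nlinarith
  have hy2 : 2 ≤ y := by linarith
  have hlogy : Real.log y = L + 1 / H := by
    rw [hy, Real.log_mul hP0.ne' (Real.exp_pos _).ne', Real.log_exp]
  have hfl : ⌊P⌋₊ ≤ ⌊y⌋₊ := Nat.floor_le_floor hPy
  -- the difference of theta
  have hdiff : ∑ n ∈ (Icc 1 ⌊y⌋₊).filter Nat.Prime, Real.log n
      = ∑ n ∈ (Icc 1 ⌊P⌋₊).filter Nat.Prime, Real.log n + ∑ n ∈ win P H, Real.log n := by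
    rw [← sum_union]
    · refine sum_congr ?_ fun _ _ => rfl
      ext n
      simp only [win, mem_union, mem_filter, mem_Icc, mem_Ioc, ← hy]
      constructor
      · rintro ⟨⟨h1, h2⟩, h3⟩
        by_cases h4 : n ≤ ⌊P⌋₊
        · exact Or.inl ⟨⟨h1, h4⟩, h3⟩
        · exact Or.inr ⟨⟨by omega, h2⟩, h3⟩
      · rintro (⟨⟨h1, h2⟩, h3⟩ | ⟨⟨h1, h2⟩, h3⟩)
        · exact ⟨⟨h1, h2.trans hfl⟩, h3⟩
        · exact ⟨⟨by omega, h2⟩, h3⟩
    · rw [disjoint_left]
      intro n h1 h2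
      simp only [win, mem_filter, mem_Icc, mem_Ioc] at h1 h2
      omega
  have hbound : ∑ n ∈ win P H, Real.log n ≤ ((win P H).card : ℝ) * (L + 1 / H) := by
    rw [← nsmul_eq_mul]
    refine sum_le_card_nsmul _ _ _ fun n hn => ?_
    simp only [win, mem_filter, mem_Ioc, ← hy] at hn
    rw [← hlogy]
    have hn0 : 0 < n := by omega
    have hny : (n : ℝ) ≤ y := (Nat.le_floor_iff (by linarith)).mp hn.1.2
    exact Real.log_le_log (by exact_mod_cast hn0) hny
  have h1 := (abs_le.mp (hθ y hy2)).1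
  have h2 := (abs_le.mp (hθ P (by linarith))).2
  rw [hlogy] at h1
  rw [← hL] at h2
  have hL2' : (0 : ℝ) < L ^ 2 := by positivity
  have h3 : C * y / (L + 1 / H) ^ 2 ≤ C * (3 * P) / L ^ 2 := by
    apply div_le_div₀ (by positivity) _ hL2' _
    · refine mul_le_mul_of_nonneg_left ?_ hC.le
      rw [hy]
      nlinarith
    · apply pow_le_pow_left₀ (by linarith)
      linarith
  have h4 : P / H - 4 * C * P / L ^ 2 ≤ ((win P H).card : ℝ) * (L + 1 / H) := by
    have h5 : P / H ≤ y - P := by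
      rw [hy]
      have : P * (1 + 1 / H) ≤ P * Real.exp (1 / H) := mul_le_mul_of_nonneg_left hexp1 hP0.le
      have e : P / H = P * (1 + 1 / H) - P := by ring
      rw [e]
      linarith
    have e2 : 4 * C * P / L ^ 2 = C * (3 * P) / L ^ 2 + C * P / L ^ 2 := by ring
    rw [e2]
    linarith
  -- 4 C P / L^2 <= P / (4 H)
  have h6 : 4 * C * P / L ^ 2 ≤ P / (4 * H) := by
    rw [div_le_div_iff₀ hL2' (by positivity)]
    have h7 : 16 * C * H ≤ L ^ 2 := by
      have h8 : 16 * C * H ≤ L := by linarith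
      nlinarith
    calc 4 * C * P * (4 * H) = P * (16 * C * H) := by ring
      _ ≤ P * L ^ 2 := mul_le_mul_of_nonneg_left h7 hP0.le
  have h9 : 3 * P / (4 * H) ≤ ((win P H).card : ℝ) * (L + 1 / H) := by
    have e : 3 * P / (4 * H) = P / H - P / (4 * H) := by
      field_simp
      ring
    rw [e]
    linarith
  have hcard : (0 : ℝ) ≤ ((win P H).card : ℝ) := Nat.cast_nonneg _
  rw [div_le_iff₀ (by positivity)]
  have h10 : ((win P H).card : ℝ) * (L + 1 / H) ≤ ((win P H).card : ℝ) * (3 / 2 * L) := by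
    refine mul_le_mul_of_nonneg_left ?_ hcard
    linarith
  have h11 : 3 * P / (4 * H) ≤ ((win P H).card : ℝ) * (3 / 2 * L) := h9.trans h10
  rw [div_le_iff₀ (by positivity)] at h11
  nlinarith

end Pool.Agent.Lib.DN
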