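import Pool.Agent.Lib.DN.Maj

/-!
# The total mass of the majorant
-/

set_option autoImplicit false

open Finset

namespace Pool.Agent.Lib.DN

/-- number of multiples of `m` in `(a, b]` -/
private theorem tot_count (a b m : ℕ) (hab : a ≤ b) (hm : 1 ≤ m) :
    |(((Ioc a b).filter (fun n => m ∣ n)).card : ℝ) - ((b : ℝ) - a) / m| ≤ 1 := by
  have h1 : ((Ioc 0 b).filter (fun n => m ∣ n)).card =
      ((Ioc 0 a).filter (fun n => m ∣ n)).card + ((Ioc a b).filter (fun n => m ∣ n)).card := by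
    rw [← Finset.Ioc_union_Ioc_eq_Ioc (Nat.zero_le a) hab, Finset.filter_union,
      Finset.card_union_of_disjoint]
    rw [Finset.disjoint_left]
    intro x hx hx'
    simp only [mem_filter, mem_Ioc] at hx hx'
    omega
  rw [Nat.Ioc_filter_dvd_card_eq_div, Nat.Ioc_filter_dvd_card_eq_div] at h1
  have hm' : (0 : ℝ) < m := by exact_mod_cast hm
  have hc : (((Ioc a b).filter (fun n => m ∣ n)).card : ℝ) = ((b / m : ℕ) : ℝ) - ((a / m : ℕ) : ℝ) := by
    rw [h1]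
    push_cast
    ring
  have e : ∀ c : ℕ, ((c / m : ℕ) : ℝ) ≤ (c : ℝ) / m ∧ (c : ℝ) / m < ((c / m : ℕ) : ℝ) + 1 := by
    intro c
    constructor
    · exact Nat.cast_div_le
    · rw [div_lt_iff₀ hm']
      have := Nat.lt_mul_div_succ c hm
      have h2 : (c : ℝ) < (m : ℝ) * (((c / m : ℕ) : ℝ) + 1) := by exact_mod_cast this
      linarith
  rw [hc, sub_div, abs_le]
  have ha := e a
  have hb := e b
  constructor <;> linarith [ha.1, ha.2, hb.1, hb.2]

/-- the total mass -/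
theorem maj_total (q : ℕ) (hq : 1 ≤ q) (Z : ℕ) (hZ : 1 ≤ Z) (l : ℕ → ℝ) (hl1 : ∀ d, |l d| ≤ 1) (M : ℝ)
    (hM : ∑ d ∈ Icc 1 Z, ∑ e ∈ Icc 1 Z, l d * l e / (Nat.lcm d e : ℝ) ≤ M) (a b : ℕ) (hab : a ≤ b) :
    ∑ n ∈ Ioc a b, maj Z l n ≤ (b - a : ℝ) * M + (Z : ℝ) ^ 2 := by
  have h1 : ∑ n ∈ Ioc a b, maj Z l n =
      ∑ d ∈ Icc 1 Z, ∑ e ∈ Icc 1 Z, l d * l e *
        (((Ioc a b).filter (fun n => Nat.lcm d e ∣ n)).card : ℝ) := by
    simp_rw [maj_eq]
    rw [Finset.sum_comm]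
    refine Finset.sum_congr rfl fun d _ => ?_
    rw [Finset.sum_comm]
    refine Finset.sum_congr rfl fun e _ => ?_
    rw [← Finset.mul_sum, Finset.sum_boole]
  rw [h1]
  have h2 : ∀ d ∈ Icc 1 Z, ∀ e ∈ Icc 1 Z, l d * l e *
      (((Ioc a b).filter (fun n => Nat.lcm d e ∣ n)).card : ℝ) ≤
      (b - a : ℝ) * (l d * l e / (Nat.lcm d e : ℝ)) + 1 := by
    intro d hd e he
    rw [mem_Icc] at hd he
    have hm : 1 ≤ Nat.lcm d e := Nat.lcm_pos (by omega) (by omega)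
    have h3 := tot_count a b (Nat.lcm d e) hab hm
    have h4 : |l d * l e| ≤ 1 := by
      rw [abs_mul]
      exact mul_le_one₀ (hl1 d) (abs_nonneg _) (hl1 e)
    have h5 : l d * l e * (((Ioc a b).filter (fun n => Nat.lcm d e ∣ n)).card : ℝ) -
        (b - a : ℝ) * (l d * l e / (Nat.lcm d e : ℝ)) =
        l d * l e * ((((Ioc a b).filter (fun n => Nat.lcm d e ∣ n)).card : ℝ) -
          ((b : ℝ) - a) / (Nat.lcm d e : ℕ)) := by
      ring
    have h6 : l d * l e * ((((Ioc a b).filter (fun n => Nat.lcm d e ∣ n)).card : ℝ) -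
          ((b : ℝ) - a) / (Nat.lcm d e : ℕ)) ≤ 1 := by
      refine (le_abs_self _).trans ?_
      rw [abs_mul]
      exact mul_le_one₀ h4 (abs_nonneg _) h3
    linarith
  calc ∑ d ∈ Icc 1 Z, ∑ e ∈ Icc 1 Z, l d * l e *
        (((Ioc a b).filter (fun n => Nat.lcm d e ∣ n)).card : ℝ)
      ≤ ∑ d ∈ Icc 1 Z, ∑ e ∈ Icc 1 Z, ((b - a : ℝ) * (l d * l e / (Nat.lcm d e : ℝ)) + 1) :=
        Finset.sum_le_sum fun d hd => Finset.sum_le_sum fun e he => h2 d hd e he
    _ = (b - a : ℝ) * ∑ d ∈ Icc 1 Z, ∑ e ∈ Icc 1 Z, l d * l e / (Nat.lcm d e : ℝ) +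
        (Z : ℝ) ^ 2 := by
        simp only [Finset.sum_add_distrib, Finset.mul_sum, Finset.sum_const, Nat.card_Icc,
          nsmul_eq_mul, mul_one]
        rw [Nat.add_sub_cancel]
        ring
    _ ≤ _ := by
        have h7 : (0 : ℝ) ≤ (b : ℝ) - a := by
          have : (a : ℝ) ≤ b := by exact_mod_cast hab
          linarith
        have := mul_le_mul_of_nonneg_left hM h7
        linarith

end Pool.Agent.Lib.DN
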