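import Pool.Agent.Lib.DN.Defs
import Pool.Agent.Lib.Sieve.Selberg
import Pool.Agent.Lib.SW.PM.PM5a

/-!
# Selberg's weights
-/

set_option autoImplicit false

open Finset

namespace Pool.Agent.Lib.DN

open Pool.Agent.Lib.Sieve Pool.Agent.Lib.SW

/-- the sum over `Icc 1 Z` is the main sum of the sieve -/
theorem wts_main (q Z : ℕ) (w : ℕ → ℝ) (h1 : ∀ d, Z < d → w d = 0)
    (h2 : ∀ d, ¬ d ∣ (btSieve q 0 1 Z).prodPrimes → w d = 0) :
    ∑ d ∈ Icc 1 Z, ∑ e ∈ Icc 1 Z, w d * w e / (Nat.lcm d e : ℝ) =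
      (btSieve q 0 1 Z).mainSum (BoundingSieve.lambdaSquared w) := by
  classical
  rw [BoundingSieve.mainSum_lambdaSquared_eq_sum_sum_mul]
  set s := btSieve q 0 1 Z with hs
  have hPsq : Squarefree s.prodPrimes := s.prodPrimes_squarefree
  have hP0 : s.prodPrimes ≠ 0 := hPsq.ne_zero
  -- replace both ranges by the common subset
  have hres : ∀ f : ℕ → ℝ, (∀ d, w d = 0 → f d = 0) →
      ∑ d ∈ Icc 1 Z, f d = ∑ d ∈ s.prodPrimes.divisors, f d := by
    intro f hf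
    have e1 : ∑ d ∈ Icc 1 Z, f d = ∑ d ∈ (Icc 1 Z).filter (fun d => d ∣ s.prodPrimes), f d := by
      rw [sum_filter]
      refine sum_congr rfl fun d _ => ?_
      by_cases hd : d ∣ s.prodPrimes
      · rw [if_pos hd]
      · rw [if_neg hd, hf d (h2 d hd)]
    have e2 : ∑ d ∈ s.prodPrimes.divisors, f d =
        ∑ d ∈ s.prodPrimes.divisors.filter (fun d => d ≤ Z), f d := by
      rw [sum_filter]
      refine sum_congr rfl fun d _ => ?_
      by_cases hd : d ≤ Z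
      · rw [if_pos hd]
      · rw [if_neg hd, hf d (h1 d (by omega))]
    rw [e1, e2]
    refine sum_congr ?_ fun _ _ => rfl
    ext d
    simp only [mem_filter, mem_Icc, Nat.mem_divisors]
    constructor
    · rintro ⟨⟨_, h4⟩, h5⟩
      exact ⟨⟨h5, hP0⟩, h4⟩
    · rintro ⟨⟨h5, _⟩, h4⟩
      exact ⟨⟨Nat.pos_of_ne_zero (ne_zero_of_dvd_ne_zero hP0 h5), h4⟩, h5⟩
  rw [hres (fun d => ∑ e ∈ Icc 1 Z, w d * w e / (Nat.lcm d e : ℝ))
    (fun d hd => sum_eq_zero fun e _ => by rw [hd]; simp)]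
  refine sum_congr rfl fun d hd => ?_
  rw [hres (fun e => w d * w e / (Nat.lcm d e : ℝ)) (fun e he => by rw [he]; simp)]
  refine sum_congr rfl fun e he => ?_
  have hdP := Nat.dvd_of_mem_divisors hd
  have heP := Nat.dvd_of_mem_divisors he
  have hd0 : d ≠ 0 := ne_zero_of_dvd_ne_zero hP0 hdP
  have he0 : e ≠ 0 := ne_zero_of_dvd_ne_zero hP0 heP
  have hdsq := hPsq.squarefree_of_dvd hdP
  have hesq := hPsq.squarefree_of_dvd heP
  have hgsq := hdsq.squarefree_of_dvd (Nat.gcd_dvd_left d e)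
  change _ = btNu d * w d * btNu e * w e * (btNu (d.gcd e))⁻¹
  rw [btNu_squarefree hdsq, btNu_squarefree hesq, btNu_squarefree hgsq]
  have hg : Nat.gcd d e ≠ 0 := fun h => hd0 (Nat.eq_zero_of_gcd_eq_zero_left h)
  have hl : Nat.lcm d e ≠ 0 := Nat.lcm_ne_zero hd0 he0
  have h3 : (Nat.gcd d e : ℝ) * (Nat.lcm d e : ℝ) = d * e := by
    exact_mod_cast Nat.gcd_mul_lcm d e
  have hd0' : (d : ℝ) ≠ 0 := by exact_mod_cast hd0
  have he0' : (e : ℝ) ≠ 0 := by exact_mod_cast he0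
  have hg0' : (Nat.gcd d e : ℝ) ≠ 0 := by exact_mod_cast hg
  have hl0' : (Nat.lcm d e : ℝ) ≠ 0 := by exact_mod_cast hl
  rw [div_eq_iff hl0']
  have : 1 / (d : ℝ) * w d * (1 / (e : ℝ)) * w e * (1 / (Nat.gcd d e : ℝ))⁻¹ * (Nat.lcm d e : ℝ)
      = w d * w e * (((Nat.gcd d e : ℝ) * (Nat.lcm d e : ℝ)) / (d * e)) := by
    field_simp
  rw [this, h3, div_self (mul_ne_zero hd0' he0'), mul_one]

/-- module P6 (Wts.lean): Selberg's weights -/
theorem sel_weights (q : ℕ) (hq : 1 ≤ q) : ∃ C : ℝ, 0 < C ∧ ∀ Z : ℕ, 2 ≤ Z → ∃ l : ℕ → ℝ, l 1 = 1 ∧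
    (∀ d, |l d| ≤ 1) ∧ (∀ d, Z < d → l d = 0) ∧ (∀ d, l d ≠ 0 → d.Coprime q) ∧
    0 ≤ ∑ d ∈ Icc 1 Z, ∑ e ∈ Icc 1 Z, l d * l e / (Nat.lcm d e : ℝ) ∧
    ∑ d ∈ Icc 1 Z, ∑ e ∈ Icc 1 Z, l d * l e / (Nat.lcm d e : ℝ) ≤ C / Real.log Z := by
  have hφ : (0 : ℝ) < Nat.totient q := by exact_mod_cast Nat.totient_pos.mpr hq
  have hq0 : (0 : ℝ) < q := by exact_mod_cast hq
  refine ⟨(q : ℝ) / (Nat.totient q : ℝ), by positivity, fun Z hZ => ?_⟩
  have hZ1 : 1 ≤ Z := by omega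
  set s := btSieve q 0 1 Z with hs
  have hw2 : ∀ d, ¬ d ∣ s.prodPrimes → selW s Z d = 0 := by
    intro d hd
    unfold selW
    rw [if_neg hd]
  have hw1 : ∀ d, Z < d → selW s Z d = 0 := fun d hd => selW_eq_zero s Z hd
  have hmain := wts_main q Z (selW s Z) hw1 hw2
  rw [← hs, mainSum_selW s Z hZ1] at hmain
  refine ⟨selW s Z, selW_one s Z hZ1, abs_selW_le s Z hZ1, hw1, ?_, ?_, ?_⟩
  · intro d hd
    by_contra hc
    exact hd (hw2 d fun h => hc (bt_coprime h))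
  · rw [hmain]
    exact (inv_pos.mpr (selS_pos s Z hZ1)).le
  · rw [hmain]
    have hS := selS_pos s Z hZ1
    have hZr : (2 : ℝ) ≤ Z := by exact_mod_cast hZ
    have hlog : 0 < Real.log (Z : ℝ) := Real.log_pos (by linarith)
    have hharm : Real.log ((Z : ℝ) + 1) ≤ ∑ w ∈ Finset.Icc 1 Z, (1 : ℝ) / w := by
      have h := log_add_one_le_harmonic Z
      rw [harmonic_eq_sum_Icc] at h
      push_cast at h
      simpa [one_div] using h
    have hmono : Real.log (Z : ℝ) ≤ Real.log ((Z : ℝ) + 1) :=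
      Real.log_le_log (by linarith) (by linarith)
    have hSge := bt_selS_ge q 0 1 Z
    rw [← hs] at hSge
    have hcop := harmonic_le_coprime q Z (by omega)
    have hphi : 0 ≤ (q : ℝ) / (Nat.totient q : ℝ) := by positivity
    have h3 : Real.log (Z : ℝ) ≤ ((q : ℝ) / (Nat.totient q : ℝ)) * selS s Z :=
      hmono.trans (hharm.trans (hcop.trans (mul_le_mul_of_nonneg_left hSge hphi)))
    rw [inv_eq_one_div, div_le_div_iff₀ hS hlog, one_mul]
    exact h3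

end Pool.Agent.Lib.DN
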