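import Pool.Agent.Lib.DN.Core
import Pool.Agent.Lib.DN.Wts
import Pool.Agent.Lib.DN.OffL
import Pool.Agent.Lib.DN.OffS
import Pool.Agent.Lib.DN.Tot
import Pool.Agent.Lib.DN.Pnt

/-!
# Module P13: `χ(p) p^(it)` has bounded density in every short window
-/

set_option autoImplicit false

open Finset

namespace Pool.Agent.Lib.DN

theorem dens_growth (K : ℝ) (k : ℕ) : ∀ᶠ P : ℝ in Filter.atTop, K * (Real.log P) ^ k * P ^ (1 / 2 : ℝ) ≤ P := by
  have h1 := (isLittleO_log_rpow_atTop (show (0 : ℝ) < 1 / (2 * (k + 1)) by positivity)).bound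
    (show (0 : ℝ) < 1 by norm_num)
  have h2 : Filter.Tendsto (fun P : ℝ => P ^ ((1 : ℝ) / (2 * (k + 1)))) Filter.atTop Filter.atTop :=
    tendsto_rpow_atTop (by positivity)
  filter_upwards [h1, h2.eventually_ge_atTop |K|, Filter.eventually_ge_atTop (1 : ℝ)] with P h3 h4 h5
  have hlog : 0 ≤ Real.log P := Real.log_nonneg h5
  have hP0 : 0 < P := by linarith
  rw [one_mul, Real.norm_of_nonneg hlog, Real.norm_of_nonneg (Real.rpow_nonneg hP0.le _)] at h3
  set r : ℝ := P ^ ((1 : ℝ) / (2 * (k + 1))) with hr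
  have hr0 : 0 ≤ r := Real.rpow_nonneg hP0.le _
  have h6 : r ^ (k + 1) = P ^ (1 / 2 : ℝ) := by
    rw [hr, ← Real.rpow_natCast, ← Real.rpow_mul hP0.le]
    congr 1
    push_cast
    field_simp
  calc K * (Real.log P) ^ k * P ^ (1 / 2 : ℝ) ≤ |K| * (Real.log P) ^ k * P ^ (1 / 2 : ℝ) := by
        refine mul_le_mul_of_nonneg_right ?_ (Real.rpow_nonneg hP0.le _)
        exact mul_le_mul_of_nonneg_right (le_abs_self K) (pow_nonneg hlog _)
    _ ≤ r * r ^ k * P ^ (1 / 2 : ℝ) := by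
        refine mul_le_mul_of_nonneg_right ?_ (Real.rpow_nonneg hP0.le _)
        exact mul_le_mul h4 (pow_le_pow_left₀ hlog h3 k) (pow_nonneg hlog _) hr0
    _ = P ^ (1 / 2 : ℝ) * P ^ (1 / 2 : ℝ) := by rw [← h6]; ring
    _ = P := by rw [← Real.rpow_add hP0]; norm_num

theorem dens_maj_prime {Z : ℕ} (hZ : 1 ≤ Z) {l : ℕ → ℝ} (hl : l 1 = 1) {p : ℕ} (hp : p.Prime) (hpZ : Z < p) :
    maj Z l p = 1 := by
  unfold maj
  have h1 : (Icc 1 Z).filter (fun d => d ∣ p) = {1} := by
    ext d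
    rw [mem_filter, mem_Icc, mem_singleton]
    constructor
    · rintro ⟨⟨h1, h2⟩, h3⟩
      rcases (Nat.dvd_prime hp).mp h3 with h | h
      · exact h
      · omega
    · rintro rfl
      exact ⟨⟨le_rfl, hZ⟩, one_dvd _⟩
  rw [h1, sum_singleton, hl, one_pow]

theorem dens_chi {q : ℕ} [NeZero q] (χ : DirichletCharacter ℂ q) {p : ℕ} (hp : p.Prime) (hqp : q < p) :
    ‖χ (p : ZMod q)‖ = 1 := by
  have hq : 0 < q := Nat.pos_of_ne_zero (NeZero.ne q)
  have hc : p.Coprime q := by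
    rw [Nat.Prime.coprime_iff_not_dvd hp]
    intro h
    exact absurd (Nat.le_of_dvd hq h) (by omega)
  have h := DirichletCharacter.unit_norm_eq_one χ (ZMod.unitOfCoprime p hc)
  rwa [ZMod.coe_unitOfCoprime] at h

theorem dens_pow {q : ℕ} (χ : DirichletCharacter ℂ q) (t : ℝ) (n j j' : ℕ) :
    (χ (n : ZMod q) * nt t n) ^ j * (starRingEnd ℂ) (χ (n : ZMod q) * nt t n) ^ j' =
      (χ (n : ZMod q) ^ j * (starRingEnd ℂ) (χ (n : ZMod q)) ^ j') * nt (((j : ℝ) - j') * t) n := by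
  have h1 : nt (((j : ℝ) - j') * t) n = nt t n ^ j * (starRingEnd ℂ) (nt t n) ^ j' := by
    rw [conj_nt, nt_nat_mul, nt_nat_mul, ← nt_add]
    congr 1
    ring
  rw [h1, map_mul, mul_pow, mul_pow]
  ring

theorem dens_exp {H : ℝ} (hHr : 2 ≤ H) :
    Real.exp (1 / H) ≤ 1 + 2 / H ∧ 1 ≤ Real.exp (1 / H) ∧ Real.exp (1 / H) ≤ 5 / 3 := by
  refine ⟨?_, Real.one_le_exp (by positivity), ?_⟩
  · have h1 : |1 / H| ≤ 1 := by
      rw [abs_of_nonneg (by positivity), div_le_one (by linarith)]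
      linarith
    have h2 := Real.abs_exp_sub_one_sub_id_le h1
    have h3 := (abs_le.1 h2).2
    have h4 : (1 / H) ^ 2 ≤ 1 / H := by
      rw [sq]
      have : 1 / H ≤ 1 := by rw [div_le_one (by linarith)]; linarith
      have h5 : 0 ≤ 1 / H := by positivity
      nlinarith
    have h5 : (2 : ℝ) / H = 1 / H + 1 / H := by ring
    linarith
  · have h1 : Real.exp (1 / H) ≤ Real.exp (1 / 2) := Real.exp_le_exp.2 (by
      apply one_div_le_one_div_of_le (by norm_num) hHr)
    have h2 : Real.exp (1 / 2 : ℝ) ≤ 5 / 3 := by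
      have h3 : Real.exp (1 / 2 : ℝ) ^ 2 = Real.exp 1 := by
        rw [← Real.exp_nat_mul]; norm_num
      have h4 := Real.exp_one_lt_d9
      have h5 : 0 < Real.exp (1 / 2 : ℝ) := Real.exp_pos _
      nlinarith
    exact h1.trans h2

theorem dens_aux {A B C a P : ℝ} (h1 : A + 1 ≤ B) (hA : 0 ≤ A) (hC : C = B * B) (h2 : P - 1 < a) (h3 : C ≤ P) :
    A * B ≤ a := by
  subst hC
  nlinarith

theorem dens (q : ℕ) [NeZero q] (χ : DirichletCharacter ℂ q) : ∃ c : ℝ, 0 < c ∧ c ≤ 1 / 2 ∧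
    ∀ β : ℝ, 0 < β → ∀ H : ℕ, 2 ≤ H → ∃ T0 X0 : ℝ, 1 ≤ T0 ∧ 3 ≤ X0 ∧ ∀ X : ℝ, X0 ≤ X → ∀ t : ℝ, T0 ≤ |t| → |t| ≤ X →
    ∀ P : ℝ, X ^ β ≤ P → P ≤ X →
      ‖∑ p ∈ win P H, χ (p : ZMod q) * nt t p‖ ≤ (1 - c) * ((win P H).card : ℝ) := by
  have hq1 : 1 ≤ q := Nat.one_le_iff_ne_zero.mpr (NeZero.ne q)
  obtain ⟨Cw, hCw, hW⟩ := sel_weights q hq1
  obtain ⟨J, c, hJ1, hc0, hc1, hcore⟩ := dens_core (36 * Cw + 1) (by positivity)
  refine ⟨c, hc0, hc1, fun β hβ H hH => ?_⟩
  obtain ⟨P0, hP03, hP0⟩ := win_card H (by omega)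
  have hHr : (2 : ℝ) ≤ H := by exact_mod_cast hH
  have hJr : (1 : ℝ) ≤ J := by exact_mod_cast hJ1
  have hqr : (1 : ℝ) ≤ q := by exact_mod_cast hq1
  obtain ⟨x0, hx03, hoffL⟩ := off_large q hq1 2 (β / 2) (by positivity)
  -- conditions on P
  have e1 := dens_growth (36 * H * Cw + 4 * H + 2) 1
  have e2 := dens_growth (8 * q * (2 / β) ^ 9 * (4 * H * J)) 10
  have e3 := dens_growth (4 * q) 0
  have e4 : ∀ᶠ P : ℝ in Filter.atTop, P ^ (1 / 9 : ℝ) + 1 ≤ P ^ (1 / 8 : ℝ) := by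
    have h1 : Filter.Tendsto (fun P : ℝ => P ^ (1 / 72 : ℝ)) Filter.atTop Filter.atTop :=
      tendsto_rpow_atTop (by norm_num)
    filter_upwards [h1.eventually_ge_atTop 2, Filter.eventually_ge_atTop (1 : ℝ)] with P h2 h3
    have h4 : P ^ (1 / 8 : ℝ) = P ^ (1 / 9 : ℝ) * P ^ (1 / 72 : ℝ) := by
      rw [← Real.rpow_add (by linarith)]
      norm_num
    have h5 : 1 ≤ P ^ (1 / 9 : ℝ) := Real.one_le_rpow h3 (by norm_num)
    rw [h4]
    nlinarith
  have e5 : ∀ᶠ P : ℝ in Filter.atTop, (2 : ℝ) ≤ P ^ (1 / 9 : ℝ) :=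
    (tendsto_rpow_atTop (by norm_num)).eventually_ge_atTop 2
  have e6 : ∀ᶠ P : ℝ in Filter.atTop, β * Real.log J + 1 ≤ Real.log P :=
    Real.tendsto_log_atTop.eventually_ge_atTop _
  have e7 := Filter.eventually_ge_atTop P0
  have e8 := Filter.eventually_ge_atTop (6 : ℝ)
  have e9 := Filter.eventually_gt_atTop (q : ℝ)
  obtain ⟨P1, hP1⟩ := Filter.eventually_atTop.1
    (e1.and (e2.and (e3.and (e4.and (e5.and (e6.and (e7.and (e8.and e9))))))))
  -- conditions on X
  have hXβ : Filter.Tendsto (fun X : ℝ => X ^ β) Filter.atTop Filter.atTop := tendsto_rpow_atTop hβ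
  have hXβ2 : Filter.Tendsto (fun X : ℝ => X ^ (β / 2)) Filter.atTop Filter.atTop :=
    tendsto_rpow_atTop (by positivity)
  obtain ⟨X1, hX1⟩ := Filter.eventually_atTop.1 ((hXβ.eventually_ge_atTop P1).and
    ((hXβ2.eventually_ge_atTop ((J : ℝ) ^ (β / 2) + 1)).and
      ((Real.tendsto_log_atTop.eventually_ge_atTop (2 * (H : ℝ) * J)).and
        (Filter.eventually_ge_atTop (max 3 x0)))))
  refine ⟨108 * Cw * H * J + 1, max 3 X1, ?_, le_max_left _ _, ?_⟩
  · have : 0 ≤ 108 * Cw * H * J := by positivity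
    linarith
  intro X hX t ht1 ht2 P hPX1 hPX2
  obtain ⟨f1, f2, f3, f4⟩ := hX1 X ((le_max_right _ _).trans hX)
  obtain ⟨g1, g2, g3, g4, g5, g6, g7, g8, g9⟩ := hP1 P (f1.trans hPX1)
  have hX3 : 3 ≤ X := (le_max_left _ _).trans f4
  have hx0X : x0 ≤ X := (le_max_right _ _).trans f4
  have hX0 : 0 < X := by linarith
  have hP0' : 0 < P := by linarith
  have hP1' : 1 ≤ P := by linarith
  have hlogP : 1 ≤ Real.log P := by
    have h1 : 0 ≤ β * Real.log J := mul_nonneg hβ.le (Real.log_nonneg hJr)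
    linarith
  have hlogP0 : 0 < Real.log P := by linarith
  have hlogX : β * Real.log X ≤ Real.log P := by
    have h1 := Real.log_le_log (Real.rpow_pos_of_pos hX0 β) hPX1
    rwa [Real.log_rpow hX0] at h1
  have hsq1 : 1 ≤ P ^ (1 / 2 : ℝ) := Real.one_le_rpow hP1' (by norm_num)
  have hquart : P ^ (1 / 4 : ℝ) ≤ P ^ (1 / 2 : ℝ) := Real.rpow_le_rpow_of_exponent_le hP1' (by norm_num)
  rw [pow_one] at g1
  rw [pow_zero, mul_one] at g3
  -- the integers
  set a : ℕ := ⌊P⌋₊ with ha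
  set b : ℕ := ⌊P * Real.exp (1 / H)⌋₊ with hb
  set Z : ℕ := ⌊P ^ (1 / 8 : ℝ)⌋₊ with hZ
  have haP : (a : ℝ) ≤ P := Nat.floor_le hP0'.le
  have haP1 : P - 1 < a := by have := Nat.lt_floor_add_one P; linarith
  obtain ⟨hexp1, hexp2, hexp3⟩ := dens_exp hHr
  have hbP : (b : ℝ) ≤ P * Real.exp (1 / H) := Nat.floor_le (by positivity)
  have hab : a ≤ b := Nat.floor_le_floor (le_mul_of_one_le_right hP0'.le hexp2)
  have hba : (b : ℝ) - a ≤ 2 * P / H + 1 := by
    have h1 : P * Real.exp (1 / (H : ℝ)) ≤ P * (1 + 2 / H) := mul_le_mul_of_nonneg_left hexp1 hP0'.le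
    have h2 : P * (1 + 2 / (H : ℝ)) = P + 2 * P / H := by ring
    linarith
  have hb2a : b ≤ 2 * a := by
    have h1 : (b : ℝ) ≤ 2 * a := by
      have h2 : P * Real.exp (1 / (H : ℝ)) ≤ P * (5 / 3) := mul_le_mul_of_nonneg_left hexp3 hP0'.le
      linarith
    exact_mod_cast h1
  have hZle : (Z : ℝ) ≤ P ^ (1 / 8 : ℝ) := Nat.floor_le (Real.rpow_nonneg hP0'.le _)
  have hZge : P ^ (1 / 9 : ℝ) ≤ Z := by
    have := Nat.lt_floor_add_one (P ^ (1 / 8 : ℝ))
    linarith
  have hZ2 : 2 ≤ Z := by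
    have h1 : (2 : ℝ) ≤ Z := g5.trans hZge
    exact_mod_cast h1
  have hZ0 : (0 : ℝ) ≤ Z := Nat.cast_nonneg _
  have hZsq : (Z : ℝ) ^ 2 ≤ P ^ (1 / 4 : ℝ) := by
    calc (Z : ℝ) ^ 2 ≤ (P ^ (1 / 8 : ℝ)) ^ 2 := pow_le_pow_left₀ hZ0 hZle 2
      _ = P ^ (1 / 4 : ℝ) := by
        rw [← Real.rpow_natCast, ← Real.rpow_mul hP0'.le]
        norm_num
  have hZ4 : (Z : ℝ) ^ 4 ≤ a := by
    have h1 : (Z : ℝ) ^ 4 ≤ P ^ (1 / 2 : ℝ) := by
      calc (Z : ℝ) ^ 4 ≤ (P ^ (1 / 8 : ℝ)) ^ 4 := pow_le_pow_left₀ hZ0 hZle 4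
        _ = P ^ (1 / 2 : ℝ) := by
          rw [← Real.rpow_natCast, ← Real.rpow_mul hP0'.le]
          norm_num
    have h2 : 4 * P ^ (1 / 2 : ℝ) ≤ P := by
      have : 4 * P ^ (1 / 2 : ℝ) ≤ 4 * q * P ^ (1 / 2 : ℝ) :=
        mul_le_mul_of_nonneg_right (by linarith) (by linarith)
      linarith
    linarith
  have hlogZ : Real.log P / 9 ≤ Real.log Z := by
    have h1 := Real.log_le_log (Real.rpow_pos_of_pos hP0' _) hZge
    rw [Real.log_rpow hP0'] at h1
    linarith
  have hlogZ0 : 0 < Real.log Z := by linarith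
  -- the weights
  obtain ⟨l, hl1, hlb, -, hlq, hM0, hMle⟩ := hW Z hZ2
  set M : ℝ := Cw / Real.log Z with hM
  have hMP : M ≤ 9 * Cw / Real.log P := by
    rw [hM, div_le_div_iff₀ hlogZ0 hlogP0]
    calc Cw * Real.log P ≤ Cw * (9 * Real.log Z) := mul_le_mul_of_nonneg_left (by linarith) hCw.le
      _ = 9 * Cw * Real.log Z := by ring
  have hMnn : 0 ≤ M := by positivity
  set N : ℝ := ((win P H).card : ℝ) with hN
  have hNlow : P / (2 * H * Real.log P) ≤ N := hP0 P g7
  have hHlog : 0 < 2 * H * Real.log P := by positivity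
  have hPN : P ≤ N * (2 * H * Real.log P) := by rwa [div_le_iff₀ hHlog] at hNlow
  have hN0 : 0 ≤ N := Nat.cast_nonneg _
  -- core
  refine hcore (Ioc a b) (win P H) (filter_subset _ _) (maj Z l) (fun n _ => by unfold maj; positivity)
    (fun p hp => ?_) (fun n => χ (n : ZMod q) * nt t n) (fun n _ => ?_) (fun p hp => ?_) ?_ ?_
  · have hp' := mem_filter.1 hp
    rw [mem_Ioc] at hp'
    have hZa : Z ≤ a := by
      have h1 : (Z : ℝ) ≤ (Z : ℝ) ^ 4 := by
        have : (1 : ℝ) ≤ Z := by exact_mod_cast (by omega : 1 ≤ Z)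
        exact le_self_pow₀ this (by norm_num)
      exact_mod_cast h1.trans hZ4
    rw [dens_maj_prime (by omega) hl1 hp'.2 (by omega)]
  · rw [norm_mul, norm_nt, mul_one]
    exact DirichletCharacter.norm_le_one χ _
  · have hp' := mem_filter.1 hp
    rw [mem_Ioc] at hp'
    rw [norm_mul, norm_nt, mul_one]
    refine dens_chi χ hp'.2 ?_
    have h1 : q ≤ a := Nat.le_floor g9.le
    omega
  · -- the total mass
    have h1 := maj_total q hq1 Z (by omega) l hlb M hMle a b hab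
    have h2 : (2 * P / H) * M ≤ 36 * Cw * N := by
      calc (2 * P / H) * M ≤ (2 * P / H) * (9 * Cw / Real.log P) :=
            mul_le_mul_of_nonneg_left hMP (by positivity)
        _ = 36 * Cw * (P / (2 * H * Real.log P)) := by field_simp; ring
        _ ≤ 36 * Cw * N := mul_le_mul_of_nonneg_left hNlow (by positivity)
    have h3 : M + (Z : ℝ) ^ 2 ≤ N := by
      refine le_trans ?_ hNlow
      rw [le_div_iff₀ hHlog]
      have h4 : M * (2 * H * Real.log P) ≤ 18 * H * Cw := by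
        calc M * (2 * H * Real.log P) ≤ (9 * Cw / Real.log P) * (2 * H * Real.log P) :=
              mul_le_mul_of_nonneg_right hMP hHlog.le
          _ = 18 * H * Cw := by field_simp; ring
      have h5 : (Z : ℝ) ^ 2 * (2 * H * Real.log P) ≤ P ^ (1 / 2 : ℝ) * (2 * H * Real.log P) :=
        mul_le_mul_of_nonneg_right (hZsq.trans hquart) hHlog.le
      have h7 : 1 ≤ Real.log P * P ^ (1 / 2 : ℝ) := one_le_mul_of_one_le_of_one_le hlogP hsq1
      have h8 : 0 ≤ 36 * (H : ℝ) * Cw := by positivity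
      have h6 : 18 * H * Cw ≤ 36 * H * Cw * (Real.log P * P ^ (1 / 2 : ℝ)) := by
        calc 18 * H * Cw ≤ 36 * H * Cw * 1 := by linarith
          _ ≤ _ := mul_le_mul_of_nonneg_left h7 h8
      have h9 : 0 ≤ Real.log P * P ^ (1 / 2 : ℝ) := by linarith
      have h10 : 0 ≤ (2 * (H : ℝ) + 2) * (Real.log P * P ^ (1 / 2 : ℝ)) := mul_nonneg (by positivity) h9
      have h11 : (36 * H * Cw + 4 * H + 2) * Real.log P * P ^ (1 / 2 : ℝ) =
          36 * H * Cw * (Real.log P * P ^ (1 / 2 : ℝ)) + P ^ (1 / 2 : ℝ) * (2 * H * Real.log P) +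
          (2 * (H : ℝ) + 2) * (Real.log P * P ^ (1 / 2 : ℝ)) := by ring
      have h12 : (M + (Z : ℝ) ^ 2) * (2 * H * Real.log P) =
          M * (2 * H * Real.log P) + (Z : ℝ) ^ 2 * (2 * H * Real.log P) := by ring
      rw [h12]
      rw [h11] at g1
      linarith
    have h4 : ((b : ℝ) - a) * M ≤ (2 * P / H + 1) * M := mul_le_mul_of_nonneg_right hba hMnn
    linarith
  · intro j hj j' hj' hjj
    rw [mem_Icc] at hj hj'
    set u : ℝ := ((j : ℝ) - j') * t with hu
    have hψ : ∀ n : ℕ, (fun n : ℕ => χ (n : ZMod q) ^ j * (starRingEnd ℂ) (χ (n : ZMod q)) ^ j') n =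
        (fun n : ℕ => χ (n : ZMod q) ^ j * (starRingEnd ℂ) (χ (n : ZMod q)) ^ j') (n % q) := by
      intro n
      simp only [ZMod.natCast_mod]
    have hψ1 : ∀ n : ℕ, ‖(fun n : ℕ => χ (n : ZMod q) ^ j * (starRingEnd ℂ) (χ (n : ZMod q)) ^ j') n‖ ≤ 1 := by
      intro n
      simp only [norm_mul, norm_pow, RCLike.norm_conj]
      have h1 := DirichletCharacter.norm_le_one χ (n : ZMod q)
      exact mul_le_one₀ (pow_le_one₀ (norm_nonneg _) h1) (by positivity) (pow_le_one₀ (norm_nonneg _) h1)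
    have hjr : 1 ≤ |(j : ℝ) - j'| := by
      have h1 : (j : ℤ) - j' ≠ 0 := by omega
      have h2 : (1 : ℤ) ≤ |(j : ℤ) - j'| := Int.one_le_abs h1
      have h3 : ((1 : ℤ) : ℝ) ≤ ((|(j : ℤ) - j'| : ℤ) : ℝ) := by exact_mod_cast h2
      push_cast at h3
      exact h3
    have hjJ : |(j : ℝ) - j'| ≤ J := by
      have h1 : (j : ℝ) ≤ J := by exact_mod_cast hj.2
      have h2 : (j' : ℝ) ≤ J := by exact_mod_cast hj'.2
      have h3 : (0 : ℝ) ≤ j := Nat.cast_nonneg _
      have h4 : (0 : ℝ) ≤ j' := Nat.cast_nonneg _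
      rw [abs_le]
      constructor <;> linarith
    have hu1 : |t| ≤ |u| := by
      rw [hu, abs_mul]
      exact le_mul_of_one_le_left (abs_nonneg t) hjr
    have hu2 : |u| ≤ J * X := by
      rw [hu, abs_mul]
      exact mul_le_mul hjJ ht2 (abs_nonneg _) (by linarith)
    have hsum : ∑ n ∈ Ioc a b, (maj Z l n : ℂ) * ((fun n : ℕ => χ (n : ZMod q) * nt t n) n ^ j *
          (starRingEnd ℂ) ((fun n : ℕ => χ (n : ZMod q) * nt t n) n) ^ j') =
        ∑ n ∈ Ioc a b, (maj Z l n : ℂ) *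
          ((fun n : ℕ => χ (n : ZMod q) ^ j * (starRingEnd ℂ) (χ (n : ZMod q)) ^ j') n * nt u n) := by
      refine sum_congr rfl fun n _ => ?_
      simp only []
      rw [dens_pow, hu]
    rw [hsum]
    have hJ0 : (0 : ℝ) < J := by linarith
    -- target in terms of P
    have htar : P / (2 * H * J * Real.log P) ≤ N / J := by
      rw [div_le_div_iff₀ (by positivity) hJ0]
      calc P * J ≤ N * (2 * H * Real.log P) * J := mul_le_mul_of_nonneg_right hPN hJ0.le
        _ = N * (2 * H * J * Real.log P) := by ring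
    refine le_trans ?_ htar
    rcases le_or_gt ((Real.log (J * X)) ^ (2 + 7)) |u| with hbig | hsmall
    · -- large
      have hx : x0 ≤ J * X := hx0X.trans (le_mul_of_one_le_left hX0.le hJr)
      have h1 := hoffL (J * X) hx u hbig (by linarith [mul_nonneg hJ0.le hX0.le]) a b Z ?_ ?_ hb2a (by omega) hZ4 l hlb hlq
        _ hψ hψ1
      · refine h1.trans ?_
        have hlogJX : Real.log X ≤ Real.log (J * X) :=
          Real.log_le_log hX0 (le_mul_of_one_le_left hX0.le hJr)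
        have hlogX0 : 0 < Real.log X := by
          have : 0 < 2 * (H : ℝ) * J := by positivity
          linarith
        have hlogPX : Real.log P ≤ Real.log X := Real.log_le_log hP0' hPX2
        have h2 : 2 * H * J * Real.log P ≤ (Real.log (J * X)) ^ 2 := by
          calc 2 * H * J * Real.log P ≤ Real.log X * Real.log X :=
                mul_le_mul f3 hlogPX hlogP0.le hlogX0.le
            _ ≤ (Real.log (J * X)) ^ 2 := by
                rw [sq]
                exact mul_le_mul hlogJX hlogJX hlogX0.le (hlogX0.le.trans hlogJX)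
        exact div_le_div₀ hP0'.le haP (by positivity) h2
      · -- (J X)^(β/2) ≤ a
        have h2 : (J * X) ^ (β / 2) = (J : ℝ) ^ (β / 2) * X ^ (β / 2) := Real.mul_rpow hJ0.le hX0.le
        have h3 : X ^ β = X ^ (β / 2) * X ^ (β / 2) := by
          rw [← Real.rpow_add hX0]; congr 1; ring
        have h4 : 0 ≤ (J : ℝ) ^ (β / 2) := Real.rpow_nonneg hJ0.le _
        rw [h2]
        exact dens_aux f2 h4 h3 haP1 hPX1
      · exact haP.trans (hPX2.trans (le_mul_of_one_le_left hX0.le hJr))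
    · -- small
      have hu0 : 1 ≤ |u| := by
        have : 0 ≤ 108 * Cw * H * J := by positivity
        linarith
      have h2q : 2 * q * Z ^ 2 ≤ a := by
        have h1 : (2 : ℝ) * q * (Z : ℝ) ^ 2 ≤ a := by
          have h2 : 2 * (q : ℝ) * (Z : ℝ) ^ 2 ≤ 2 * q * P ^ (1 / 2 : ℝ) :=
            mul_le_mul_of_nonneg_left (hZsq.trans hquart) (by positivity)
          linarith
        exact_mod_cast h1
      have h1 := off_small q hq1 Z (by omega) l hlb hlq M hM0 hMle u hu0 a b h2q hab hb2a _ hψ hψ1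
      refine h1.trans ?_
      have h3 : 3 * a * M / |u| ≤ P / (4 * H * J * Real.log P) := by
        have hu0' : 0 < |u| := by linarith
        rw [div_le_div_iff₀ hu0' (by positivity)]
        have h4 : 3 * a * M ≤ 27 * Cw * P / Real.log P := by
          calc 3 * a * M ≤ 3 * P * (9 * Cw / Real.log P) := by
                refine mul_le_mul (by linarith) hMP hMnn (by linarith)
            _ = 27 * Cw * P / Real.log P := by ring
        calc 3 * a * M * (4 * H * J * Real.log P) ≤ (27 * Cw * P / Real.log P) * (4 * H * J * Real.log P) :=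
              mul_le_mul_of_nonneg_right h4 (by positivity)
          _ = P * (108 * Cw * H * J) := by field_simp; ring
          _ ≤ P * |u| := by
              refine mul_le_mul_of_nonneg_left ?_ hP0'.le
              linarith
      have h4 : 8 * q * (Z : ℝ) ^ 2 * |u| ≤ P / (4 * H * J * Real.log P) := by
        rw [le_div_iff₀ (by positivity)]
        have hlogJX : Real.log (J * X) ≤ (2 / β) * Real.log P := by
          rw [Real.log_mul hJ0.ne' hX0.ne']
          have h5 : Real.log J ≤ (1 / β) * Real.log P := by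
            rw [one_div, ← div_eq_inv_mul, le_div_iff₀ hβ]
            linarith
          have h6 : Real.log X ≤ (1 / β) * Real.log P := by
            rw [one_div, ← div_eq_inv_mul, le_div_iff₀ hβ]
            linarith
          have h7 : (2 / β) * Real.log P = (1 / β) * Real.log P + (1 / β) * Real.log P := by ring
          linarith
        have hlogJX0 : 0 ≤ Real.log (J * X) :=
          Real.log_nonneg (one_le_mul_of_one_le_of_one_le hJr (by linarith))
        have h5 : |u| ≤ ((2 / β) * Real.log P) ^ 9 := hsmall.le.trans (pow_le_pow_left₀ hlogJX0 hlogJX _)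
        calc 8 * q * (Z : ℝ) ^ 2 * |u| * (4 * H * J * Real.log P)
            ≤ 8 * q * P ^ (1 / 2 : ℝ) * ((2 / β) * Real.log P) ^ 9 * (4 * H * J * Real.log P) := by
              refine mul_le_mul_of_nonneg_right ?_ (by positivity)
              refine mul_le_mul ?_ h5 (abs_nonneg _) (by positivity)
              exact mul_le_mul_of_nonneg_left (hZsq.trans hquart) (by positivity)
          _ = 8 * q * (2 / β) ^ 9 * (4 * H * J) * (Real.log P) ^ 10 * P ^ (1 / 2 : ℝ) := by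
              rw [mul_pow]; ring
          _ ≤ P := g2
      have h5 : P / (4 * H * J * Real.log P) + P / (4 * H * J * Real.log P) = P / (2 * H * J * Real.log P) := by
        field_simp
        ring
      linarith

end Pool.Agent.Lib.DN
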