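import Mathlib

/-!
# Abstract iteration
-/

set_option autoImplicit false

namespace Pool.Agent.Lib.DN

/-- module Q3 (Iter.lean): abstract iteration -/
theorem iter (s : ℝ → ℝ) (C0 c err D Y Y1 : ℝ) (hD : 1 ≤ D) (hY : 0 < Y) (hc : 0 < c) (hc1 : c ≤ 1) (herr : 0 ≤ err)
    (hC0 : 0 ≤ C0) (h0 : ∀ v : ℝ, Y ≤ v → v ≤ Y1 → s v ≤ C0)
    (hs : ∀ v : ℝ, Y * D ≤ v → v ≤ Y1 → ∀ M : ℝ, 0 ≤ M → (∀ y : ℝ, v / D ≤ y → y ≤ v → s y ≤ M) → s v ≤ (1 - c) * M + err)
    (m : ℕ) : ∀ v : ℝ, Y * D ^ m ≤ v → v ≤ Y1 → s v ≤ (1 - c) ^ m * C0 + err / c := by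
  have hD0 : 0 < D := by linarith
  have hec : 0 ≤ err / c := by positivity
  induction m with
  | zero =>
    intro v hv hv1
    rw [pow_zero, mul_one] at hv
    have := h0 v hv hv1
    rw [pow_zero, one_mul]
    linarith
  | succ m ih =>
    intro v hv hv1
    have hDm : 1 ≤ D ^ m := one_le_pow₀ hD
    have hM : 0 ≤ (1 - c) ^ m * C0 + err / c := by
      have : 0 ≤ (1 - c) ^ m := pow_nonneg (by linarith) m
      positivity
    have hYD : Y * D ≤ v := by
      refine le_trans ?_ hv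
      rw [pow_succ]
      have : Y * D * 1 ≤ Y * D * D ^ m := by gcongr
      nlinarith
    have h := hs v hYD hv1 _ hM (fun y hy hy1 => by
      refine ih y ?_ (hy1.trans hv1)
      refine le_trans ?_ hy
      rw [le_div_iff₀ hD0]
      calc Y * D ^ m * D = Y * D ^ (m + 1) := by ring
        _ ≤ v := hv)
    have e : (1 - c) * ((1 - c) ^ m * C0 + err / c) + err = (1 - c) ^ (m + 1) * C0 + err / c := by
      field_simp
      ring
    rw [← e]
    exact h

end Pool.Agent.Lib.DN
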