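import Pool.Agent.Lib.DN.PWDefs
import Pool.Agent.Lib.MP_9fe581_an.EXC.Defs
import Pool.Agent.Lib.MP_45349e_nt.LS.LamB

/-!
# The Liouville function twisted by a character is completely multiplicative and bounded by one

For `q = 1` the value of `lc χ` at `0` is `1`, so the value at `0` is changed to `0`.
-/

set_option autoImplicit false

namespace Pool.Agent.Lib.DN

open Pool.Agent.Lib.MP_9fe581_an.EXC (CM)
open Pool.Agent.Lib.MP_45349e_nt.LS (lam lam_mul abs_lam)

/-- `lc χ`, with the value `0` at `0` -/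
noncomputable def lc0 {q : ℕ} (χ : DirichletCharacter ℂ q) (n : ℕ) : ℂ := if n = 0 then 0 else lc χ n

theorem lc0_zero {q : ℕ} (χ : DirichletCharacter ℂ q) : lc0 χ 0 = 0 := if_pos rfl

theorem lc0_of_ne {q : ℕ} (χ : DirichletCharacter ℂ q) {n : ℕ} (hn : n ≠ 0) :
    lc0 χ n = lc χ n := if_neg hn

theorem lc0_eq {q : ℕ} (χ : DirichletCharacter ℂ q) {n : ℕ} (hn : 1 ≤ n) : lc0 χ n = lc χ n :=
  lc0_of_ne χ (by omega)

theorem lc_norm_le {q : ℕ} (χ : DirichletCharacter ℂ q) (n : ℕ) : ‖lc χ n‖ ≤ 1 := by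
  rw [lc, norm_mul, Complex.norm_real, Real.norm_eq_abs, abs_lam, one_mul]
  exact DirichletCharacter.norm_le_one χ _

theorem lc_mul {q : ℕ} (χ : DirichletCharacter ℂ q) {m n : ℕ} (hm : m ≠ 0) (hn : n ≠ 0) :
    lc χ (m * n) = lc χ m * lc χ n := by
  simp only [lc]
  rw [lam_mul m n hm hn, Nat.cast_mul, map_mul, Complex.ofReal_mul]
  ring

theorem lc0_cm {q : ℕ} (χ : DirichletCharacter ℂ q) : CM (lc0 χ) := by
  refine ⟨fun m n => ?_, fun n => ?_⟩
  · by_cases hm : m = 0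
    · subst hm
      rw [zero_mul, lc0_zero, zero_mul]
    by_cases hn : n = 0
    · subst hn
      rw [mul_zero, lc0_zero, mul_zero]
    rw [lc0_of_ne χ (mul_ne_zero hm hn), lc0_of_ne χ hm, lc0_of_ne χ hn, lc_mul χ hm hn]
  · by_cases hn : n = 0
    · subst hn
      rw [lc0_zero, norm_zero]
      exact zero_le_one
    rw [lc0_of_ne χ hn]
    exact lc_norm_le χ n

end Pool.Agent.Lib.DN
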