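import Pool.Agent.Lib.DN.VLow

/-!
# CON10, module Q5: the parameters
-/

set_option autoImplicit false

open Finset

namespace Pool.Agent.Lib.DN

/-- the parameters -/
theorem params (H m : ℕ) (hH : 1 ≤ H) (K : ℝ) : ∃ β : ℝ, 0 < β ∧ ∃ X0 : ℝ, 3 ≤ X0 ∧ ∀ X : ℝ, X0 ≤ X → ∃ a b : ℕ, a ≤ b ∧
    K ≤ VV (PW H a b) ∧ X ^ β ≤ Real.exp ((a : ℝ) / H) ∧ Real.exp ((b : ℝ) / H) ^ (m + 2) ≤ X ^ (1 / 100 : ℝ) ∧
    1 + VV (PW H a b) ≤ 2 + Real.log X := by
  obtain ⟨a0, ha0, hlow⟩ := VV_low H hH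
  have hH' : (1 : ℝ) ≤ H := by exact_mod_cast hH
  have ha0' : (1 : ℝ) ≤ a0 := by exact_mod_cast ha0
  set R : ℝ := 2 * Real.exp (6 * |K|) with hR
  have hexp1 : 1 ≤ Real.exp (6 * |K|) := Real.one_le_exp (by positivity)
  have hR2 : 2 ≤ R := by rw [hR]; linarith
  have hR0 : 0 < R := by linarith
  set n : ℝ := (m : ℝ) + 2 with hn
  have hn0 : 0 < n := by positivity
  refine ⟨1 / (200 * n * R), by positivity, max 3 (Real.exp (100 * n * (R * a0 + 1))),
    le_max_left _ _, fun X hX => ?_⟩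
  have hX3 : 3 ≤ X := (le_max_left _ _).trans hX
  have hX0 : 0 < X := by linarith
  set L : ℝ := Real.log X with hL
  have hLL : 100 * n * (R * a0 + 1) ≤ L := by
    rw [hL, Real.le_log_iff_exp_le hX0]
    exact (le_max_right _ _).trans hX
  have hRa0 : 2 ≤ R * a0 := by nlinarith
  have hL0 : 0 < L := lt_of_lt_of_le (by positivity) hLL
  -- `b`
  set bb : ℝ := H * L / (100 * n) with hbb
  have hbb1 : R * a0 + 1 ≤ bb := by
    rw [hbb, le_div_iff₀ (by positivity)]
    nlinarith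
  set b : ℕ := ⌊bb⌋₊ with hb
  have hb_le : (b : ℝ) ≤ bb := Nat.floor_le (by linarith)
  have hb_gt : bb < (b : ℝ) + 1 := Nat.lt_floor_add_one bb
  have hbR : R * a0 ≤ b := by linarith
  have hb0 : (0 : ℝ) < b := by linarith
  -- `a`
  set a : ℕ := ⌈(b : ℝ) / R⌉₊ with ha
  have ha_ge : (b : ℝ) / R ≤ a := Nat.le_ceil _
  have ha_lt : (a : ℝ) < (b : ℝ) / R + 1 := Nat.ceil_lt_add_one (by positivity)
  have hbR1 : (a0 : ℝ) ≤ (b : ℝ) / R := by
    rw [le_div_iff₀ hR0]; linarith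
  have haa0 : a0 ≤ a := by
    have : (a0 : ℝ) ≤ a := hbR1.trans ha_ge
    exact_mod_cast this
  have hab : a ≤ b := by
    rw [ha, Nat.ceil_le, div_le_iff₀ hR0]
    nlinarith
  have ha0r : (0 : ℝ) < a := by linarith
  have haub : (a : ℝ) ≤ 2 * b / R := by
    have : (1 : ℝ) ≤ (b : ℝ) / R := ha0'.trans hbR1
    have h2 : 2 * (b : ℝ) / R = (b : ℝ) / R + (b : ℝ) / R := by ring
    rw [h2]; linarith
  have haub2 : (a : ℝ) * Real.exp (6 * |K|) ≤ b := by
    rw [le_div_iff₀ hR0, hR] at haub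
    nlinarith
  refine ⟨a, b, hab, ?_, ?_, ?_, ?_⟩
  · have h1 := hlow a b haa0 hab
    have h2 : Real.log a + 6 * |K| ≤ Real.log b := by
      have h3 := Real.log_le_log (by positivity) haub2
      rw [Real.log_mul ha0r.ne' (Real.exp_pos _).ne', Real.log_exp] at h3
      exact h3
    have h3 : K ≤ |K| := le_abs_self K
    linarith
  · rw [Real.rpow_def_of_pos hX0, ← hL]
    apply Real.exp_le_exp.2
    rw [le_div_iff₀ (by linarith)]
    have h1 : bb / 2 ≤ b := by
      have : 2 ≤ bb := by linarith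
      linarith
    have h2 : bb / 2 / R ≤ a := (div_le_div_of_nonneg_right h1 hR0.le).trans ha_ge
    have h3 : L * (1 / (200 * n * R)) * H = bb / 2 / R := by
      rw [hbb]; field_simp; norm_num
    rw [h3]; exact h2
  · rw [← Real.exp_nat_mul, Real.rpow_def_of_pos hX0, ← hL]
    apply Real.exp_le_exp.2
    have h1 : ((m + 2 : ℕ) : ℝ) = n := by rw [hn]; push_cast; ring
    rw [h1]
    have h2 : n * ((b : ℝ) / H) ≤ n * (bb / H) := by
      apply mul_le_mul_of_nonneg_left _ hn0.le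
      exact div_le_div_of_nonneg_right hb_le (by linarith)
    refine h2.trans (le_of_eq ?_)
    rw [hbb]; field_simp
  · have h1 := VV_up H a b hH
    have h2 : (b : ℝ) / H ≤ L := by
      rw [div_le_iff₀ (by linarith)]
      refine hb_le.trans ?_
      rw [hbb, div_le_iff₀ (by positivity)]
      have hn2 : 2 ≤ n := by rw [hn]; have : (0 : ℝ) ≤ m := by positivity
                             linarith
      have : 0 ≤ H * L := by positivity
      nlinarith
    linarith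

end Pool.Agent.Lib.DN
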