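import Pool.Agent.Lib.DN.PWDefs

/-!
# Windows of primes: splitting, and the weights `1/p`
-/

set_option autoImplicit false

open Finset

namespace Pool.Agent.Lib.DN

theorem sum_PW {M : Type*} [AddCommMonoid M] (H a b : ℕ) (hH : 1 ≤ H) (hab : a ≤ b) (g : ℕ → M) :
    ∑ p ∈ PW H a b, g p = ∑ j ∈ Ico a b, ∑ p ∈ win (Real.exp ((j : ℝ) / H)) H, g p := by
  have hH0 : (0 : ℝ) < H := by exact_mod_cast hH
  have hmono : ∀ i j : ℕ, i ≤ j →
      ⌊Real.exp ((i : ℝ) / H)⌋₊ ≤ ⌊Real.exp ((j : ℝ) / H)⌋₊ := by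
    intro i j hij
    refine Nat.floor_mono (Real.exp_le_exp.2 ?_)
    exact div_le_div_of_nonneg_right (by exact_mod_cast hij) hH0.le
  induction b, hab using Nat.le_induction with
  | base => simp [PW]
  | succ b hab ih =>
    rw [Finset.sum_Ico_succ_top hab, ← ih]
    have h1 : Real.exp ((b : ℝ) / H) * Real.exp (1 / (H : ℝ)) =
        Real.exp (((b + 1 : ℕ) : ℝ) / H) := by
      rw [← Real.exp_add]
      congr 1
      push_cast
      ring
    unfold PW win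
    rw [h1, Finset.sum_filter, Finset.sum_filter, Finset.sum_filter,
      Finset.sum_Ioc_consecutive _ (hmono a b hab) (hmono b (b + 1) (Nat.le_succ b))]

theorem win_recip (c : ℝ) (hc : 0 < c) (hc1 : c ≤ 1) (H : ℕ) (hH : 10 / c ≤ H) (P : ℝ) (hP : 1 ≤ P) (z : ℕ → ℂ)
    (hz : ∀ n, ‖z n‖ ≤ 1) (h : ‖∑ p ∈ win P H, z p‖ ≤ (1 - c) * ((win P H).card : ℝ)) :
    ‖∑ p ∈ win P H, (1 / (p : ℂ)) * z p‖ ≤ (1 - c / 2) * ∑ p ∈ win P H, (1 : ℝ) / p := by
  have hP0 : (0 : ℝ) < P := lt_of_lt_of_le one_pos hP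
  have hH0 : (0 : ℝ) < H := lt_of_lt_of_le (div_pos (by norm_num) hc) hH
  have hHc : 1 / (H : ℝ) ≤ c / 10 := by
    rw [div_le_div_iff₀ hH0 (by norm_num)]
    rw [div_le_iff₀ hc] at hH
    linarith
  have hE : Real.exp (1 / (H : ℝ)) ≤ 1 + c / 5 := by
    have h1 : |1 / (H : ℝ)| ≤ 1 := by
      rw [abs_of_pos (by positivity)]
      linarith
    have h2 := Real.abs_exp_sub_one_le h1
    rw [abs_of_pos (show (0 : ℝ) < 1 / (H : ℝ) by positivity)] at h2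
    have h3 := (le_abs_self _).trans h2
    linarith
  have hmem : ∀ p ∈ win P H, P < p ∧ (p : ℝ) ≤ P * Real.exp (1 / (H : ℝ)) := by
    intro p hp
    unfold win at hp
    rw [Finset.mem_filter, Finset.mem_Ioc] at hp
    refine ⟨Nat.lt_of_floor_lt hp.1.1, ?_⟩
    exact (Nat.le_floor_iff (by positivity)).1 hp.1.2
  have hp0 : ∀ p ∈ win P H, (0 : ℝ) < p := fun p hp => hP0.trans (hmem p hp).1
  have h1 : ∀ p ∈ win P H, (1 : ℝ) / p ≤ 1 / P := fun p hp =>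
    one_div_le_one_div_of_le hP0 (hmem p hp).1.le
  have h2 : ∀ p ∈ win P H, (1 : ℝ) / P ≤ (1 + c / 5) * (1 / p) := by
    intro p hp
    rw [mul_one_div, div_le_div_iff₀ hP0 (hp0 p hp), one_mul]
    have h3 := (hmem p hp).2
    have h4 : P * Real.exp (1 / (H : ℝ)) ≤ P * (1 + c / 5) := mul_le_mul_of_nonneg_left hE hP0.le
    linarith
  have h3 : ((win P H).card : ℝ) * (1 / P) ≤ (1 + c / 5) * ∑ p ∈ win P H, (1 : ℝ) / p := by
    rw [Finset.mul_sum, ← nsmul_eq_mul, ← Finset.sum_const]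
    exact Finset.sum_le_sum h2
  have h4 : ∑ p ∈ win P H, (1 / (p : ℂ)) * z p = (1 / (P : ℂ)) * ∑ p ∈ win P H, z p +
      ∑ p ∈ win P H, (1 / (p : ℂ) - 1 / (P : ℂ)) * z p := by
    rw [Finset.mul_sum, ← Finset.sum_add_distrib]
    refine Finset.sum_congr rfl fun p _ => ?_
    ring
  have h5 : ‖(1 / (P : ℂ)) * ∑ p ∈ win P H, z p‖ ≤ (1 / P) * ((1 - c) * ((win P H).card : ℝ)) := by
    rw [norm_mul]
    have h6 : ‖(1 / (P : ℂ))‖ = 1 / P := by
      rw [norm_div, norm_one, Complex.norm_real, Real.norm_of_nonneg hP0.le]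
    rw [h6]
    exact mul_le_mul_of_nonneg_left h (by positivity)
  have h6 : ‖∑ p ∈ win P H, (1 / (p : ℂ) - 1 / (P : ℂ)) * z p‖ ≤
      ∑ p ∈ win P H, (1 / P - (1 : ℝ) / p) := by
    refine (norm_sum_le _ _).trans (Finset.sum_le_sum fun p hp => ?_)
    rw [norm_mul]
    have h7 : (1 / (p : ℂ) - 1 / (P : ℂ)) = ((1 / (p : ℝ) - 1 / P : ℝ) : ℂ) := by
      push_cast
      ring
    have h8 : ‖(1 / (p : ℂ) - 1 / (P : ℂ))‖ = 1 / P - (1 : ℝ) / p := by
      rw [h7, Complex.norm_real, Real.norm_eq_abs, abs_of_nonpos (by linarith [h1 p hp])]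
      ring
    rw [h8]
    have h9 : 0 ≤ 1 / P - (1 : ℝ) / p := by linarith [h1 p hp]
    calc (1 / P - (1 : ℝ) / p) * ‖z p‖ ≤ (1 / P - (1 : ℝ) / p) * 1 :=
          mul_le_mul_of_nonneg_left (hz p) h9
      _ = _ := mul_one _
  rw [Finset.sum_sub_distrib, Finset.sum_const, nsmul_eq_mul] at h6
  rw [h4]
  refine (norm_add_le _ _).trans ?_
  have hV : 0 ≤ ∑ p ∈ win P H, (1 : ℝ) / p := Finset.sum_nonneg fun p _ => by positivity
  have h7 : (2 - c) * (((win P H).card : ℝ) * (1 / P)) ≤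
      (2 - c) * ((1 + c / 5) * ∑ p ∈ win P H, (1 : ℝ) / p) :=
    mul_le_mul_of_nonneg_left h3 (by linarith)
  have h8 : ((2 - c) * (1 + c / 5) - 1) * ∑ p ∈ win P H, (1 : ℝ) / p ≤
      (1 - c / 2) * ∑ p ∈ win P H, (1 : ℝ) / p := by
    refine mul_le_mul_of_nonneg_right ?_ hV
    nlinarith
  nlinarith

end Pool.Agent.Lib.DN
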