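import Pool.Agent.Lib.DN.Contr
import Pool.Agent.Lib.DN.Par
import Pool.Agent.Lib.MP_9fe581_an.EXC.SmoothP
import Pool.Agent.Lib.MP_9fe581_an.EXC.SumP
import Pool.Agent.Lib.DN.Dens
import Pool.Agent.Lib.DN.Split
import Pool.Agent.Lib.DN.Iter
import Pool.Agent.Lib.DN.LcCM

/-!
# Module Q9: the contraction for `λ χ` and all `t` away from `0`
-/

set_option autoImplicit false

open Finset

namespace Pool.Agent.Lib.DN

open Pool.Agent.Lib.MP_9fe581_an.EXC (cit MM EE Sep Ker CM)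

theorem big_cit (t : ℝ) (n : ℕ) : cit (-t) (n : ℝ) = nt (-t) n := by
  unfold cit nt
  congr 1
  push_cast
  ring

theorem big_lc {q : ℕ} (χ : DirichletCharacter ℂ q) {p : ℕ} (hp : p.Prime) : lc0 χ p = -(χ (p : ZMod q)) := by
  rw [lc0_of_ne χ hp.ne_zero, lc, Pool.Agent.Lib.MP_45349e_nt.LS.lam,
    ArithmeticFunction.cardFactors_apply_prime hp]
  push_cast
  ring

/-- the window sums -/
theorem big_win {q : ℕ} (χ : DirichletCharacter ℂ q) (t c P : ℝ) (H : ℕ) (hc : 0 < c) (hc1 : c ≤ 1)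
    (hH : 10 / c ≤ H) (hP : 1 ≤ P)
    (h : ‖∑ p ∈ win P H, χ (p : ZMod q) * nt (-t) p‖ ≤ (1 - c) * ((win P H).card : ℝ)) :
    ‖∑ p ∈ win P H, (1 / (p : ℂ)) * (lc0 χ p * cit (-t) p)‖ ≤ (1 - c / 2) * ∑ p ∈ win P H, (1 : ℝ) / p := by
  refine win_recip c hc hc1 H hH P hP (fun n => lc0 χ n * cit (-t) n) (fun n => ?_) ?_
  · show ‖lc0 χ n * cit (-t) (n : ℝ)‖ ≤ 1
    rw [big_cit, norm_mul, norm_nt, mul_one]
    exact (lc0_cm χ).le n
  · have h1 : ∑ p ∈ win P H, (fun n : ℕ => lc0 χ n * cit (-t) (n : ℝ)) p =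
        -∑ p ∈ win P H, χ (p : ZMod q) * nt (-t) p := by
      rw [← sum_neg_distrib]
      refine sum_congr rfl fun p hp => ?_
      show lc0 χ p * cit (-t) (p : ℝ) = _
      rw [big_cit, big_lc χ (mem_filter.1 hp).2]
      ring
    rw [h1, norm_neg]
    exact h

theorem big_sqrt {s c x : ℝ} (hs : 0 < s) (hc : 0 < c) {K : ℝ} (hK : 0 < K) (hx : (6 * K / (c * s)) ^ 2 ≤ x) :
    K / √x * (2 / c) ≤ s / 3 := by
  have h1 : 0 < 6 * K / (c * s) := by positivity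
  have h2 : 6 * K / (c * s) ≤ √x := Real.le_sqrt_of_sq_le hx
  have h3 : 0 < √x := by linarith
  rw [div_le_iff₀ (by positivity)] at h2
  rw [div_mul_div_comm, div_le_div_iff₀ (by positivity) (by norm_num)]
  nlinarith

theorem exc_big {q : ℕ} [NeZero q] (χ : DirichletCharacter ℂ q) (η : ℝ) (hη : 0 < η) :
    ∃ T0 X0 : ℝ, 3 ≤ X0 ∧ ∀ X : ℝ, X0 ≤ X → ∀ B : Finset ℝ, (∀ t ∈ B, T0 ≤ |t| ∧ |t| ≤ X) → Sep B →
      (B.card : ℝ) ≤ X ^ (1 / 20 : ℝ) → EE (lc0 χ) B X ≤ η := by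
  obtain ⟨c, hc0, hc1, hdens⟩ := dens q χ
  set s : ℝ := √η with hs
  have hs0 : 0 < s := Real.sqrt_pos.2 hη
  -- the number of steps
  obtain ⟨m, hm⟩ := exists_pow_lt_of_lt_one (show 0 < s / 18 by positivity) (show 1 - c / 2 < 1 by linarith)
  -- H
  obtain ⟨H, hH⟩ := exists_nat_ge (max (max 2 (10 / c)) ((6 * 15 / (c * s)) ^ 2))
  have hH2r : (2 : ℝ) ≤ H := (le_max_left _ _).trans ((le_max_left _ _).trans hH)
  have hHc : 10 / c ≤ H := (le_max_right _ _).trans ((le_max_left _ _).trans hH)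
  have hHs : (6 * 15 / (c * s)) ^ 2 ≤ H := (le_max_right _ _).trans hH
  have hH2 : 2 ≤ H := by exact_mod_cast hH2r
  obtain ⟨β, hβ, Xp, hXp3, hpar⟩ := params H m (by omega) (max 1 ((6 * 6 / (c * s)) ^ 2))
  obtain ⟨T0, Xd, hT0, hXd3, hd⟩ := hdens β hβ H hH2
  obtain ⟨Xk, hXk3, hker⟩ := Pool.Agent.Lib.MP_9fe581_an.EXC.ker_pow_of Pool.Agent.Lib.MP_9fe581_an.EXC.sumP
  -- growth
  have e1 : Filter.Tendsto (fun X : ℝ => X ^ (49 / 50 : ℝ)) Filter.atTop Filter.atTop :=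
    tendsto_rpow_atTop (by norm_num)
  have e2 : ∀ᶠ X : ℝ in Filter.atTop, X ^ (1 / 20 : ℝ) * X ^ (-(1 / 10) : ℝ) * (2 + Real.log X) ≤ 1 / 4 := by
    have h1 := (isLittleO_log_rpow_atTop (show (0 : ℝ) < 1 / 20 by norm_num)).bound (show (0 : ℝ) < 1 / 8 by norm_num)
    have h2 : Filter.Tendsto (fun X : ℝ => X ^ (1 / 20 : ℝ)) Filter.atTop Filter.atTop :=
      tendsto_rpow_atTop (by norm_num)
    filter_upwards [h1, h2.eventually_ge_atTop 16, Filter.eventually_ge_atTop (1 : ℝ)] with X h3 h4 h5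
    have hX0 : 0 < X := by linarith
    rw [Real.norm_of_nonneg (Real.log_nonneg h5), Real.norm_of_nonneg (Real.rpow_nonneg hX0.le _)] at h3
    have h6 : X ^ (1 / 20 : ℝ) * X ^ (-(1 / 10) : ℝ) = (X ^ (1 / 20 : ℝ))⁻¹ := by
      rw [← Real.rpow_add hX0, ← Real.rpow_neg hX0.le]
      norm_num
    have h7 : 0 < X ^ (1 / 20 : ℝ) := by linarith
    rw [h6, inv_mul_le_iff₀ h7]
    linarith
  obtain ⟨Xg, hXg⟩ := Filter.eventually_atTop.1 ((e1.eventually_ge_atTop (H : ℝ)).and e2)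
  refine ⟨T0, max 3 (max Xp (max Xd (max Xk Xg))), le_max_left _ _, fun X hX B hBt hB hBc => ?_⟩
  have hX3 : 3 ≤ X := (le_max_left _ _).trans hX
  have hX' := (le_max_right _ _).trans hX
  have hXp : Xp ≤ X := (le_max_left _ _).trans hX'
  have hX'' := (le_max_right _ _).trans hX'
  have hXd : Xd ≤ X := (le_max_left _ _).trans hX''
  have hX''' := (le_max_right _ _).trans hX''
  have hXk : Xk ≤ X := (le_max_left _ _).trans hX'''
  have hXgX : Xg ≤ X := (le_max_right _ _).trans hX'''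
  obtain ⟨hHY, hg2⟩ := hXg X hXgX
  have hX0 : 0 < X := by linarith
  have hX1 : 1 ≤ X := by linarith
  obtain ⟨a, b, hab, hKV, hXa, hbX, hVlog⟩ := hpar X hXp
  have hV1 : 1 ≤ VV (PW H a b) := (le_max_left _ _).trans hKV
  have hVs : (6 * 6 / (c * s)) ^ 2 ≤ VV (PW H a b) := (le_max_right _ _).trans hKV
  have hK := hker X hXk B fun t ht => (hBt t ht).2
  set D : ℝ := Real.exp ((b : ℝ) / H) with hD
  have hD1 : 1 ≤ D := Real.one_le_exp (by positivity)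
  set Y0 : ℝ := X ^ (49 / 50 : ℝ) with hY0
  have hY01 : 1 ≤ Y0 := Real.one_le_rpow hX1 (by norm_num)
  have hρ : 0 ≤ X ^ (-(1 / 10) : ℝ) := Real.rpow_nonneg hX0.le _
  have hBρ : B.card * X ^ (-(1 / 10) : ℝ) * (1 + VV (PW H a b)) ≤ 1 / 4 := by
    refine le_trans ?_ hg2
    refine mul_le_mul (mul_le_mul_of_nonneg_right hBc hρ) hVlog (by linarith) ?_
    exact mul_nonneg (Real.rpow_nonneg hX0.le _) hρ
  have hBρ1 : B.card * X ^ (-(1 / 10) : ℝ) ≤ 1 := by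
    have h1 : 0 ≤ B.card * X ^ (-(1 / 10) : ℝ) := mul_nonneg (Nat.cast_nonneg _) hρ
    nlinarith
  have hDX : D ≤ X := by
    have h1 : D ≤ D ^ (m + 2) := le_self_pow₀ hD1 (by omega)
    have h2 : X ^ (1 / 100 : ℝ) ≤ X ^ (1 : ℝ) := Real.rpow_le_rpow_of_exponent_le hX1 (by norm_num)
    rw [Real.rpow_one] at h2
    exact h1.trans (hbX.trans h2)
  have hwin : ∀ t ∈ B, ∀ j ∈ Ico a b,
      ‖∑ p ∈ win (Real.exp ((j : ℝ) / H)) H, (1 / (p : ℂ)) * (lc0 χ p * cit (-t) p)‖ ≤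
        (1 - c / 2) * ∑ p ∈ win (Real.exp ((j : ℝ) / H)) H, (1 : ℝ) / p := by
    intro t ht j hj
    rw [mem_Ico] at hj
    refine big_win χ t c _ H hc0 (by linarith) hHc (Real.one_le_exp (by positivity)) ?_
    have h1 : X ^ β ≤ Real.exp ((j : ℝ) / H) := by
      refine hXa.trans (Real.exp_le_exp.2 ?_)
      exact div_le_div_of_nonneg_right (by exact_mod_cast hj.1) (Nat.cast_nonneg _)
    have h2 : Real.exp ((j : ℝ) / H) ≤ X := by
      refine le_trans (Real.exp_le_exp.2 ?_) hDX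
      exact div_le_div_of_nonneg_right (by exact_mod_cast hj.2.le) (Nat.cast_nonneg _)
    exact hd X hXd (-t) (by rw [abs_neg]; exact (hBt t ht).1) (by rw [abs_neg]; exact (hBt t ht).2) _ h1 h2
  have hit := iter (fun v => √(EE (lc0 χ) B v)) 6 (c / 2) (6 / √(VV (PW H a b)) + 15 / √(H : ℝ)) D (Y0 * D) (2 * X)
    hD1 (by positivity) (by linarith) (by linarith) (by positivity) (by norm_num)
    (fun v hv hv1 => by
      have hv0 : Y0 ≤ v := (le_mul_of_one_le_right (by linarith) hD1).trans hv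
      have h1 := Pool.Agent.Lib.MP_9fe581_an.EXC.ee_le hB hY01 hρ hK hBρ1 hv0 hv1 (lc0_cm χ)
      show √(EE (lc0 χ) B v) ≤ 6
      rw [Real.sqrt_le_left (by norm_num)]
      linarith)
    (fun v hv hv1 M hM0 hM => by
      refine contr hB hY01 hρ hK H a b (by omega) hHY hab hBρ (by linarith) (lc0_cm χ) (c / 2) (by linarith)
        (by linarith) hwin ?_ hv1 hM0 hM
      calc Y0 * D ^ 2 = Y0 * D * D := by ring
        _ ≤ v := hv)
    m X ?_ (by linarith)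
  · have h1 : 6 / √(VV (PW H a b)) * (2 / c) ≤ s / 3 := big_sqrt hs0 hc0 (by norm_num) hVs
    have h2 : 15 / √(H : ℝ) * (2 / c) ≤ s / 3 := big_sqrt hs0 hc0 (by norm_num) hHs
    have h3 : (6 / √(VV (PW H a b)) + 15 / √(H : ℝ)) / (c / 2) =
        6 / √(VV (PW H a b)) * (2 / c) + 15 / √(H : ℝ) * (2 / c) := by
      rw [div_div_eq_mul_div, add_mul, add_div]
      ring
    have h4 : √(EE (lc0 χ) B X) ≤ s := by
      refine hit.trans ?_
      rw [h3]
      linarith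
    have h5 : 0 ≤ EE (lc0 χ) B X := by
      unfold EE
      positivity
    rw [hs] at h4
    exact (Real.sqrt_le_sqrt_iff hη.le).1 h4
  · calc Y0 * D * D ^ m = Y0 * D ^ (m + 1) := by ring
      _ ≤ Y0 * D ^ (m + 2) := mul_le_mul_of_nonneg_left (pow_le_pow_right₀ hD1 (by omega)) (by linarith)
      _ ≤ Y0 * X ^ (1 / 100 : ℝ) := mul_le_mul_of_nonneg_left hbX (by linarith)
      _ = X ^ (99 / 100 : ℝ) := by
          rw [hY0, ← Real.rpow_add hX0]
          norm_num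
      _ ≤ X ^ (1 : ℝ) := Real.rpow_le_rpow_of_exponent_le hX1 (by norm_num)
      _ = X := Real.rpow_one X

end Pool.Agent.Lib.DN
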