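import Pool.Agent.Lib.DN.Split
import Pool.Agent.Lib.MP_9fe581_an.EXC.Short

/-!
# The contraction step
-/

set_option autoImplicit false

open Finset

namespace Pool.Agent.Lib.DN

open Pool.Agent.Lib.MP_9fe581_an.EXC (cit MM EE Sep Ker CM norm_cit)

/-- the norm of `l2(B)` -/
noncomputable def ctrN (B : Finset ℝ) (g : ℝ → ℂ) : ℝ := √(∑ t ∈ B, ‖g t‖ ^ 2)

theorem ctrN_eq (B : Finset ℝ) (g : ℝ → ℂ) :
    ctrN B g = ‖(WithLp.toLp 2 (fun t : B => g t) : EuclideanSpace ℂ B)‖ := by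
  rw [EuclideanSpace.norm_eq, ctrN]
  congr 1
  exact (Finset.sum_coe_sort B (fun t => ‖g t‖ ^ 2)).symm

theorem ctrN_add (B : Finset ℝ) (g h : ℝ → ℂ) : ctrN B (fun t => g t + h t) ≤ ctrN B g + ctrN B h := by
  rw [ctrN_eq, ctrN_eq, ctrN_eq]
  exact norm_add_le (WithLp.toLp 2 (fun t : B => g t) : EuclideanSpace ℂ B) (WithLp.toLp 2 (fun t : B => h t))

theorem ctrN_zero (B : Finset ℝ) : ctrN B (fun _ => 0) = 0 := by
  simp [ctrN]

theorem ctrN_sum {ι : Type*} (B : Finset ℝ) (s : Finset ι) (g : ι → ℝ → ℂ) :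
    ctrN B (fun t => ∑ i ∈ s, g i t) ≤ ∑ i ∈ s, ctrN B (g i) := by
  classical
  induction s using Finset.induction_on with
  | empty => simp [ctrN_zero]
  | insert i s hi ih =>
    rw [Finset.sum_insert hi]
    have h1 : (fun t => ∑ j ∈ insert i s, g j t) = fun t => g i t + ∑ j ∈ s, g j t := by
      funext t
      rw [Finset.sum_insert hi]
    rw [h1]
    exact (ctrN_add B (g i) (fun t => ∑ j ∈ s, g j t)).trans (by linarith)

theorem ctrN_mul_le (B : Finset ℝ) (a g : ℝ → ℂ) (k : ℝ) (hk : 0 ≤ k) (ha : ∀ t ∈ B, ‖a t‖ ≤ k) :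
    ctrN B (fun t => a t * g t) ≤ k * ctrN B g := by
  unfold ctrN
  rw [← Real.sqrt_sq hk, ← Real.sqrt_mul (sq_nonneg k)]
  refine Real.sqrt_le_sqrt ?_
  rw [Finset.mul_sum]
  refine Finset.sum_le_sum fun t ht => ?_
  rw [norm_mul, mul_pow]
  exact mul_le_mul_of_nonneg_right (pow_le_pow_left₀ (norm_nonneg _) (ha t ht) 2) (sq_nonneg _)

theorem ctrN_le_of_sq {B : Finset ℝ} {g : ℝ → ℂ} {K : ℝ} (h : ∑ t ∈ B, ‖g t‖ ^ 2 ≤ K) : ctrN B g ≤ √K :=
  Real.sqrt_le_sqrt h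

theorem ctr_win {H j p : ℕ} (hp : p ∈ win (Real.exp ((j : ℝ) / H)) H) :
    Real.exp ((j : ℝ) / H) ≤ p ∧ (p : ℝ) ≤ Real.exp ((j : ℝ) / H) * Real.exp (1 / (H : ℝ)) := by
  unfold win at hp
  rw [Finset.mem_filter, Finset.mem_Ioc] at hp
  constructor
  · exact (Nat.lt_of_floor_lt hp.1.1).le
  · exact (Nat.le_floor_iff (by positivity)).1 hp.1.2

theorem contr {B : Finset ℝ} (hB : Sep B) {Y0 Y1 ρ : ℝ} (hY0 : 1 ≤ Y0) (hρ : 0 ≤ ρ) (hK : Ker B Y0 Y1 ρ)
    (H a b : ℕ) (hH : 1 ≤ H) (hHY : (H : ℝ) ≤ Y0) (hab : a ≤ b)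
    (hBρ : B.card * ρ * (1 + VV (PW H a b)) ≤ 1 / 4) (hV : 0 < VV (PW H a b))
    {f : ℕ → ℂ} (hf : CM f) (c : ℝ) (hc : 0 ≤ c) (hc1 : c ≤ 1)
    (hwin : ∀ t ∈ B, ∀ j ∈ Ico a b, ‖∑ p ∈ win (Real.exp ((j : ℝ) / H)) H, (1 / (p : ℂ)) * (f p * cit (-t) p)‖ ≤
      (1 - c) * ∑ p ∈ win (Real.exp ((j : ℝ) / H)) H, (1 : ℝ) / p)
    {v : ℝ} (hv : Y0 * Real.exp ((b : ℝ) / H) ^ 2 ≤ v) (hv1 : v ≤ Y1) {M : ℝ} (hM0 : 0 ≤ M)
    (hM : ∀ y : ℝ, v / Real.exp ((b : ℝ) / H) ≤ y → y ≤ v → √(EE f B y) ≤ M) :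
    √(EE f B v) ≤ (1 - c) * M + (6 / √(VV (PW H a b)) + 15 / √(H : ℝ)) := by
  have hH0 : (0 : ℝ) < H := by exact_mod_cast hH
  have hH1 : (1 : ℝ) ≤ H := by exact_mod_cast hH
  set V : ℝ := VV (PW H a b) with hVd
  set E : ℝ := Real.exp ((b : ℝ) / H) with hE
  have hE1 : 1 ≤ E := Real.one_le_exp (by positivity)
  have hE0 : 0 < E := by linarith
  have hE2 : 1 ≤ E ^ 2 := one_le_pow₀ hE1
  have hvY : Y0 * E ≤ v := by
    refine le_trans ?_ hv
    refine mul_le_mul_of_nonneg_left ?_ (by linarith)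
    nlinarith
  have hvY0 : Y0 ≤ v := by nlinarith
  have hv0 : 0 < v := by linarith
  have hBρ1 : (B.card : ℝ) * ρ ≤ 1 := by
    have h1 : 0 ≤ (B.card : ℝ) * ρ := by positivity
    nlinarith
  -- the exponentials of the windows
  have hej : ∀ j ∈ Ico a b, 1 ≤ Real.exp ((j : ℝ) / H) ∧ Real.exp ((j : ℝ) / H) * Real.exp (1 / (H : ℝ)) ≤ E := by
    intro j hj
    refine ⟨Real.one_le_exp (by positivity), ?_⟩
    rw [← Real.exp_add, hE]
    refine Real.exp_le_exp.2 ?_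
    rw [← add_div]
    refine div_le_div_of_nonneg_right ?_ hH0.le
    have := (Finset.mem_Ico.1 hj).2
    exact_mod_cast this
  have hexp1 : 1 ≤ Real.exp (1 / (H : ℝ)) := Real.one_le_exp (by positivity)
  -- the decomposition
  have hdec : ∀ t, (V : ℂ) * MM f v t =
      ((∑ p ∈ PW H a b, 1 / (p : ℂ)) * MM f v t -
        ∑ p ∈ PW H a b, (1 / (p : ℂ)) * (f p * cit (-t) p * MM f (v / p) t)) +
      ((∑ j ∈ Ico a b, ∑ p ∈ win (Real.exp ((j : ℝ) / H)) H,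
        (1 / (p : ℂ)) * (f p * cit (-t) p) * (MM f (v / p) t - MM f (v / Real.exp ((j : ℝ) / H)) t)) +
      ∑ j ∈ Ico a b, (∑ p ∈ win (Real.exp ((j : ℝ) / H)) H, (1 / (p : ℂ)) * (f p * cit (-t) p)) *
        MM f (v / Real.exp ((j : ℝ) / H)) t) := by
    intro t
    have h1 : (V : ℂ) = ∑ p ∈ PW H a b, 1 / (p : ℂ) := by
      rw [hVd, VV]
      push_cast
      rfl
    rw [h1, ← Finset.sum_add_distrib, sum_PW H a b hH hab
      (fun p => (1 / (p : ℂ)) * (f p * cit (-t) p * MM f (v / p) t))]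
    have h2 : ∑ j ∈ Ico a b, ∑ p ∈ win (Real.exp ((j : ℝ) / H)) H,
        (1 / (p : ℂ)) * (f p * cit (-t) p * MM f (v / p) t) =
        ∑ j ∈ Ico a b, (∑ p ∈ win (Real.exp ((j : ℝ) / H)) H,
        (1 / (p : ℂ)) * (f p * cit (-t) p) * (MM f (v / p) t - MM f (v / Real.exp ((j : ℝ) / H)) t) +
        (∑ p ∈ win (Real.exp ((j : ℝ) / H)) H, (1 / (p : ℂ)) * (f p * cit (-t) p)) *
        MM f (v / Real.exp ((j : ℝ) / H)) t) := by
      refine Finset.sum_congr rfl fun j _ => ?_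
      rw [Finset.sum_mul, ← Finset.sum_add_distrib]
      refine Finset.sum_congr rfl fun p _ => ?_
      ring
    rw [h2]
    ring
  -- the left side
  have hleft : V * √(EE f B v) = ctrN B (fun t => (V : ℂ) * MM f v t) := by
    unfold ctrN EE
    rw [← Real.sqrt_sq hV.le, ← Real.sqrt_mul (sq_nonneg V)]
    congr 1
    rw [Finset.mul_sum]
    refine Finset.sum_congr rfl fun t _ => ?_
    rw [norm_mul, mul_pow, Complex.norm_real, Real.norm_eq_abs, sq_abs, Real.sqrt_sq hV.le]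
  -- first part
  have hfirst : ctrN B (fun t => (∑ p ∈ PW H a b, 1 / (p : ℂ)) * MM f v t -
        ∑ p ∈ PW H a b, (1 / (p : ℂ)) * (f p * cit (-t) p * MM f (v / p) t)) ≤ √(30 * V) := by
    refine ctrN_le_of_sq ?_
    refine Pool.Agent.Lib.MP_9fe581_an.EXC.tkf_mean hB hY0 hρ hK (PW H a b) ?_ (P0 := E) ?_ ?_ hv hvY0 hv1 hf
    · intro p hp
      unfold PW at hp
      exact (Finset.mem_filter.1 hp).2
    · intro p hp
      unfold PW at hp
      exact (Nat.le_floor_iff hE0.le).1 (Finset.mem_Ioc.1 (Finset.mem_filter.1 hp).1).2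
    · exact hBρ
  -- second part
  have hsecond : ctrN B (fun t => ∑ j ∈ Ico a b, ∑ p ∈ win (Real.exp ((j : ℝ) / H)) H,
        (1 / (p : ℂ)) * (f p * cit (-t) p) * (MM f (v / p) t - MM f (v / Real.exp ((j : ℝ) / H)) t)) ≤
      V * √(200 * (1 / (H : ℝ))) := by
    refine (ctrN_sum B _ _).trans ?_
    have h1 : V = ∑ j ∈ Ico a b, ∑ p ∈ win (Real.exp ((j : ℝ) / H)) H, (1 : ℝ) / p := by
      rw [hVd, VV, sum_PW H a b hH hab]
    rw [h1, Finset.sum_mul]
    refine Finset.sum_le_sum fun j hj => ?_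
    refine (ctrN_sum B _ _).trans ?_
    rw [Finset.sum_mul]
    refine Finset.sum_le_sum fun p hp => ?_
    obtain ⟨hj1, hj2⟩ := hej j hj
    obtain ⟨hp1, hp2⟩ := ctr_win hp
    have hej0 : 0 < Real.exp ((j : ℝ) / H) := Real.exp_pos _
    have hp0 : (0 : ℝ) < p := by linarith
    refine (ctrN_mul_le B _ _ (1 / (p : ℝ)) (by positivity) ?_).trans ?_
    · intro t _
      rw [norm_mul, norm_mul, norm_cit, mul_one, norm_div, norm_one, Complex.norm_natCast]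
      exact mul_le_of_le_one_right (by positivity) (hf.le p)
    · refine mul_le_mul_of_nonneg_left ?_ (by positivity)
      refine ctrN_le_of_sq ?_
      have hpE : (p : ℝ) ≤ E := hp2.trans hj2
      have h3 : Y0 ≤ v / p := by
        rw [le_div_iff₀ hp0]
        exact (mul_le_mul_of_nonneg_left hpE (by linarith)).trans hvY
      have h4 := Pool.Agent.Lib.MP_9fe581_an.EXC.lip hB hY0 hρ hK hBρ1 (v := v / Real.exp ((j : ℝ) / H))
        (v' := v / p) (h := 1 / (H : ℝ)) h3 (div_le_div_of_nonneg_left hv0.le hej0 hp1)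
        ((div_le_self hv0.le hj1).trans hv1) ?_ ?_ ?_ hf
      · refine le_trans (le_of_eq ?_) h4
        refine Finset.sum_congr rfl fun t _ => ?_
        rw [norm_sub_rev]
      · rw [div_mul_eq_mul_div, div_le_div_iff₀ hej0 hp0]
        nlinarith
      · exact one_div_le_one_div_of_le hH0 (hHY.trans h3)
      · rw [div_le_one hH0]
        exact hH1
  -- third part
  have hthird : ctrN B (fun t => ∑ j ∈ Ico a b, (∑ p ∈ win (Real.exp ((j : ℝ) / H)) H,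
      (1 / (p : ℂ)) * (f p * cit (-t) p)) * MM f (v / Real.exp ((j : ℝ) / H)) t) ≤ V * ((1 - c) * M) := by
    refine (ctrN_sum B _ _).trans ?_
    have h1 : V = ∑ j ∈ Ico a b, ∑ p ∈ win (Real.exp ((j : ℝ) / H)) H, (1 : ℝ) / p := by
      rw [hVd, VV, sum_PW H a b hH hab]
    rw [h1, Finset.sum_mul]
    refine Finset.sum_le_sum fun j hj => ?_
    obtain ⟨hj1, hj2⟩ := hej j hj
    have hej0 : 0 < Real.exp ((j : ℝ) / H) := Real.exp_pos _
    have hS0 : 0 ≤ ∑ p ∈ win (Real.exp ((j : ℝ) / H)) H, (1 : ℝ) / p :=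
      Finset.sum_nonneg fun p _ => by positivity
    refine (ctrN_mul_le B _ _ ((1 - c) * ∑ p ∈ win (Real.exp ((j : ℝ) / H)) H, (1 : ℝ) / p)
      (mul_nonneg (by linarith) hS0) (fun t ht => hwin t ht j hj)).trans ?_
    have h2 : ctrN B (fun t => MM f (v / Real.exp ((j : ℝ) / H)) t) ≤ M := by
      refine hM _ ?_ (div_le_self hv0.le hj1)
      refine div_le_div_of_nonneg_left hv0.le hej0 ?_
      nlinarith
    calc _ ≤ ((1 - c) * ∑ p ∈ win (Real.exp ((j : ℝ) / H)) H, (1 : ℝ) / p) * M :=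
          mul_le_mul_of_nonneg_left h2 (mul_nonneg (by linarith) hS0)
      _ = _ := by ring
  -- together
  have hall : V * √(EE f B v) ≤ √(30 * V) + (V * √(200 * (1 / (H : ℝ))) + V * ((1 - c) * M)) := by
    rw [hleft]
    have h1 : (fun t => (V : ℂ) * MM f v t) = _ := funext hdec
    rw [h1]
    refine (ctrN_add B _ _).trans ?_
    refine add_le_add hfirst ?_
    refine (ctrN_add B _ _).trans ?_
    exact add_le_add hsecond hthird
  have hsV : 0 < √V := Real.sqrt_pos.2 hV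
  have hsV2 : √V * √V = V := Real.mul_self_sqrt hV.le
  have h30 : √(30 * V) ≤ V * (6 / √V) := by
    have h1 : V * (6 / √V) = 6 * √V := by
      field_simp
      nlinarith
    rw [h1, Real.sqrt_mul (by norm_num)]
    refine mul_le_mul_of_nonneg_right ?_ hsV.le
    rw [Real.sqrt_le_left (by norm_num)]
    norm_num
  have h200 : √(200 * (1 / (H : ℝ))) ≤ 15 / √(H : ℝ) := by
    rw [Real.sqrt_mul (by norm_num), Real.sqrt_div (by norm_num), Real.sqrt_one, mul_one_div]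
    refine div_le_div_of_nonneg_right ?_ (Real.sqrt_nonneg _)
    rw [Real.sqrt_le_left (by norm_num)]
    norm_num
  have hfin : V * √(EE f B v) ≤ V * ((1 - c) * M + (6 / √V + 15 / √(H : ℝ))) := by
    have h1 : V * √(200 * (1 / (H : ℝ))) ≤ V * (15 / √(H : ℝ)) := mul_le_mul_of_nonneg_left h200 hV.le
    nlinarith
  exact le_of_mul_le_mul_left hfin hV

end Pool.Agent.Lib.DN
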