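import Mathlib

/-!
# Duality with a majorant
-/

set_option autoImplicit false

open Finset

namespace Pool.Agent.Lib.DN

/-- module P2 (Dual.lean): duality with a majorant -/
theorem dual_maj (S Q : Finset ℕ) (hQ : Q ⊆ S) (w : ℕ → ℝ) (hw : ∀ n ∈ S, 0 ≤ w n) (hw1 : ∀ p ∈ Q, 1 ≤ w p)
    (z : ℕ → ℂ) (hz : ∀ n ∈ S, ‖z n‖ ≤ 1) (J : ℕ) (W D : ℝ) (hW : ∑ n ∈ S, w n ≤ W) (hD : 0 ≤ D)
    (hoff : ∀ j ∈ Icc 1 J, ∀ j' ∈ Icc 1 J, j ≠ j' →
      ‖∑ n ∈ S, (w n : ℂ) * (z n ^ j * (starRingEnd ℂ) (z n) ^ j')‖ ≤ D) :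
    ∑ j ∈ Icc 1 J, ‖∑ p ∈ Q, z p ^ j‖ ^ 2 ≤ Q.card * (W + J * D) := by
  classical
  set s : ℕ → ℂ := fun j => ∑ p ∈ Q, z p ^ j with hs
  set F : ℕ → ℂ := fun n => ∑ j ∈ Icc 1 J, (starRingEnd ℂ) (s j) * z n ^ j with hF
  set T : ℝ := ∑ j ∈ Icc 1 J, ‖s j‖ ^ 2 with hT
  change T ≤ _
  have hT0 : 0 ≤ T := sum_nonneg fun j _ => by positivity
  have hW0 : 0 ≤ W := (sum_nonneg hw).trans hW
  have h1 : (T : ℂ) = ∑ p ∈ Q, F p := by
    rw [hF, sum_comm]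
    simp only [← mul_sum]
    rw [hT]
    push_cast
    refine sum_congr rfl fun j _ => ?_
    exact (Complex.conj_mul' (s j)).symm
  have h2 : T ^ 2 ≤ Q.card * ∑ p ∈ Q, ‖F p‖ ^ 2 := by
    have h : T ≤ ∑ p ∈ Q, ‖F p‖ := by
      calc T = ‖(T : ℂ)‖ := by rw [Complex.norm_real, Real.norm_of_nonneg hT0]
        _ = ‖∑ p ∈ Q, F p‖ := by rw [h1]
        _ ≤ _ := norm_sum_le _ _
    calc T ^ 2 ≤ (∑ p ∈ Q, ‖F p‖) ^ 2 := by gcongr
      _ ≤ _ := sq_sum_le_card_mul_sum_sq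
  have h3 : ∑ p ∈ Q, ‖F p‖ ^ 2 ≤ ∑ n ∈ S, w n * ‖F n‖ ^ 2 := by
    calc ∑ p ∈ Q, ‖F p‖ ^ 2 ≤ ∑ p ∈ Q, w p * ‖F p‖ ^ 2 :=
          sum_le_sum fun p hp => by nlinarith [hw1 p hp, sq_nonneg ‖F p‖]
      _ ≤ _ := sum_le_sum_of_subset_of_nonneg hQ
          (fun n hn _ => mul_nonneg (hw n hn) (sq_nonneg _))
  have h4 : ((∑ n ∈ S, w n * ‖F n‖ ^ 2 : ℝ) : ℂ) = ∑ j ∈ Icc 1 J, ∑ j' ∈ Icc 1 J,
      ((starRingEnd ℂ) (s j) * s j') *
        ∑ n ∈ S, (w n : ℂ) * (z n ^ j * (starRingEnd ℂ) (z n) ^ j') := by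
    have h : ∀ n, ((‖F n‖ : ℂ)) ^ 2 = ∑ j ∈ Icc 1 J, ∑ j' ∈ Icc 1 J,
        ((starRingEnd ℂ) (s j) * s j') * (z n ^ j * (starRingEnd ℂ) (z n) ^ j') := by
      intro n
      rw [← Complex.mul_conj', hF]
      simp only [map_sum, map_mul, map_pow, Complex.conj_conj]
      rw [sum_mul_sum]
      refine sum_congr rfl fun j _ => sum_congr rfl fun j' _ => ?_
      ring
    push_cast
    simp_rw [h, mul_sum]
    rw [sum_comm]
    refine sum_congr rfl fun j _ => ?_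
    rw [sum_comm]
    refine sum_congr rfl fun j' _ => sum_congr rfl fun n _ => ?_
    ring
  have h5 : ∑ n ∈ S, w n * ‖F n‖ ^ 2 ≤ (W + J * D) * T := by
    have hnn : 0 ≤ ∑ n ∈ S, w n * ‖F n‖ ^ 2 :=
      sum_nonneg fun n hn => mul_nonneg (hw n hn) (sq_nonneg _)
    have hb : ∀ j ∈ Icc 1 J, ∀ j' ∈ Icc 1 J,
        ‖((starRingEnd ℂ) (s j) * s j') *
          ∑ n ∈ S, (w n : ℂ) * (z n ^ j * (starRingEnd ℂ) (z n) ^ j')‖ ≤
        (if j = j' then W * ‖s j‖ ^ 2 else 0) + D * (‖s j‖ * ‖s j'‖) := by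
      intro j hj j' hj'
      rw [norm_mul, norm_mul, RCLike.norm_conj]
      have h0 : 0 ≤ ‖s j‖ * ‖s j'‖ := by positivity
      by_cases hjj : j = j'
      · subst hjj
        rw [if_pos rfl]
        have hd : ‖∑ n ∈ S, (w n : ℂ) * (z n ^ j * (starRingEnd ℂ) (z n) ^ j)‖ ≤ W := by
          refine (norm_sum_le _ _).trans (le_trans (sum_le_sum fun n hn => ?_) hW)
          rw [norm_mul, norm_mul, norm_pow, norm_pow, RCLike.norm_conj, Complex.norm_real,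
            Real.norm_of_nonneg (hw n hn)]
          have hz1 : ‖z n‖ ^ j * ‖z n‖ ^ j ≤ 1 := by
            have := pow_le_one₀ (n := j) (norm_nonneg (z n)) (hz n hn)
            have h00 : 0 ≤ ‖z n‖ ^ j := by positivity
            nlinarith
          nlinarith [hw n hn]
        nlinarith [mul_le_mul_of_nonneg_left hd h0, mul_nonneg hD h0]
      · rw [if_neg hjj, zero_add, mul_comm D]
        exact mul_le_mul_of_nonneg_left (hoff j hj j' hj' hjj) h0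
    have hc : (∑ j ∈ Icc 1 J, ‖s j‖) ^ 2 ≤ J * T := by
      have h := sq_sum_le_card_mul_sum_sq (s := Icc 1 J) (f := fun j => ‖s j‖)
      simpa using h
    calc ∑ n ∈ S, w n * ‖F n‖ ^ 2 = ‖((∑ n ∈ S, w n * ‖F n‖ ^ 2 : ℝ) : ℂ)‖ := by
          rw [Complex.norm_real, Real.norm_of_nonneg hnn]
      _ ≤ ∑ j ∈ Icc 1 J, ∑ j' ∈ Icc 1 J,
          ((if j = j' then W * ‖s j‖ ^ 2 else 0) + D * (‖s j‖ * ‖s j'‖)) := by
          rw [h4]
          exact (norm_sum_le _ _).trans (sum_le_sum fun j hj =>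
            (norm_sum_le _ _).trans (sum_le_sum fun j' hj' => hb j hj j' hj'))
      _ = W * T + D * (∑ j ∈ Icc 1 J, ‖s j‖) ^ 2 := by
          simp only [sum_add_distrib]
          congr 1
          · rw [hT, mul_sum]
            refine sum_congr rfl fun j hj => ?_
            rw [sum_ite_eq, if_pos hj]
          · rw [sq, sum_mul_sum, mul_sum]
            refine sum_congr rfl fun j _ => ?_
            rw [mul_sum]
      _ ≤ W * T + D * (J * T) := by gcongr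
      _ = (W + J * D) * T := by ring
  rcases hT0.eq_or_lt with h | h
  · rw [← h]
    positivity
  · have h6 : T * T ≤ (Q.card * (W + J * D)) * T := by
      calc T * T = T ^ 2 := by ring
        _ ≤ Q.card * ∑ p ∈ Q, ‖F p‖ ^ 2 := h2
        _ ≤ Q.card * ((W + J * D) * T) := by gcongr; exact h3.trans h5
        _ = _ := by ring
    exact le_of_mul_le_mul_right h6 h

end Pool.Agent.Lib.DN
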