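import Pool.Agent.Lib.DN.Defs

/-!
# Powers of unit complex numbers whose sum is nearly maximal
-/

set_option autoImplicit false

open Finset

namespace Pool.Agent.Lib.DN

private lemma pow_aux (a : ℂ) (ha : ‖a‖ = 1) (j : ℕ) :
    1 - (a ^ j).re ≤ (j : ℝ) ^ 2 * (1 - a.re) := by
  have hsq : ∀ b : ℂ, ‖b‖ = 1 → ‖1 - b‖ ^ 2 = 2 - 2 * b.re := by
    intro b hb
    have h1 : b.re * b.re + b.im * b.im = 1 := by
      have := Complex.normSq_eq_norm_sq b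
      rw [hb, Complex.normSq_apply] at this
      linarith
    rw [← Complex.normSq_eq_norm_sq, Complex.normSq_apply]
    simp only [Complex.sub_re, Complex.one_re, Complex.sub_im, Complex.one_im]
    nlinarith
  have hj : ‖1 - a ^ j‖ ≤ j * ‖1 - a‖ := by
    induction j with
    | zero => simp
    | succ j ih =>
      have h1 : 1 - a ^ (j + 1) = (1 - a ^ j) + a ^ j * (1 - a) := by ring
      rw [h1]
      refine (norm_add_le _ _).trans ?_
      rw [norm_mul, norm_pow, ha, one_pow, one_mul]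
      push_cast
      linarith
  have h1 : ‖1 - a ^ j‖ ^ 2 ≤ (j * ‖1 - a‖) ^ 2 := pow_le_pow_left₀ (norm_nonneg _) hj 2
  rw [mul_pow, hsq a ha, hsq (a ^ j) (by rw [norm_pow, ha, one_pow])] at h1
  linarith

theorem pow_close {ι : Type*} (s : Finset ι) (z : ι → ℂ) (hz : ∀ i ∈ s, ‖z i‖ = 1) (c : ℝ)
    (h : (1 - c) * s.card ≤ ‖∑ i ∈ s, z i‖) (j : ℕ) :
    (1 - (j : ℝ) ^ 2 * c) * s.card ≤ ‖∑ i ∈ s, z i ^ j‖ := by
  obtain ⟨u, hu, hu2⟩ : ∃ u : ℂ, ‖u‖ = 1 ∧ u * ∑ i ∈ s, z i = (‖∑ i ∈ s, z i‖ : ℝ) := by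
    by_cases h0 : ∑ i ∈ s, z i = 0
    · exact ⟨1, norm_one, by rw [h0]; simp⟩
    · have h1 : (‖∑ i ∈ s, z i‖ : ℂ) ≠ 0 := by
        exact_mod_cast norm_ne_zero_iff.2 h0
      refine ⟨(starRingEnd ℂ) (∑ i ∈ s, z i) / (‖∑ i ∈ s, z i‖ : ℝ), ?_, ?_⟩
      · rw [norm_div, RCLike.norm_conj, Complex.norm_real, norm_norm,
          div_self (norm_ne_zero_iff.2 h0)]
      · rw [div_mul_eq_mul_div, mul_comm, Complex.mul_conj, Complex.normSq_eq_norm_sq]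
        push_cast
        rw [sq, mul_div_assoc, div_self h1, mul_one]
  have ha : ∀ i ∈ s, ‖u * z i‖ = 1 := by
    intro i hi
    rw [norm_mul, hu, hz i hi, one_mul]
  have h1 : ∑ i ∈ s, (u * z i).re = ‖∑ i ∈ s, z i‖ := by
    rw [← Complex.re_sum, ← Finset.mul_sum, hu2, Complex.ofReal_re]
  have h2 : ∑ i ∈ s, (1 - ((u * z i) ^ j).re) ≤ (j : ℝ) ^ 2 * ∑ i ∈ s, (1 - (u * z i).re) := by
    rw [Finset.mul_sum]
    exact Finset.sum_le_sum fun i hi => pow_aux _ (ha i hi) j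
  rw [Finset.sum_sub_distrib, Finset.sum_sub_distrib, h1, Finset.sum_const, nsmul_eq_mul,
    mul_one] at h2
  have h3 : ∑ i ∈ s, ((u * z i) ^ j).re ≤ ‖∑ i ∈ s, z i ^ j‖ := by
    rw [← Complex.re_sum]
    refine (Complex.re_le_norm _).trans ?_
    have h4 : ∑ i ∈ s, (u * z i) ^ j = u ^ j * ∑ i ∈ s, z i ^ j := by
      rw [Finset.mul_sum]
      exact Finset.sum_congr rfl fun i _ => mul_pow _ _ _
    rw [h4, norm_mul, norm_pow, hu, one_pow, one_mul]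
  have h5 : (j : ℝ) ^ 2 * ((s.card : ℝ) - ‖∑ i ∈ s, z i‖) ≤ (j : ℝ) ^ 2 * (c * s.card) := by
    refine mul_le_mul_of_nonneg_left ?_ (sq_nonneg _)
    linarith
  nlinarith

end Pool.Agent.Lib.DN
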