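import Mathlib
import Pool.Agent.Lib.DN.Dual
import Pool.Agent.Lib.DN.Pow

/-!
# The core of the density argument
-/

set_option autoImplicit false

open Finset

namespace Pool.Agent.Lib.DN

/-- module P3 (Core.lean): from P1, P2. `J = ⌈4 (C + 1)⌉₊ + 1`, `c = 1/(2 J^2)` -/
theorem dens_core (C : ℝ) (hC : 0 ≤ C) : ∃ (J : ℕ) (c : ℝ), 1 ≤ J ∧ 0 < c ∧ c ≤ 1 / 2 ∧
    ∀ (S Q : Finset ℕ), Q ⊆ S → ∀ w : ℕ → ℝ, (∀ n ∈ S, 0 ≤ w n) → (∀ p ∈ Q, 1 ≤ w p) →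
    ∀ z : ℕ → ℂ, (∀ n ∈ S, ‖z n‖ ≤ 1) → (∀ p ∈ Q, ‖z p‖ = 1) → ∑ n ∈ S, w n ≤ C * Q.card →
    (∀ j ∈ Icc 1 J, ∀ j' ∈ Icc 1 J, j ≠ j' →
      ‖∑ n ∈ S, (w n : ℂ) * (z n ^ j * (starRingEnd ℂ) (z n) ^ j')‖ ≤ Q.card / J) →
    ‖∑ p ∈ Q, z p‖ ≤ (1 - c) * Q.card := by
  set J : ℕ := ⌈4 * (C + 1)⌉₊ + 1 with hJ
  have hJ1 : 1 ≤ J := by omega
  have hJR : (1 : ℝ) ≤ J := by exact_mod_cast hJ1
  have hJ0 : (0 : ℝ) < J := by linarith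
  have hJbig : 4 * (C + 1) < J := by
    have h := Nat.le_ceil (4 * (C + 1))
    have h2 : (J : ℝ) = ⌈4 * (C + 1)⌉₊ + 1 := by rw [hJ]; push_cast; ring
    linarith
  refine ⟨J, 1 / (2 * (J : ℝ) ^ 2), hJ1, by positivity, ?_, ?_⟩
  · rw [div_le_div_iff₀ (by positivity) (by norm_num)]
    nlinarith
  intro S Q hQ w hw hw1 z hz hz1 hW hoff
  by_contra hcon
  push Not at hcon
  have hN : (0 : ℝ) < Q.card := by
    rcases Q.eq_empty_or_nonempty with h | h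
    · subst h
      simp at hcon
    · exact_mod_cast h.card_pos
  have hlow : ∀ j ∈ Icc 1 J, (Q.card : ℝ) / 2 ≤ ‖∑ p ∈ Q, z p ^ j‖ := by
    intro j hj
    rw [mem_Icc] at hj
    have h := pow_close Q z hz1 (1 / (2 * (J : ℝ) ^ 2)) hcon.le j
    refine le_trans ?_ h
    have hj2 : (j : ℝ) ^ 2 ≤ (J : ℝ) ^ 2 := by
      have : (j : ℝ) ≤ J := by exact_mod_cast hj.2
      gcongr
    have h3 : (j : ℝ) ^ 2 * (1 / (2 * (J : ℝ) ^ 2)) ≤ 1 / 2 := by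
      rw [mul_one_div, div_le_div_iff₀ (by positivity) (by norm_num)]
      linarith
    nlinarith
  have hdual := dual_maj S Q hQ w hw hw1 z hz J (C * Q.card) (Q.card / J) hW (by positivity) hoff
  have hsum : (J : ℝ) * ((Q.card : ℝ) / 2) ^ 2 ≤ ∑ j ∈ Icc 1 J, ‖∑ p ∈ Q, z p ^ j‖ ^ 2 := by
    calc (J : ℝ) * ((Q.card : ℝ) / 2) ^ 2 = ∑ j ∈ Icc 1 J, ((Q.card : ℝ) / 2) ^ 2 := by
          rw [sum_const, Nat.card_Icc, nsmul_eq_mul]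
          simp
      _ ≤ _ := sum_le_sum fun j hj => by
          have := hlow j hj
          gcongr
  have e : (Q.card : ℝ) * (C * Q.card + J * (Q.card / J)) = (Q.card : ℝ) ^ 2 * (C + 1) := by
    field_simp
  rw [e] at hdual
  have hfin : (J : ℝ) * ((Q.card : ℝ) / 2) ^ 2 ≤ (Q.card : ℝ) ^ 2 * (C + 1) := hsum.trans hdual
  have hpos : (0 : ℝ) < (Q.card : ℝ) ^ 2 := by positivity
  nlinarith

end Pool.Agent.Lib.DN
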