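import Mathlib

/-!
# Density of `χ(p) p^(it)` in short windows, and the contraction: definitions
-/

set_option autoImplicit false

open Finset

namespace Pool.Agent.Lib.DN

/-- `n ^ (i t)` -/
noncomputable def nt (t : ℝ) (n : ℕ) : ℂ := Complex.exp (Complex.I * (t * Real.log n))

/-- the primes in `(P, P e^(1/H)]` -/
noncomputable def win (P : ℝ) (H : ℕ) : Finset ℕ :=
  (Ioc ⌊P⌋₊ ⌊P * Real.exp (1 / H)⌋₊).filter Nat.Prime

/-- `∑_{n ≤ y} f(n) n^(it)` -/
noncomputable def SS (f : ℕ → ℂ) (y : ℕ) (t : ℝ) : ℂ := ∑ n ∈ Icc 1 y, f n * nt t n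

/-- `x^(1 + it) / (1 + it)` -/
noncomputable def GG (t x : ℝ) : ℂ := x * Complex.exp (Complex.I * (t * Real.log x)) / (1 + Complex.I * t)

/-- the sum with the weights `2v - n` over the multiples of `d` -/
noncomputable def KK (v d : ℕ) (u : ℝ) : ℂ :=
  ∑ n ∈ (Icc 1 (2 * v)).filter (fun n => d ∣ n), (((2 * v : ℕ) : ℝ) - n : ℝ) * nt u n

/-- number of primes of `P` which divide `n` -/
def om (P : Finset ℕ) (n : ℕ) : ℕ := (P.filter (fun p => p ∣ n)).card

/-- sum of the reciprocals -/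
noncomputable def VV (P : Finset ℕ) : ℝ := ∑ p ∈ P, (1 : ℝ) / p

/-- one-spaced set -/
def Spaced (B : Finset ℝ) : Prop := ∀ t ∈ B, ∀ t' ∈ B, t ≠ t' → 1 ≤ |t - t'|

theorem norm_nt (t : ℝ) (n : ℕ) : ‖nt t n‖ = 1 := by
  unfold nt
  rw [mul_comm, ← Complex.ofReal_mul, Complex.norm_exp_ofReal_mul_I]

theorem nt_mul (t : ℝ) {m n : ℕ} (hm : m ≠ 0) (hn : n ≠ 0) : nt t (m * n) = nt t m * nt t n := by
  unfold nt
  rw [← Complex.exp_add]
  congr 1
  rw [Nat.cast_mul, Real.log_mul (by exact_mod_cast hm) (by exact_mod_cast hn)]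
  push_cast
  ring

theorem nt_one (t : ℝ) : nt t 1 = 1 := by simp [nt]

theorem nt_add (t u : ℝ) (n : ℕ) : nt (t + u) n = nt t n * nt u n := by
  unfold nt
  rw [← Complex.exp_add]
  congr 1
  push_cast
  ring

theorem conj_nt (t : ℝ) (n : ℕ) : (starRingEnd ℂ) (nt t n) = nt (-t) n := by
  unfold nt
  rw [← Complex.exp_conj]
  congr 1
  rw [map_mul, map_mul, Complex.conj_I, Complex.conj_ofReal, Complex.conj_ofReal]
  push_cast
  ring

theorem nt_nat_mul (t : ℝ) (j n : ℕ) : nt t n ^ j = nt (j * t) n := by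
  unfold nt
  rw [← Complex.exp_nat_mul]
  congr 1
  push_cast
  ring

end Pool.Agent.Lib.DN
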