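import Pool.Agent.Lib.DN.SmallT
import Pool.Agent.Lib.DN.Big
import Pool.Agent.Lib.MRT.Defs

/-!
# Module Q10: at most `x^(1/20)` integers `j` carry little mass, for `λ χ`
-/

set_option autoImplicit false

open Finset

namespace Pool.Agent.Lib.DN

open Pool.Agent.Lib.MP_9fe581_an.EXC (cit MM EE Sep Ker CM)
open Pool.Agent.Lib.MRT (cj ExcP)

theorem exc_cj (j : ℤ) (n : ℕ) : cj j n = cit (-(j : ℝ)) (n : ℝ) := by
  unfold cj cit
  congr 1
  push_cast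
  ring

theorem exc_mm (f : ℕ → ℂ) {x : ℕ} (hx : 0 < x) (j : ℤ) :
    ‖∑ n ∈ Icc 1 x, f n * cj j n‖ ^ 2 = (x : ℝ) ^ 2 * ‖MM f (x : ℝ) (j : ℝ)‖ ^ 2 := by
  have hx0 : (x : ℝ) ≠ 0 := by exact_mod_cast hx.ne'
  have h1 : ∑ n ∈ Icc 1 x, f n * cj j n = ∑ n ∈ Icc 1 ⌊(x : ℝ)⌋₊, f n * cit (-(j : ℝ)) (n : ℝ) := by
    rw [Nat.floor_natCast]
    exact sum_congr rfl fun n _ => by rw [exc_cj]
  unfold MM
  rw [← h1, norm_div, Complex.norm_real, div_pow, Real.norm_of_nonneg (Nat.cast_nonneg x)]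
  field_simp

theorem excP0 {q : ℕ} [NeZero q] (χ : DirichletCharacter ℂ q) : ExcP (lc0 χ) := by
  classical
  intro η hη
  obtain ⟨T0, X0, hX03, hbig⟩ := exc_big χ (η / 2) (by positivity)
  set K : ℕ := 2 * ⌈|T0|⌉₊ + 1 with hK
  have hK0 : (0 : ℝ) < K := by rw [hK]; push_cast; positivity
  obtain ⟨v0, hv01, hsm⟩ := small_t χ T0 (√(η / (2 * K))) (Real.sqrt_pos.2 (by positivity))
  refine ⟨⌈max X0 v0⌉₊, fun x hx B hB hBc => ?_⟩
  have hxr : max X0 v0 ≤ x := (Nat.le_ceil _).trans (by exact_mod_cast hx)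
  have hxX : X0 ≤ x := (le_max_left _ _).trans hxr
  have hxv : v0 ≤ x := (le_max_right _ _).trans hxr
  have hx0 : 0 < x := by
    have h1 : (0 : ℝ) < x := by linarith
    exact_mod_cast h1
  have hx0r : (0 : ℝ) < x := by exact_mod_cast hx0
  -- the large ones
  set B1 := B.filter (fun j : ℤ => T0 ≤ |(j : ℝ)|) with hB1
  have hinj : Function.Injective (fun j : ℤ => (j : ℝ)) := Int.cast_injective
  have h1 : EE (lc0 χ) (B1.image (fun j : ℤ => (j : ℝ))) (x : ℝ) ≤ η / 2 := by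
    refine hbig x hxX _ ?_ ?_ ?_
    · intro t ht
      obtain ⟨j, hj, rfl⟩ := mem_image.1 ht
      exact ⟨(mem_filter.1 hj).2, hB j (mem_filter.1 hj).1⟩
    · intro t ht t' ht' hne
      obtain ⟨j, hj, rfl⟩ := mem_image.1 ht
      obtain ⟨j', hj', rfl⟩ := mem_image.1 ht'
      have h2 : j - j' ≠ 0 := by
        intro h
        apply hne
        have : j = j' := by omega
        rw [this]
      have h3 : (1 : ℤ) ≤ |j - j'| := Int.one_le_abs h2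
      have h4 : ((1 : ℤ) : ℝ) ≤ ((|j - j'| : ℤ) : ℝ) := by exact_mod_cast h3
      push_cast at h4
      exact h4
    · have h2 : ((B1.image (fun j : ℤ => (j : ℝ))).card : ℝ) ≤ B.card := by
        exact_mod_cast card_image_le.trans (card_filter_le _ _)
      exact h2.trans hBc
  have hS1 : ∑ j ∈ B1, ‖∑ n ∈ Icc 1 x, lc0 χ n * cj j n‖ ^ 2 ≤ η / 2 * (x : ℝ) ^ 2 := by
    have h2 : ∑ j ∈ B1, ‖∑ n ∈ Icc 1 x, lc0 χ n * cj j n‖ ^ 2 =
        (x : ℝ) ^ 2 * EE (lc0 χ) (B1.image (fun j : ℤ => (j : ℝ))) (x : ℝ) := by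
      unfold EE
      rw [sum_image (fun a _ b _ h => hinj h), mul_sum]
      exact sum_congr rfl fun j _ => exc_mm _ hx0 j
    rw [h2, mul_comm]
    exact mul_le_mul_of_nonneg_right h1 (by positivity)
  -- the small ones
  have hS2 : ∑ j ∈ B.filter (fun j : ℤ => ¬ T0 ≤ |(j : ℝ)|), ‖∑ n ∈ Icc 1 x, lc0 χ n * cj j n‖ ^ 2 ≤
      η / 2 * (x : ℝ) ^ 2 := by
    have hcard : ((B.filter (fun j : ℤ => ¬ T0 ≤ |(j : ℝ)|)).card : ℝ) ≤ K := by
      have h2 : B.filter (fun j : ℤ => ¬ T0 ≤ |(j : ℝ)|) ⊆ Icc (-(⌈|T0|⌉₊ : ℤ)) (⌈|T0|⌉₊ : ℤ) := by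
        intro j hj
        have h3 := (mem_filter.1 hj).2
        rw [not_le] at h3
        have h4 : |(j : ℝ)| ≤ ⌈|T0|⌉₊ := (h3.le.trans (le_abs_self _)).trans (Nat.le_ceil _)
        have h5 : ((|j| : ℤ) : ℝ) ≤ ((⌈|T0|⌉₊ : ℤ) : ℝ) := by
          push_cast
          exact h4
        have h6 : |j| ≤ (⌈|T0|⌉₊ : ℤ) := by exact_mod_cast h5
        rw [mem_Icc]
        exact abs_le.1 h6
      have h3 := card_le_card h2
      rw [Int.card_Icc] at h3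
      have h4 : (B.filter (fun j : ℤ => ¬ T0 ≤ |(j : ℝ)|)).card ≤ K := by
        rw [hK]
        omega
      exact_mod_cast h4
    have hterm : ∀ j ∈ B.filter (fun j : ℤ => ¬ T0 ≤ |(j : ℝ)|),
        ‖∑ n ∈ Icc 1 x, lc0 χ n * cj j n‖ ^ 2 ≤ (x : ℝ) ^ 2 * (η / (2 * K)) := by
      intro j hj
      have h3 := (mem_filter.1 hj).2
      rw [not_le] at h3
      have h4 := hsm x hxv j h3.le
      have h5 : MM (lc0 χ) (x : ℝ) (j : ℝ) = MM (lc χ) (x : ℝ) (j : ℝ) := by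
        unfold MM
        congr 1
        refine sum_congr rfl fun n hn => ?_
        rw [lc0_eq χ (mem_Icc.1 hn).1]
      rw [exc_mm _ hx0 j, h5]
      refine mul_le_mul_of_nonneg_left ?_ (by positivity)
      calc ‖MM (lc χ) (x : ℝ) (j : ℝ)‖ ^ 2 ≤ (√(η / (2 * K))) ^ 2 := pow_le_pow_left₀ (norm_nonneg _) h4 2
        _ = η / (2 * K) := Real.sq_sqrt (by positivity)
    refine (sum_le_sum hterm).trans ?_
    rw [sum_const, nsmul_eq_mul]
    calc ((B.filter (fun j : ℤ => ¬ T0 ≤ |(j : ℝ)|)).card : ℝ) * ((x : ℝ) ^ 2 * (η / (2 * K)))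
        ≤ K * ((x : ℝ) ^ 2 * (η / (2 * K))) := mul_le_mul_of_nonneg_right hcard (by positivity)
      _ = η / 2 * (x : ℝ) ^ 2 := by field_simp
  rw [← sum_filter_add_sum_filter_not B (fun j : ℤ => T0 ≤ |(j : ℝ)|)]
  linarith

theorem excP {q : ℕ} [NeZero q] (χ : DirichletCharacter ℂ q) : ExcP (lc χ) := by
  intro η hη
  obtain ⟨x0, h⟩ := excP0 χ η hη
  refine ⟨x0, fun x hx B hB hBc => ?_⟩
  refine le_trans (le_of_eq ?_) (h x hx B hB hBc)
  refine sum_congr rfl fun j _ => ?_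
  congr 2
  refine sum_congr rfl fun n hn => ?_
  rw [lc0_eq χ (mem_Icc.1 hn).1]

end Pool.Agent.Lib.DN
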