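import Pool.Agent.Lib.DN.Defs

/-!
# The majorant `(∑_{d ∣ n} l d)^2` and its splitting into progressions
-/

set_option autoImplicit false

open Finset

namespace Pool.Agent.Lib.DN

/-- the majorant -/
noncomputable def maj (Z : ℕ) (l : ℕ → ℝ) (n : ℕ) : ℝ := (∑ d ∈ (Icc 1 Z).filter (fun d => d ∣ n), l d) ^ 2

theorem maj_nonneg (Z : ℕ) (l : ℕ → ℝ) (n : ℕ) : 0 ≤ maj Z l n := sq_nonneg _

theorem maj_eq (Z : ℕ) (l : ℕ → ℝ) (n : ℕ) :
    maj Z l n = ∑ d ∈ Icc 1 Z, ∑ e ∈ Icc 1 Z, l d * l e * (if Nat.lcm d e ∣ n then 1 else 0) := by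
  unfold maj
  rw [sq, Finset.sum_filter, Finset.sum_mul_sum]
  apply Finset.sum_congr rfl
  intro d _
  apply Finset.sum_congr rfl
  intro e _
  by_cases hd : d ∣ n
  · by_cases he : e ∣ n
    · rw [if_pos hd, if_pos he, if_pos (Nat.lcm_dvd hd he), mul_one]
    · have : ¬ Nat.lcm d e ∣ n := fun h => he ((Nat.dvd_lcm_right d e).trans h)
      rw [if_neg he, if_neg this, mul_zero, mul_zero]
  · have : ¬ Nat.lcm d e ∣ n := fun h => hd ((Nat.dvd_lcm_left d e).trans h)
    rw [if_neg hd, if_neg this, mul_zero, zero_mul]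

theorem cls_iff (q L : ℕ) (hq : 1 ≤ q) (hL : 1 ≤ L) (h : q.Coprime L) (n s : ℕ) (hs : s < q) :
    n % (q * L) = (Nat.chineseRemainder h s 0 : ℕ) ↔ n % q = s ∧ L ∣ n := by
  have hlt := Nat.chineseRemainder_lt_mul h s 0 (by omega) (by omega)
  obtain ⟨h1, h2⟩ := (Nat.chineseRemainder h s 0).2
  constructor
  · intro hn
    have hmod : n ≡ (Nat.chineseRemainder h s 0 : ℕ) [MOD q * L] := by
      show n % _ = _ % _
      rw [Nat.mod_eq_of_lt hlt]
      exact hn
    refine ⟨?_, ?_⟩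
    · have h3 : n % q = s % q := (hmod.of_mul_right L).trans h1
      rw [h3, Nat.mod_eq_of_lt hs]
    · exact (Nat.modEq_zero_iff_dvd).1 ((hmod.of_mul_left q).trans h2)
  · rintro ⟨hn1, hn2⟩
    have h3 : n ≡ (Nat.chineseRemainder h s 0 : ℕ) [MOD q] := by
      refine Nat.ModEq.trans ?_ h1.symm
      show n % q = s % q
      rw [hn1, Nat.mod_eq_of_lt hs]
    have h4 : n ≡ (Nat.chineseRemainder h s 0 : ℕ) [MOD L] :=
      Nat.ModEq.trans ((Nat.modEq_zero_iff_dvd).2 hn2) h2.symm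
    have h5 : n % (q * L) = (Nat.chineseRemainder h s 0 : ℕ) % (q * L) :=
      (Nat.modEq_and_modEq_iff_modEq_mul h).1 ⟨h3, h4⟩
    rw [h5, Nat.mod_eq_of_lt hlt]

/-- module P7 (Maj.lean): splitting into progressions. For `d, e` coprime to `q` and `s < q` there is one class modulo
`q lcm(d, e)`, the number `cls q d e s` -/
theorem maj_expand (q : ℕ) (hq : 1 ≤ q) (Z : ℕ) (l : ℕ → ℝ) (hl : ∀ d, l d ≠ 0 → d.Coprime q) :
    ∃ cls : ℕ → ℕ → ℕ → ℕ, (∀ d e s, 1 ≤ d → 1 ≤ e → cls d e s < q * Nat.lcm d e) ∧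
      ∀ ψ g : ℕ → ℂ, (∀ n, ψ n = ψ (n % q)) → ∀ a b : ℕ,
      ∑ n ∈ Ioc a b, (maj Z l n : ℂ) * (ψ n * g n) = ∑ d ∈ Icc 1 Z, ∑ e ∈ Icc 1 Z, ((l d * l e : ℝ) : ℂ) *
        ∑ s ∈ range q, ψ s * ∑ n ∈ (Ioc a b).filter (fun n => n % (q * Nat.lcm d e) = cls d e s), g n := by
  classical
  refine ⟨fun d e s => if h : q.Coprime (Nat.lcm d e) then (Nat.chineseRemainder h s 0 : ℕ) else 0, ?_, ?_⟩
  · intro d e s hd he
    have hL : 0 < Nat.lcm d e := Nat.lcm_pos hd he
    dsimp only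
    split_ifs with h
    · exact Nat.chineseRemainder_lt_mul h s 0 (by omega) (by omega)
    · positivity
  · intro ψ g hψ a b
    have h1 : ∑ n ∈ Ioc a b, (maj Z l n : ℂ) * (ψ n * g n) = ∑ n ∈ Ioc a b, ∑ d ∈ Icc 1 Z, ∑ e ∈ Icc 1 Z,
        ((l d * l e : ℝ) : ℂ) * ((if Nat.lcm d e ∣ n then 1 else 0) * (ψ n * g n)) := by
      apply Finset.sum_congr rfl
      intro n _
      rw [maj_eq]
      push_cast
      rw [Finset.sum_mul]
      apply Finset.sum_congr rfl
      intro d _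
      rw [Finset.sum_mul]
      apply Finset.sum_congr rfl
      intro e _
      by_cases hn : Nat.lcm d e ∣ n
      · rw [if_pos hn, if_pos hn]
        push_cast
        ring
      · rw [if_neg hn, if_neg hn]
        push_cast
        ring
    rw [h1, Finset.sum_comm]
    apply Finset.sum_congr rfl
    intro d hd
    rw [Finset.sum_comm]
    apply Finset.sum_congr rfl
    intro e he
    rw [← Finset.mul_sum]
    by_cases h0 : l d * l e = 0
    · rw [h0]
      simp
    have hld : l d ≠ 0 := left_ne_zero_of_mul h0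
    have hle : l e ≠ 0 := right_ne_zero_of_mul h0
    have hc : q.Coprime (Nat.lcm d e) := by
      apply Nat.Coprime.symm
      exact Nat.Coprime.coprime_dvd_left (Nat.lcm_dvd_mul d e) (Nat.Coprime.mul_left (hl d hld) (hl e hle))
    have hL : 0 < Nat.lcm d e := Nat.lcm_pos (mem_Icc.1 hd).1 (mem_Icc.1 he).1
    congr 1
    simp only [dif_pos hc, Finset.sum_filter, Finset.mul_sum]
    rw [Finset.sum_comm]
    apply Finset.sum_congr rfl
    intro n _
    by_cases hn : Nat.lcm d e ∣ n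
    · rw [if_pos hn, one_mul, Finset.sum_eq_single (n % q)]
      · rw [if_pos ((cls_iff q _ hq hL hc n (n % q) (Nat.mod_lt _ hq)).2 ⟨rfl, hn⟩), ← hψ n]
      · intro s hs hne
        rw [mem_range] at hs
        rw [if_neg (fun hh => hne ((cls_iff q _ hq hL hc n s hs).1 hh).1.symm), mul_zero]
      · intro hh
        exact absurd (mem_range.2 (Nat.mod_lt _ hq)) hh
    · rw [if_neg hn, zero_mul]
      symm
      apply Finset.sum_eq_zero
      intro s hs
      rw [mem_range] at hs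
      rw [if_neg (fun hh => hn ((cls_iff q _ hq hL hc n s hs).1 hh).2), mul_zero]

end Pool.Agent.Lib.DN
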