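import Pool.Agent.Lib.DN.PWDefs
import Pool.Agent.Lib.SW.Davenport
import Pool.Agent.Lib.MP_45349e_nt.LS.Liou

/-!
# The prime number theorem for `λ χ`
-/

set_option autoImplicit false

open Finset

namespace Pool.Agent.Lib.DN

open Pool.Agent.Lib.SW (chM)

private theorem mu_sq {q : ℕ} (χ : DirichletCharacter ℂ q) (a b : ℕ) (ha : Squarefree a) (hb : b ≠ 0) :
    lc χ (a * b ^ 2) = χ (b : ZMod q) ^ 2 * chM χ a := by
  unfold lc chM
  rw [Pool.Agent.Lib.MP_45349e_nt.LS.Liou_lam_sq a b ha hb]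
  push_cast
  rw [map_mul, map_pow]
  ring

private theorem mu_id {q : ℕ} (χ : DirichletCharacter ℂ q) (Y : ℕ) : ∑ n ∈ Icc 1 Y, lc χ n =
    ∑ d ∈ Icc 1 Y, χ (d : ZMod q) ^ 2 * ∑ a ∈ Icc 1 (Y / d ^ 2), chM χ a := by
  classical
  have h1 : ∀ d ∈ Icc 1 Y, χ (d : ZMod q) ^ 2 * ∑ a ∈ Icc 1 (Y / d ^ 2), chM χ a =
      ∑ a ∈ Icc 1 Y, if Squarefree a ∧ a * d ^ 2 ≤ Y then
        χ (d : ZMod q) ^ 2 * chM χ a else 0 := by
    intro d hd
    rw [mem_Icc] at hd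
    have hd2 : 0 < d ^ 2 := pow_pos hd.1 2
    have h2 : Icc 1 (Y / d ^ 2) = (Icc 1 Y).filter (fun a => a * d ^ 2 ≤ Y) := by
      ext a
      rw [mem_filter, mem_Icc, mem_Icc, Nat.le_div_iff_mul_le hd2]
      constructor
      · rintro ⟨h3, h4⟩
        exact ⟨⟨h3, le_trans (Nat.le_mul_of_pos_right a hd2) h4⟩, h4⟩
      · rintro ⟨⟨h3, -⟩, h4⟩
        exact ⟨h3, h4⟩
    rw [h2, mul_sum, sum_filter]
    refine sum_congr rfl fun a _ => ?_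
    by_cases h3 : a * d ^ 2 ≤ Y
    · by_cases h4 : Squarefree a
      · rw [if_pos h3, if_pos ⟨h4, h3⟩]
      · rw [if_pos h3, if_neg (fun h => h4 h.1)]
        unfold chM
        rw [ArithmeticFunction.moebius_eq_zero_of_not_squarefree h4]
        simp
    · rw [if_neg h3, if_neg (fun h => h3 h.2)]
  rw [sum_congr rfl h1, ← sum_product', ← sum_filter]
  symm
  refine sum_bij (fun x _ => x.2 * x.1 ^ 2) ?_ ?_ ?_ ?_
  · rintro ⟨d, a⟩ h
    rw [mem_filter, mem_product, mem_Icc, mem_Icc] at h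
    rw [mem_Icc]
    refine ⟨?_, h.2.2⟩
    have h2 : 0 < a * d ^ 2 := Nat.mul_pos h.1.2.1 (pow_pos h.1.1.1 2)
    exact h2
  · rintro ⟨d, a⟩ h ⟨d', a'⟩ h' heq
    rw [mem_filter, mem_product, mem_Icc, mem_Icc] at h h'
    have h1 : 1 ≤ d := h.1.1.1
    have h1' : 1 ≤ d' := h'.1.1.1
    obtain ⟨h2, h3⟩ := Pool.Agent.Lib.MP_45349e_nt.LS.Liou_sq_unique h.2.1 h'.2.1 (by omega : d ≠ 0)
      (by omega : d' ≠ 0) heq
    rw [Prod.mk.injEq]
    exact ⟨h3, h2⟩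
  · intro n hn
    rw [mem_Icc] at hn
    obtain ⟨a, b, ha, hb, hab, hsq⟩ := Nat.sq_mul_squarefree_of_pos (show 0 < n by omega)
    refine ⟨(b, a), ?_, by rw [← hab]; exact mul_comm _ _⟩
    rw [mem_filter, mem_product, mem_Icc, mem_Icc]
    have h1 : a * b ^ 2 = n := by rw [← hab]; exact mul_comm _ _
    have h2 : a ≤ n := by rw [← h1]; exact Nat.le_mul_of_pos_right a (pow_pos hb 2)
    have h3 : b ≤ n := by
      rw [← h1]
      calc b ≤ b ^ 2 := Nat.le_self_pow (by norm_num) b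
        _ ≤ a * b ^ 2 := Nat.le_mul_of_pos_left _ ha
    exact ⟨⟨⟨hb, h3.trans hn.2⟩, ⟨ha, h2.trans hn.2⟩⟩, hsq, by show a * b ^ 2 ≤ Y; omega⟩
  · rintro ⟨d, a⟩ h
    rw [mem_filter, mem_product, mem_Icc, mem_Icc] at h
    have h1 : 1 ≤ d := h.1.1.1
    exact (mu_sq χ a d h.2.1 (by omega)).symm

private theorem mu_norm {q : ℕ} (χ : DirichletCharacter ℂ q) (n : ℕ) : ‖chM χ n‖ ≤ 1 := by
  unfold chM
  rw [norm_mul]
  have h1 := DirichletCharacter.norm_le_one χ (n : ZMod q)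
  have h2 : ‖((ArithmeticFunction.moebius n : ℤ) : ℂ)‖ ≤ 1 := by
    rw [Complex.norm_intCast, ← Int.cast_abs]
    exact_mod_cast ArithmeticFunction.abs_moebius_le_one
  calc _ ≤ (1 : ℝ) * 1 := mul_le_mul h1 h2 (norm_nonneg _) zero_le_one
    _ = 1 := one_mul 1

private theorem mu_triv {q : ℕ} (χ : DirichletCharacter ℂ q) (Z : ℕ) : ‖∑ a ∈ Icc 1 Z, chM χ a‖ ≤ Z := by
  refine (norm_sum_le _ _).trans ((sum_le_sum fun a _ => mu_norm χ a).trans (le_of_eq ?_))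
  rw [sum_const, Nat.card_Icc, nsmul_eq_mul, mul_one, Nat.add_sub_cancel]

theorem lc_pnt {q : ℕ} [NeZero q] (χ : DirichletCharacter ℂ q) (ε : ℝ) (hε : 0 < ε) : ∃ y0 : ℕ, ∀ y : ℕ, y0 ≤ y →
    ‖∑ n ∈ Icc 1 y, lc χ n‖ ≤ ε * y := by
  obtain ⟨C, hC, h⟩ := Pool.Agent.Lib.SW.dav_char 1
  obtain ⟨D, hD⟩ : ∃ D : ℕ, 4 / ε ≤ D := exists_nat_ge _
  obtain ⟨y1, hy1⟩ : ∃ y1 : ℕ, Real.exp (2 * (D * C * q) / ε + 1) ≤ y1 := exists_nat_ge _
  refine ⟨max (D + 2) y1, fun y hy => ?_⟩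
  have hyD : D + 2 ≤ y := le_trans (le_max_left _ _) hy
  have hy1' : (y1 : ℝ) ≤ y := by exact_mod_cast le_trans (le_max_right _ _) hy
  have hq : (1 : ℝ) ≤ q := by exact_mod_cast Nat.one_le_iff_ne_zero.2 (NeZero.ne q)
  have hy2 : (2 : ℝ) ≤ y := by exact_mod_cast (by omega : 2 ≤ y)
  have hlog : 2 * (D * C * q) / ε + 1 ≤ Real.log y := by
    rw [Real.le_log_iff_exp_le (by linarith)]
    exact hy1.trans hy1'
  have hlog0 : 0 < Real.log y := by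
    have : 0 ≤ 2 * (D * C * q) / ε := by positivity
    linarith
  have hsplit : Icc 1 y = Ioo 0 (D + 1) ∪ Ioo D (y + 1) := by
    ext d
    rw [mem_union, mem_Icc, mem_Ioo, mem_Ioo]
    omega
  have hdisj : Disjoint (Ioo 0 (D + 1)) (Ioo D (y + 1)) := by
    rw [disjoint_left]
    intro d h1 h2
    rw [mem_Ioo] at h1 h2
    omega
  have hterm : ∀ d : ℕ, ‖χ (d : ZMod q) ^ 2 * ∑ a ∈ Icc 1 (y / d ^ 2), chM χ a‖ ≤
      ‖∑ a ∈ Icc 1 (y / d ^ 2), chM χ a‖ := by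
    intro d
    rw [norm_mul, norm_pow]
    have h1 := DirichletCharacter.norm_le_one χ (d : ZMod q)
    exact mul_le_of_le_one_left (norm_nonneg _) (pow_le_one₀ (norm_nonneg _) h1)
  have hA : ‖∑ d ∈ Ioo 0 (D + 1), χ (d : ZMod q) ^ 2 * ∑ a ∈ Icc 1 (y / d ^ 2), chM χ a‖ ≤ ε / 2 * y := by
    have h1 : ∀ d ∈ Ioo 0 (D + 1), ‖χ (d : ZMod q) ^ 2 * ∑ a ∈ Icc 1 (y / d ^ 2), chM χ a‖ ≤
        C * q * (y / Real.log y) := by
      intro d _
      have h2 := h q χ y (y / d ^ 2) (by omega) (Nat.div_le_self _ _)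
      rw [pow_one] at h2
      exact (hterm d).trans h2
    refine (norm_sum_le _ _).trans ((sum_le_sum h1).trans ?_)
    rw [sum_const, Nat.card_Ioo, nsmul_eq_mul]
    have h3 : ((D + 1 - 0 - 1 : ℕ) : ℝ) = D := by
      congr 1
    rw [h3]
    have h4 : D * (C * q * (y / Real.log y)) = D * C * q * y / Real.log y := by ring
    rw [h4, div_le_iff₀ hlog0]
    have h5 : 2 * (D * C * q) / ε ≤ Real.log y := by linarith
    rw [div_le_iff₀ hε] at h5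
    nlinarith
  have hB : ‖∑ d ∈ Ioo D (y + 1), χ (d : ZMod q) ^ 2 * ∑ a ∈ Icc 1 (y / d ^ 2), chM χ a‖ ≤ ε / 2 * y := by
    have h1 : ∀ d ∈ Ioo D (y + 1), ‖χ (d : ZMod q) ^ 2 * ∑ a ∈ Icc 1 (y / d ^ 2), chM χ a‖ ≤
        y * ((d : ℝ) ^ 2)⁻¹ := by
      intro d _
      refine (hterm d).trans ((mu_triv χ _).trans ?_)
      have h5 : ((y / d ^ 2 : ℕ) : ℝ) ≤ (y : ℝ) / ((d ^ 2 : ℕ) : ℝ) := Nat.cast_div_le
      rw [Nat.cast_pow] at h5
      rw [← div_eq_mul_inv]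
      exact h5
    refine (norm_sum_le _ _).trans ((sum_le_sum h1).trans ?_)
    rw [← mul_sum]
    have h2 := sum_Ioo_inv_sq_le (α := ℝ) D (y + 1)
    have hD1 : (0 : ℝ) < (D : ℝ) + 1 := by positivity
    have h3 : 2 / ((D : ℝ) + 1) ≤ ε / 2 := by
      rw [div_le_iff₀ hD1]
      rw [div_le_iff₀ hε] at hD
      nlinarith
    calc (y : ℝ) * ∑ d ∈ Ioo D (y + 1), ((d : ℝ) ^ 2)⁻¹ ≤ y * (2 / (D + 1)) :=
          mul_le_mul_of_nonneg_left h2 (by positivity)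
      _ ≤ y * (ε / 2) := mul_le_mul_of_nonneg_left h3 (by positivity)
      _ = ε / 2 * y := mul_comm _ _
  rw [mu_id, hsplit, sum_union hdisj]
  refine (norm_add_le _ _).trans ?_
  linarith

end Pool.Agent.Lib.DN
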