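import Pool.Agent.Lib.DN.Defs
import Pool.Agent.Lib.MP_45349e_nt.LS.Defs

/-!
# Windows of primes and the Liouville function twisted by a character: definitions
-/

set_option autoImplicit false

open Finset

namespace Pool.Agent.Lib.DN

/-- the primes in `(e^(a/H), e^(b/H)]` -/
noncomputable def PW (H a b : ℕ) : Finset ℕ :=
  (Ioc ⌊Real.exp ((a : ℝ) / H)⌋₊ ⌊Real.exp ((b : ℝ) / H)⌋₊).filter Nat.Prime

/-- the Liouville function twisted by a character -/
noncomputable def lc {q : ℕ} (χ : DirichletCharacter ℂ q) (n : ℕ) : ℂ :=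
  ((Pool.Agent.Lib.MP_45349e_nt.LS.lam n : ℝ) : ℂ) * χ (n : ZMod q)

end Pool.Agent.Lib.DN
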