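import Pool.Agent.Lib.DN.PWDefs
import Pool.Agent.Lib.MP_45349e_nt.LS.LamB
import Pool.Agent.Lib.MP_9fe581_an.EXC.Cit

/-!
# Mean values of the twisted Liouville function at bounded `t`
-/

set_option autoImplicit false

open Finset

namespace Pool.Agent.Lib.DN

open Pool.Agent.Lib.MP_9fe581_an.EXC (cit MM norm_cit cit_sub_le')

theorem st_norm_lc {q : ℕ} [NeZero q] (χ : DirichletCharacter ℂ q) (n : ℕ) : ‖lc χ n‖ ≤ 1 := by
  unfold lc
  rw [norm_mul, Complex.norm_real, Real.norm_eq_abs, Pool.Agent.Lib.MP_45349e_nt.LS.abs_lam, one_mul]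
  exact DirichletCharacter.norm_le_one χ _

/-- summation by parts -/
theorem st_abel (f c : ℕ → ℂ) (N : ℕ) :
    ∑ n ∈ Icc 1 N, f n * c n = (∑ n ∈ Icc 1 N, f n) * c (N + 1) +
      ∑ m ∈ Icc 1 N, (∑ n ∈ Icc 1 m, f n) * (c m - c (m + 1)) := by
  induction N with
  | zero => simp
  | succ N ih =>
    rw [sum_Icc_succ_top (by omega), ih, sum_Icc_succ_top (by omega : 1 ≤ N + 1) (fun m =>
      (∑ n ∈ Icc 1 m, f n) * (c m - c (m + 1))), sum_Icc_succ_top (by omega : 1 ≤ N + 1) f]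
    ring

theorem st_cit (t : ℝ) (m : ℕ) (hm : 1 ≤ m) :
    ‖cit (-t) (m : ℝ) - cit (-t) ((m + 1 : ℕ) : ℝ)‖ ≤ |t| / m := by
  have hm0 : (0 : ℝ) < m := by exact_mod_cast hm
  have hm1 : (0 : ℝ) < ((m + 1 : ℕ) : ℝ) := by positivity
  refine (cit_sub_le' _ hm0 hm1).trans ?_
  rw [abs_neg, div_eq_mul_inv]
  refine mul_le_mul_of_nonneg_left ?_ (abs_nonneg t)
  rw [abs_sub_comm, ← Real.log_div hm1.ne' hm0.ne']
  have h1 : ((m + 1 : ℕ) : ℝ) / m = 1 + (m : ℝ)⁻¹ := by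
    push_cast
    field_simp
  rw [h1]
  have h2 : 0 < (m : ℝ)⁻¹ := by positivity
  rw [abs_of_nonneg (Real.log_nonneg (by linarith))]
  have := Real.log_le_sub_one_of_pos (x := 1 + (m : ℝ)⁻¹) (by positivity)
  linarith

theorem st_sum (y0 N : ℕ) (ε : ℝ) (hε : 0 ≤ ε) :
    ∑ m ∈ Icc 1 N, (if m < y0 then (1 : ℝ) else ε) ≤ y0 + ε * N := by
  have h : ∀ m ∈ Icc 1 N, (if m < y0 then (1 : ℝ) else ε) ≤ (if m < y0 then (1 : ℝ) else 0) + ε := by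
    intro m _
    split_ifs <;> linarith
  refine (sum_le_sum h).trans ?_
  rw [sum_add_distrib, sum_const, Nat.card_Icc, nsmul_eq_mul, ← sum_filter, sum_const, nsmul_eq_mul,
    mul_one]
  have h2 : ((Icc 1 N).filter (· < y0)).card ≤ y0 := by
    refine (card_le_card (t := range y0) ?_).trans (by rw [card_range])
    intro m hm
    rw [mem_filter] at hm
    exact mem_range.mpr hm.2
  have h3 : ((((Icc 1 N).filter (· < y0)).card : ℕ) : ℝ) ≤ y0 := by exact_mod_cast h2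
  rw [Nat.add_sub_cancel]
  nlinarith

theorem st_bound (f : ℕ → ℂ) (hf : ∀ n, ‖f n‖ ≤ 1) (t T ε : ℝ) (hT : |t| ≤ T) (hε : 0 ≤ ε)
    (y0 N : ℕ) (hF : ∀ y : ℕ, y0 ≤ y → ‖∑ n ∈ Icc 1 y, f n‖ ≤ ε * y) :
    ‖∑ n ∈ Icc 1 N, f n * cit (-t) n‖ ≤ (1 + T) * (y0 + ε * N) := by
  have hT0 : 0 ≤ T := (abs_nonneg t).trans hT
  have hF1 : ∀ m : ℕ, ‖∑ n ∈ Icc 1 m, f n‖ ≤ m := by
    intro m
    refine (norm_sum_le _ _).trans ((sum_le_sum fun n _ => hf n).trans ?_)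
    simp
  rw [st_abel f (fun n => cit (-t) (n : ℝ)) N]
  refine (norm_add_le _ _).trans ?_
  have h1 : ‖(∑ n ∈ Icc 1 N, f n) * cit (-t) ((N + 1 : ℕ) : ℝ)‖ ≤ y0 + ε * N := by
    rw [norm_mul, norm_cit, mul_one]
    have hN : (0 : ℝ) ≤ ε * N := by positivity
    rcases le_or_gt y0 N with h | h
    · have : (0 : ℝ) ≤ y0 := by positivity
      linarith [hF N h]
    · have : (N : ℝ) ≤ y0 := by exact_mod_cast h.le
      linarith [hF1 N]
  have h2 : ‖∑ m ∈ Icc 1 N, (∑ n ∈ Icc 1 m, f n) * (cit (-t) (m : ℝ) - cit (-t) ((m + 1 : ℕ) : ℝ))‖ ≤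
      T * (y0 + ε * N) := by
    refine (norm_sum_le _ _).trans ?_
    have h3 : ∀ m ∈ Icc 1 N, ‖(∑ n ∈ Icc 1 m, f n) * (cit (-t) (m : ℝ) - cit (-t) ((m + 1 : ℕ) : ℝ))‖ ≤
        T * (if m < y0 then (1 : ℝ) else ε) := by
      intro m hm
      have hm1 : 1 ≤ m := (mem_Icc.mp hm).1
      have hm0 : (0 : ℝ) < m := by exact_mod_cast hm1
      rw [norm_mul]
      have h4 := st_cit t m hm1
      have h5 : ‖∑ n ∈ Icc 1 m, f n‖ ≤ (if m < y0 then (1 : ℝ) else ε) * m := by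
        split_ifs with h
        · rw [one_mul]; exact hF1 m
        · exact hF m (not_lt.mp h)
      have h6 : 0 ≤ (if m < y0 then (1 : ℝ) else ε) := by split_ifs <;> linarith
      calc ‖∑ n ∈ Icc 1 m, f n‖ * ‖cit (-t) (m : ℝ) - cit (-t) ((m + 1 : ℕ) : ℝ)‖
          ≤ ((if m < y0 then (1 : ℝ) else ε) * m) * (|t| / m) :=
            mul_le_mul h5 h4 (norm_nonneg _) (by positivity)
        _ = |t| * (if m < y0 then (1 : ℝ) else ε) := by field_simp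
        _ ≤ T * (if m < y0 then (1 : ℝ) else ε) := mul_le_mul_of_nonneg_right hT h6
    refine (sum_le_sum h3).trans ?_
    rw [← mul_sum]
    exact mul_le_mul_of_nonneg_left (st_sum y0 N ε hε) hT0
  have h7 : (1 + T) * ((y0 : ℝ) + ε * N) = (y0 + ε * N) + T * (y0 + ε * N) := by ring
  rw [h7]
  exact add_le_add h1 h2

/-- bounded `t`, by Abel summation from cancellation in the plain sums -/
theorem small_t_of {q : ℕ} [NeZero q] (χ : DirichletCharacter ℂ q)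
    (hp : ∀ ε : ℝ, 0 < ε → ∃ y0 : ℕ, ∀ y : ℕ, y0 ≤ y → ‖∑ n ∈ Icc 1 y, lc χ n‖ ≤ ε * y)
    (T ε : ℝ) (hε : 0 < ε) : ∃ v0 : ℝ, 1 ≤ v0 ∧ ∀ v : ℝ, v0 ≤ v →
    ∀ t : ℝ, |t| ≤ T → ‖MM (lc χ) v t‖ ≤ ε := by
  have hT : 0 < 1 + |T| := by positivity
  obtain ⟨y0, hy0⟩ := hp (ε / (2 * (1 + |T|))) (by positivity)
  refine ⟨max 1 (2 * (1 + |T|) * y0 / ε), le_max_left _ _, fun v hv t ht => ?_⟩
  have hv1 : 1 ≤ v := (le_max_left _ _).trans hv
  have hv2 : 2 * (1 + |T|) * y0 / ε ≤ v := (le_max_right _ _).trans hv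
  have hv0 : 0 < v := by linarith
  unfold MM
  rw [norm_div, Complex.norm_real, Real.norm_eq_abs, abs_of_pos hv0, div_le_iff₀ hv0]
  have h1 := st_bound (lc χ) (st_norm_lc χ) t |T| (ε / (2 * (1 + |T|))) (ht.trans (le_abs_self T))
    (by positivity) y0 ⌊v⌋₊ hy0
  refine h1.trans ?_
  have h2 : ((⌊v⌋₊ : ℕ) : ℝ) ≤ v := Nat.floor_le hv0.le
  rw [div_le_iff₀ hε] at hv2
  have h3 : (1 + |T|) * ((y0 : ℝ) + ε / (2 * (1 + |T|)) * ⌊v⌋₊) = (1 + |T|) * y0 + ε / 2 * ⌊v⌋₊ := by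
    field_simp
  rw [h3]
  nlinarith

end Pool.Agent.Lib.DN
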