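import Pool.Agent.Lib.DN.Mu
import Pool.Agent.Lib.DN.SmallTA

/-!
# Module Q7: bounded `t`
-/

set_option autoImplicit false

namespace Pool.Agent.Lib.DN

open Pool.Agent.Lib.MP_9fe581_an.EXC (MM)

theorem small_t {q : ℕ} [NeZero q] (χ : DirichletCharacter ℂ q) (T ε : ℝ) (hε : 0 < ε) : ∃ v0 : ℝ, 1 ≤ v0 ∧ ∀ v : ℝ, v0 ≤ v →
    ∀ t : ℝ, |t| ≤ T → ‖MM (lc χ) v t‖ ≤ ε :=
  small_t_of χ (fun ε hε => lc_pnt χ ε hε) T ε hε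

end Pool.Agent.Lib.DN
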