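import Pool.Agent.Lib.DN.PWDefs
import Pool.Agent.Lib.DN.Pnt

/-!
# Lower and upper bounds for the sums of `1/p` over windows
-/

set_option autoImplicit false

open Finset

namespace Pool.Agent.Lib.DN

private lemma PW_mono_floor (H a b : ℕ) (hab : a ≤ b) :
    ⌊Real.exp ((a : ℝ) / H)⌋₊ ≤ ⌊Real.exp ((b : ℝ) / H)⌋₊ := by
  apply Nat.floor_mono
  apply Real.exp_le_exp.mpr
  have : (a : ℝ) ≤ b := by exact_mod_cast hab
  gcongr

private lemma exp_step (H b : ℕ) :
    Real.exp ((b : ℝ) / H) * Real.exp (1 / (H : ℝ)) = Real.exp (((b + 1 : ℕ) : ℝ) / H) := by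
  rw [← Real.exp_add, ← add_div]
  push_cast
  rfl

private lemma VV_step (H a b : ℕ) (hab : a ≤ b) :
    VV (PW H a (b + 1)) = VV (PW H a b) + VV (win (Real.exp ((b : ℝ) / H)) H) := by
  classical
  have hu : PW H a (b + 1) = PW H a b ∪ win (Real.exp ((b : ℝ) / H)) H := by
    unfold PW win
    rw [exp_step, ← filter_union, Ioc_union_Ioc_eq_Ioc (PW_mono_floor H a b hab)
      (PW_mono_floor H b (b + 1) (Nat.le_succ b))]
  have hd : Disjoint (PW H a b) (win (Real.exp ((b : ℝ) / H)) H) := by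
    rw [disjoint_left]
    intro x hx hx'
    unfold PW at hx
    unfold win at hx'
    rw [mem_filter, mem_Ioc] at hx hx'
    omega
  unfold VV
  rw [hu, sum_union hd]

private lemma win_low (H j : ℕ) (hH : 1 ≤ H) (hj : 1 ≤ j)
    (hc : Real.exp ((j : ℝ) / H) / (2 * H * Real.log (Real.exp ((j : ℝ) / H))) ≤
      ((win (Real.exp ((j : ℝ) / H)) H).card : ℝ)) :
    1 / (6 * (j : ℝ)) ≤ VV (win (Real.exp ((j : ℝ) / H)) H) := by
  set P : ℝ := Real.exp ((j : ℝ) / H) with hP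
  have hP0 : 0 < P := Real.exp_pos _
  have hH0 : (0 : ℝ) < H := by exact_mod_cast hH
  have hj0 : (0 : ℝ) < j := by exact_mod_cast hj
  rw [hP, Real.log_exp, ← hP] at hc
  have hc' : P / (2 * j) ≤ ((win P H).card : ℝ) := by
    refine le_trans (le_of_eq ?_) hc
    field_simp
  have he : Real.exp (1 / (H : ℝ)) ≤ 3 := by
    have h1 : (1 : ℝ) / H ≤ 1 := by
      rw [div_le_one hH0]
      exact_mod_cast hH
    calc Real.exp (1 / (H : ℝ)) ≤ Real.exp 1 := Real.exp_le_exp.mpr h1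
      _ ≤ 3 := by
        have := Real.exp_one_lt_d9
        linarith
  have hterm : ∀ p ∈ win P H, 1 / (3 * P) ≤ (1 : ℝ) / p := by
    intro p hp
    unfold win at hp
    rw [mem_filter, mem_Ioc] at hp
    have hp0 : (0 : ℝ) < p := by exact_mod_cast hp.2.pos
    have h1 : (p : ℝ) ≤ P * Real.exp (1 / H) := by
      calc (p : ℝ) ≤ (⌊P * Real.exp (1 / H)⌋₊ : ℝ) := by exact_mod_cast hp.1.2
        _ ≤ _ := Nat.floor_le (by positivity)
    have h2 : (p : ℝ) ≤ 3 * P := by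
      calc (p : ℝ) ≤ P * Real.exp (1 / H) := h1
        _ ≤ P * 3 := by gcongr
        _ = 3 * P := by ring
    exact one_div_le_one_div_of_le hp0 h2
  calc 1 / (6 * (j : ℝ)) = P / (2 * j) * (1 / (3 * P)) := by
        field_simp
        norm_num
    _ ≤ ((win P H).card : ℝ) * (1 / (3 * P)) := by gcongr
    _ = ∑ p ∈ win P H, 1 / (3 * P) := by rw [sum_const, nsmul_eq_mul]
    _ ≤ VV (win P H) := sum_le_sum hterm

/-- module Q4 (VLow.lean): from `win_card` (P12): `N_j ≥ e^(j/H)/(2 j)`, `∑_{window} 1/p ≥ 1/(6 j)` -/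
theorem VV_low (H : ℕ) (hH : 1 ≤ H) : ∃ a0 : ℕ, 1 ≤ a0 ∧ ∀ a b : ℕ, a0 ≤ a → a ≤ b →
    1 / 6 * (Real.log b - Real.log a) ≤ VV (PW H a b) := by
  obtain ⟨P0, hP3, hP⟩ := win_card H hH
  have hH0 : (0 : ℝ) < H := by exact_mod_cast hH
  refine ⟨⌈(H : ℝ) * Real.log P0⌉₊ + 1, by omega, ?_⟩
  intro a b ha hab
  induction b, hab using Nat.le_induction with
  | base =>
    have : 0 ≤ VV (PW H a a) := sum_nonneg fun p _ => by positivity
    simpa using this
  | succ b hab ih =>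
    rw [VV_step H a b hab]
    have hb1 : 1 ≤ b := by omega
    have hb0 : (0 : ℝ) < b := by exact_mod_cast hb1
    have hPb : P0 ≤ Real.exp ((b : ℝ) / H) := by
      rw [← Real.log_le_iff_le_exp (by linarith), le_div_iff₀ hH0]
      have h1 : (H : ℝ) * Real.log P0 ≤ ⌈(H : ℝ) * Real.log P0⌉₊ := Nat.le_ceil _
      have h2 : ((⌈(H : ℝ) * Real.log P0⌉₊ + 1 : ℕ) : ℝ) ≤ (b : ℝ) := by
        exact_mod_cast ha.trans hab
      push_cast at h2
      linarith
    have hw := win_low H b hH hb1 (hP _ hPb)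
    have hlog : Real.log ((b + 1 : ℕ) : ℝ) - Real.log b ≤ 1 / b := by
      rw [← Real.log_div (by positivity) hb0.ne']
      have e : ((b + 1 : ℕ) : ℝ) / b = 1 + 1 / b := by
        push_cast
        field_simp
      rw [e]
      have := Real.log_le_sub_one_of_pos (show (0 : ℝ) < 1 + 1 / b by positivity)
      linarith
    have e6 : 1 / (6 * (b : ℝ)) = 1 / 6 * (1 / b) := by
      field_simp
    rw [e6] at hw
    linarith

/-- module Q4 (VLow.lean) -/
theorem VV_up (H a b : ℕ) (hH : 1 ≤ H) : VV (PW H a b) ≤ 1 + (b : ℝ) / H := by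
  have hH0 : (0 : ℝ) < H := by exact_mod_cast hH
  set N : ℕ := ⌊Real.exp ((b : ℝ) / H)⌋₊ with hN
  have hsub : PW H a b ⊆ Icc 1 N := by
    intro p hp
    unfold PW at hp
    rw [mem_filter, mem_Ioc] at hp
    rw [mem_Icc]
    exact ⟨hp.2.pos, hp.1.2⟩
  have hexp : 1 ≤ Real.exp ((b : ℝ) / H) := Real.one_le_exp (by positivity)
  have hN1 : 1 ≤ N := by
    rw [hN, Nat.one_le_floor_iff]
    exact hexp
  have hN0 : (0 : ℝ) < N := by exact_mod_cast hN1
  have hlogN : Real.log N ≤ (b : ℝ) / H := by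
    rw [Real.log_le_iff_le_exp hN0]
    exact Nat.floor_le (by positivity)
  have hharm : ∑ n ∈ Icc 1 N, (1 : ℝ) / n ≤ 1 + Real.log N := by
    have h := harmonic_le_one_add_log N
    rw [harmonic_eq_sum_Icc] at h
    push_cast at h
    simpa [one_div] using h
  calc VV (PW H a b) ≤ ∑ n ∈ Icc 1 N, (1 : ℝ) / n :=
        sum_le_sum_of_subset_of_nonneg hsub (fun n _ _ => by positivity)
    _ ≤ 1 + Real.log N := hharm
    _ ≤ _ := by linarith

end Pool.Agent.Lib.DN
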